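import Pool.Agent.MPab1e31Se.Der

/-!
The logarithmic derivative of a function on `y ^ p = f (x)` with divisor `n P`.
-/

namespace Pool.Agent.MPab1e31.Se

open Polynomial Pool.Agent.MPab1e31.Hyp Pool.Agent.MPab1e31

section

variable {E : Type*} [Field E] {p : ℕ} [hp : Fact p.Prime] (f : E[X])

lemma dl_mem_pow (I : Ideal (AdjoinRoot (SF p f))) (m : ℕ) :
    ∀ w ∈ I ^ (m + 1), dl f w ∈ I ^ m := by
  induction m with
  | zero =>
    intro w _
    rw [pow_zero, Ideal.one_eq_top]
    exact Submodule.mem_top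
  | succ m ih =>
    intro w hw
    rw [pow_succ] at hw
    refine Submodule.mul_induction_on hw ?_ ?_
    · intro a ha b hb
      rw [dl_mul]
      refine add_mem ?_ (Ideal.mul_mem_right _ _ ha)
      rw [pow_succ]
      exact Ideal.mul_mem_mul (ih a ha) hb
    · intro a b ha hb
      rw [dl_add]
      exact add_mem ha hb

omit hp in
lemma mem_ptJ_of_evp {t s : E} (hs : s ^ p = f.eval t) (r : AdjoinRoot (SF p f))
    (hr : evp p f t s hs r = 0) : r ∈ ptJ (SF p f) t s := by
  have h1 : (Ideal.Quotient.mk (ptJ (SF p f) t s)) = ((Ideal.Quotient.mk (ptJ (SF p f) t s)).comp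
      ((AdjoinRoot.of (SF p f)).comp C)).comp (evp p f t s hs) := by
    refine AdjoinRoot.ringHom_ext ?_ ?_
    · refine RingHom.ext fun a => ?_
      rw [RingHom.comp_apply, RingHom.comp_apply, RingHom.comp_apply, evp_of, RingHom.comp_apply,
        RingHom.comp_apply, Ideal.Quotient.eq, ← map_sub]
      obtain ⟨b, hb⟩ : (X - C t) ∣ a - C (a.eval t) := by
        rw [dvd_iff_isRoot, IsRoot.def, eval_sub, eval_C, sub_self]
      rw [hb, map_mul]
      exact Ideal.mul_mem_right _ _ (Ideal.subset_span (by simp))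
    · rw [RingHom.comp_apply, evp_root, RingHom.comp_apply, RingHom.comp_apply,
        Ideal.Quotient.eq]
      exact Ideal.subset_span (Set.mem_insert_of_mem _ rfl)
  rw [← Ideal.Quotient.eq_zero_iff_mem, h1, RingHom.comp_apply, hr, map_zero]

omit hp in
lemma ptJ_le_ker {t s : E} (hs : s ^ p = f.eval t) :
    ptJ (SF p f) t s ≤ RingHom.ker (evp p f t s hs) := by
  rw [ptJ, Ideal.span_le]
  rintro _ (rfl | rfl)
  · rw [SetLike.mem_coe, RingHom.mem_ker, evp_of]; simp
  · rw [SetLike.mem_coe, RingHom.mem_ker, map_sub, evp_of, evp_root]; simp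

variable [CharZero E] [IsDomain (AdjoinRoot (SF p f))]

/-- The logarithmic derivative. -/
theorem exists_log {ζ : E} (hζ : IsPrimitiveRoot ζ p) {t s : E} (hs : s ^ p = f.eval t)
    (hs0 : s ≠ 0) (m : ℕ) (z : AdjoinRoot (SF p f))
    (hz : ptJ (SF p f) t s ^ (m + 1) = Ideal.span {z}) :
    z ≠ 0 ∧ ∃ h, AdjoinRoot.of (SF p f) (X - C t) * dl f z = z * h ∧ evp p f t s hs h ≠ 0 ∧
      ∀ (s' : E) (hs' : s' ^ p = f.eval t), s' ≠ s → evp p f t s' hs' h = 0 := by
  classical
  set π := AdjoinRoot.of (SF p f) (X - C t) with hπ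
  have hπ0 : π ≠ 0 := of_ne_zero hp.out.ne_zero f (X_sub_C_ne_zero t)
  have hπP : π ∈ ptJ (SF p f) t s := Ideal.subset_span (Set.mem_insert _ _)
  -- `h`
  have h1 : π * dl f z ∈ Ideal.span {z} := by
    rw [← hz, pow_succ']
    refine Ideal.mul_mem_mul hπP (dl_mem_pow f _ m z ?_)
    rw [hz]
    exact Ideal.mem_span_singleton_self z
  obtain ⟨h, hh⟩ := Ideal.mem_span_singleton.mp h1
  -- `q`
  have h2 : π ^ (m + 1) ∈ Ideal.span {z} := by
    rw [← hz]
    exact Ideal.pow_mem_pow hπP _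
  obtain ⟨q, hq⟩ := Ideal.mem_span_singleton.mp h2
  have hz0 : z ≠ 0 := by
    rintro rfl
    rw [zero_mul] at hq
    exact pow_ne_zero _ hπ0 hq
  -- `q` does not vanish at the point
  have hq0 : evp p f t s hs q ≠ 0 := by
    intro h0
    have hqP := mem_ptJ_of_evp f hs q h0
    set Q := ∏ i ∈ (Finset.range p).erase 0, ptJ (SF p f) t (ζ ^ i * s) with hQ
    have hPQ : ptJ (SF p f) t s * Q = Ideal.span {π} := by
      have e1 := prod_ptJ hp.out.ne_zero f hζ hs hs0
      rw [← Finset.mul_prod_erase _ _ (Finset.mem_range.mpr hp.out.pos), pow_zero, one_mul] at e1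
      exact e1
    have h3 : Ideal.span {π ^ (m + 1)} ≤ ptJ (SF p f) t s ^ (m + 1) * ptJ (SF p f) t s := by
      rw [Ideal.span_singleton_le_iff_mem, hq]
      refine Ideal.mul_mem_mul ?_ hqP
      rw [hz]
      exact Ideal.mem_span_singleton_self z
    have h4 : ptJ (SF p f) t s ^ (m + 1) * Q ^ (m + 1) = Ideal.span {π ^ (m + 1)} := by
      rw [← mul_pow, hPQ, Ideal.span_singleton_pow]
    have h5 : Ideal.span {π ^ (m + 1)} * Q ^ (m + 1) ≤
        Ideal.span {π ^ (m + 1)} * ptJ (SF p f) t s := by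
      calc Ideal.span {π ^ (m + 1)} * Q ^ (m + 1)
          ≤ (ptJ (SF p f) t s ^ (m + 1) * ptJ (SF p f) t s) * Q ^ (m + 1) :=
            Ideal.mul_mono_left h3
        _ = (ptJ (SF p f) t s ^ (m + 1) * Q ^ (m + 1)) * ptJ (SF p f) t s := by ring
        _ = _ := by rw [h4]
    have h6 : Q ^ (m + 1) ≤ ptJ (SF p f) t s :=
      (Ideal.span_singleton_mul_right_mono (pow_ne_zero _ hπ0)).mp h5
    have h7a : ∀ i ∈ (Finset.range p).erase 0,
        AdjoinRoot.root (SF p f) - AdjoinRoot.of (SF p f) (C (ζ ^ i * s)) ∈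
        ptJ (SF p f) t (ζ ^ i * s) := fun i _ =>
      Ideal.subset_span (Set.mem_insert_of_mem _ (Set.mem_singleton _))
    have h7b : ∏ i ∈ (Finset.range p).erase 0,
        (AdjoinRoot.root (SF p f) - AdjoinRoot.of (SF p f) (C (ζ ^ i * s))) ∈ Q := by
      rw [hQ]
      exact Ideal.prod_mem_prod h7a
    have h7 := Ideal.pow_mem_pow h7b (m + 1)
    have h8 := RingHom.mem_ker.mp (ptJ_le_ker f hs (h6 h7))
    rw [map_pow, map_prod] at h8
    refine pow_ne_zero _ (Finset.prod_ne_zero_iff.mpr fun i hi => ?_) h8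
    rw [map_sub, evp_of, evp_root, eval_C]
    have hi' := Finset.mem_erase.mp hi
    have e1 : s - ζ ^ i * s = (1 - ζ ^ i) * s := by ring
    rw [e1]
    refine mul_ne_zero (sub_ne_zero.mpr fun h9 => hi'.1 ?_) hs0
    exact hζ.pow_inj (Finset.mem_range.mp hi'.2) hp.out.pos (by rw [pow_zero]; exact h9.symm)
  refine ⟨hz0, h, hh, ?_, ?_⟩
  · -- the residue
    have e1 : ((m + 1 : ℕ) : AdjoinRoot (SF p f)) * π ^ m * dl f π =
        dl f z * q + z * dl f q := by
      rw [← dl_pow, hq, dl_mul]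
    have e2 : z * (((m + 1 : ℕ) : AdjoinRoot (SF p f)) * q * dl f π) =
        z * (h * q + π * dl f q) := by
      have e3 : z * (((m + 1 : ℕ) : AdjoinRoot (SF p f)) * q * dl f π) =
          π * (((m + 1 : ℕ) : AdjoinRoot (SF p f)) * π ^ m * dl f π) := by
        have e4 : π ^ (m + 1) = π * π ^ m := pow_succ' π m
        rw [e4] at hq
        linear_combination -((m + 1 : ℕ) : AdjoinRoot (SF p f)) * dl f π * hq
      rw [e3, e1]
      linear_combination q * hh
    have e5 := mul_left_cancel₀ hz0 e2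
    have e6 := congrArg (evp p f t s hs) e5
    have e7 : evp p f t s hs (dl f π) = (p : E) * f.eval t := by
      rw [hπ, dl_of, evp_of]
      simp
    have e8 : evp p f t s hs π = 0 := by
      rw [hπ, evp_of]; simp
    rw [map_mul, map_mul, map_natCast, map_add, map_mul, map_mul, e7, e8, zero_mul, add_zero] at e6
    intro h0
    rw [h0, zero_mul] at e6
    have hft : f.eval t ≠ 0 := by
      rw [← hs]
      exact pow_ne_zero _ hs0
    exact mul_ne_zero (mul_ne_zero (Nat.cast_ne_zero.mpr (Nat.succ_ne_zero m)) hq0)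
      (mul_ne_zero (Nat.cast_ne_zero.mpr hp.out.ne_zero) hft) e6
  · intro s' hs' hne
    have e1 := congrArg (evp p f t s' hs') hh
    have e2 : evp p f t s' hs' π = 0 := by
      rw [hπ, evp_of]; simp
    rw [map_mul, map_mul, e2, zero_mul] at e1
    rcases mul_eq_zero.mp e1.symm with h3 | h3
    · exfalso
      have h4 : Ideal.span {z} ≤ RingHom.ker (evp p f t s' hs') := by
        rw [Ideal.span_singleton_le_iff_mem]
        exact RingHom.mem_ker.mpr h3
      rw [← hz] at h4
      have h5 : (AdjoinRoot.root (SF p f) - AdjoinRoot.of (SF p f) (C s)) ^ (m + 1) ∈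
          ptJ (SF p f) t s ^ (m + 1) :=
        Ideal.pow_mem_pow (Ideal.subset_span (Set.mem_insert_of_mem _ (Set.mem_singleton _))) _
      have h6 := RingHom.mem_ker.mp (h4 h5)
      rw [map_pow, map_sub, evp_of, evp_root, eval_C] at h6
      exact pow_ne_zero _ (sub_ne_zero.mpr hne) h6
    · exact h3

omit hp [CharZero E] [IsDomain (AdjoinRoot (SF p f))] in
lemma evp_mk (t s : E) (hs : s ^ p = f.eval t) (q : E[X][X]) :
    evp p f t s hs (AdjoinRoot.mk (SF p f) q) = (q.map (evalRingHom t)).eval s := by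
  rw [evp, AdjoinRoot.lift_mk, eval_map]

/-- The top component of the logarithmic derivative does not vanish at `t`. -/
theorem log_coeff_ne_zero {ζ : E} (hζ : IsPrimitiveRoot ζ p) {t s : E} (hs : s ^ p = f.eval t)
    (hs0 : s ≠ 0) (h : AdjoinRoot (SF p f)) (h1 : evp p f t s hs h ≠ 0)
    (h2 : ∀ (s' : E) (hs' : s' ^ p = f.eval t), s' ≠ s → evp p f t s' hs' h = 0) :
    ((red f h).coeff (p - 1)).eval t ≠ 0 := by
  intro h0
  set H := (red f h).map (evalRingHom t) with hH
  have hev : ∀ (s' : E) (hs' : s' ^ p = f.eval t), evp p f t s' hs' h = H.eval s' := by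
    intro s' hs'
    rw [hH, ← evp_mk f t s' hs', mk_red]
  have hpos := hp.out.pos
  have h2p := hp.out.two_le
  have hdeg : H.natDegree < p - 1 := by
    have e1 : H.natDegree ≤ p - 2 := by
      rw [natDegree_le_iff_coeff_eq_zero]
      intro N hN
      rw [hH, coeff_map]
      rcases lt_or_ge N p with h3 | h3
      · have h4 : N = p - 1 := by omega
        rw [h4]
        exact h0
      · rw [red_coeff_eq_zero f h h3, map_zero]
    omega
  have hζ0 : ζ ≠ 0 := hζ.ne_zero hp.out.ne_zero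
  have h3 : H = 0 := by
    refine eq_zero_of_natDegree_lt_card_of_eval_eq_zero (ι := Fin (p - 1)) H
      (f := fun i => ζ ^ ((i : ℕ) + 1) * s) ?_ ?_ (by rw [Fintype.card_fin]; exact hdeg)
    · intro i j hij
      have e1 : ζ ^ ((i : ℕ) + 1) = ζ ^ ((j : ℕ) + 1) := mul_right_cancel₀ hs0 hij
      have e2 := hζ.pow_inj (by have := i.2; omega) (by have := j.2; omega) e1
      exact Fin.ext (by omega)
    · intro i
      have e1 : (ζ ^ ((i : ℕ) + 1) * s) ^ p = f.eval t := by
        rw [mul_pow, ← pow_mul, mul_comm _ p, pow_mul, hζ.pow_eq_one, one_pow, one_mul, hs]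
      rw [← hev _ e1]
      refine h2 _ e1 fun h4 => ?_
      have e2 : ζ ^ ((i : ℕ) + 1) = 1 := by
        have : ζ ^ ((i : ℕ) + 1) * s = 1 * s := by rw [h4, one_mul]
        exact mul_right_cancel₀ hs0 this
      have e3 := hζ.pow_inj (i := (i : ℕ) + 1) (j := 0) (by have := i.2; omega) hpos
        (by rw [pow_zero]; exact e2)
      omega
  apply h1
  rw [hev, h3, eval_zero]

omit [CharZero E] in
/-- The degree of the top component of the logarithmic derivative. -/
theorem log_natDegree (hmon : f.Monic) (hpd : ¬ p ∣ f.natDegree) (t : E)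
    (z h : AdjoinRoot (SF p f)) (hz0 : z ≠ 0)
    (hh : AdjoinRoot.of (SF p f) (X - C t) * dl f z = z * h)
    (h0 : (red f h).coeff (p - 1) ≠ 0) :
    ((red f h).coeff (p - 1)).natDegree * p ≤ f.natDegree := by
  have hh0 : h ≠ 0 := by
    rintro rfl
    rw [red_zero, coeff_zero] at h0
    exact h0 rfl
  have hπ0 : AdjoinRoot.of (SF p f) (X - C t) ≠ 0 :=
    of_ne_zero hp.out.ne_zero f (X_sub_C_ne_zero t)
  have hdz : dl f z ≠ 0 := by
    intro h1
    rw [h1, mul_zero] at hh
    rcases mul_eq_zero.mp hh.symm with h2 | h2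
    · exact hz0 h2
    · exact hh0 h2
  have e1 := natDegree_Psi_mul hmon hpd hπ0 hdz
  have e2 := natDegree_Psi_mul hmon hpd hz0 hh0
  rw [hh, e2, Psi_of, natDegree_expand, natDegree_X_sub_C, one_mul] at e1
  have hpos := hp.out.pos
  rcases natDegree_Psi_dl f hpd z with e3 | e3
  · have e4 := natDegree_le_theta hp.out hpd (natDegree_red_lt f h)
      (i := p - 1) (by omega) h0
    have e5 : (Psi f h).natDegree = (theta p f.natDegree (red f h)).natDegree := rfl
    have e6 : f.natDegree * p = f.natDegree * (p - 1) + f.natDegree := by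
      obtain ⟨k, hk⟩ : ∃ k, p = k + 1 := ⟨p - 1, by omega⟩
      rw [hk, Nat.add_sub_cancel]; ring
    omega
  · exact absurd e3 hdz

end

end Pool.Agent.MPab1e31.Se
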