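import Pool.Agent.MPab1e31.HypBridge

/-!
Comparison of a real `p`-adic absolute value on an algebraic closure with an adic valuation of a
number field.
-/

namespace Pool.Agent.MPab1e31.Se

open Polynomial IsDedekindDomain NumberField

open scoped WithZero

/-- A `p`-adic absolute value. -/
theorem exists_abs (p : ℕ) [hp : Fact p.Prime] (E : Type*) [Field E] [CharZero E]
    [Algebra.IsAlgebraic ℚ E] : ∃ v : AbsoluteValue E ℝ, IsNonarchimedean v ∧ v (p : E) < 1 := by
  let j : E →ₐ[ℚ] PadicAlgCl p := IsAlgClosed.lift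
  let v₀ : AbsoluteValue (PadicAlgCl p) ℝ := IsAbsoluteValue.toAbsoluteValue norm
  refine ⟨v₀.comp (f := j.toRingHom) j.toRingHom.injective, ?_, ?_⟩
  · intro a b
    change ‖j (a + b)‖ ≤ max ‖j a‖ ‖j b‖
    rw [map_add]
    exact PadicAlgCl.isNonarchimedean p _ _
  · change ‖j (p : E)‖ < 1
    rw [map_natCast]
    have h1 : (((p : ℕ) : ℚ_[p]) : PadicAlgCl p) = ((p : ℕ) : PadicAlgCl p) :=
      map_natCast (algebraMap ℚ_[p] (PadicAlgCl p)) p
    rw [← h1, PadicAlgCl.norm_extends, Padic.norm_p]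
    exact inv_lt_one_of_one_lt₀ (by exact_mod_cast hp.out.one_lt)

/-- The comparison of valuations. -/
theorem exists_bridge (p : ℕ) [hp : Fact p.Prime] {L E : Type*} [Field L] [NumberField L] [Field E]
    [CharZero E] [Algebra L E] {v : AbsoluteValue E ℝ} (hv : IsNonarchimedean v)
    (hv2 : v (p : E) < 1) :
    ∃ P : HeightOneSpectrum (𝓞 L),
      ∀ K : ℝ, ∃ C : ℤᵐ⁰, ∀ x : L, C < P.valuation L x → K < v (algebraMap L E x) := by
  have hint : ∀ a : 𝓞 L, v (algebraMap L E a) ≤ 1 := by
    intro a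
    apply Hyp.abs_le_one_of_isIntegral hv
    exact (RingOfIntegers.isIntegral_coe a).map (Algebra.ofId L E |>.restrictScalars ℤ)
  -- the prime ideal
  let I : Ideal (𝓞 L) :=
    { carrier := {a | v (algebraMap L E a) < 1}
      zero_mem' := by simp
      add_mem' := by
        intro a b ha hb
        change v (algebraMap L E ((a + b : 𝓞 L) : L)) < 1
        have : ((a + b : 𝓞 L) : L) = (a : L) + (b : L) := rfl
        rw [this, map_add]
        exact lt_of_le_of_lt (hv _ _) (max_lt ha hb)
      smul_mem' := by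
        intro c a ha
        change v (algebraMap L E ((c * a : 𝓞 L) : L)) < 1
        have : ((c * a : 𝓞 L) : L) = (c : L) * (a : L) := rfl
        rw [this, map_mul, map_mul]
        calc v (algebraMap L E c) * v (algebraMap L E a) ≤ 1 * v (algebraMap L E a) :=
              mul_le_mul_of_nonneg_right (hint c) (v.nonneg _)
          _ < 1 := by rw [one_mul]; exact ha }
  have hI : ∀ a : 𝓞 L, a ∈ I ↔ v (algebraMap L E a) < 1 := fun a => Iff.rfl
  have hprime : I.IsPrime := by
    rw [Ideal.isPrime_iff]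
    constructor
    · rw [Ne, Ideal.eq_top_iff_one, hI]
      have : (((1 : 𝓞 L)) : L) = 1 := rfl
      rw [this, map_one, map_one]; exact lt_irrefl _
    · intro a b hab
      by_contra hcon
      push Not at hcon
      rw [hI, not_lt] at hcon
      obtain ⟨h1, h2⟩ := hcon
      rw [hI, not_lt] at h2
      rw [hI] at hab
      have : ((a * b : 𝓞 L) : L) = (a : L) * (b : L) := rfl
      rw [this, map_mul, map_mul] at hab
      nlinarith
  have hpI : ((p : ℕ) : 𝓞 L) ∈ I := by
    rw [hI]
    have : (((p : ℕ) : 𝓞 L) : L) = (p : L) := rfl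
    rw [this, map_natCast]; exact hv2
  have hbot : I ≠ ⊥ := by
    intro h0
    rw [h0, Ideal.mem_bot] at hpI
    exact (Nat.cast_ne_zero.mpr hp.out.ne_zero) hpI
  let P : HeightOneSpectrum (𝓞 L) := ⟨I, hprime, hbot⟩
  have hlt : ∀ y : L, P.valuation L y < 1 → v (algebraMap L E y) < 1 := by
    intro y hy
    obtain ⟨a, d, had⟩ := P.exists_primeCompl_mul_eq_of_integer (K := L) y hy.le
    have hd : v (algebraMap L E ((d : 𝓞 L) : L)) = 1 := by
      refine le_antisymm (hint _) ?_
      rw [← not_lt, ← hI]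
      exact d.2
    have hdP : P.valuation L (algebraMap (𝓞 L) L d) = 1 :=
      (P.valuation_eq_one_iff_notMem (K := L)).mpr d.2
    have haP : P.valuation L (algebraMap (𝓞 L) L a) < 1 := by
      rw [← had, map_mul, hdP, mul_one]; exact hy
    have haI : a ∈ I := (HeightOneSpectrum.valuation_lt_one_iff_mem P a).mp haP
    have h1 : v (algebraMap L E (y * algebraMap (𝓞 L) L d)) < 1 := by
      rw [had]; exact haI
    rw [map_mul, map_mul] at h1
    have h2 : v (algebraMap L E (algebraMap (𝓞 L) L d)) = 1 := hd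
    rwa [h2, mul_one] at h1
  refine ⟨P, fun K => ?_⟩
  have hp0 : ((p : ℕ) : E) ≠ 0 := Nat.cast_ne_zero.mpr hp.out.ne_zero
  have h2pos : 0 < v (p : E) := v.pos hp0
  have hMpos : (0 : ℝ) < max 1 K := lt_of_lt_of_le one_pos (le_max_left _ _)
  obtain ⟨k, hk⟩ := exists_pow_lt_of_lt_one (one_div_pos.mpr hMpos) hv2
  refine ⟨P.valuation L (((p : L) ^ k)⁻¹), fun x hx => ?_⟩
  have hx0 : x ≠ 0 := by
    rintro rfl
    rw [map_zero] at hx
    exact not_lt_zero hx
  have h1 : P.valuation L (((p : L) ^ k)⁻¹ * x⁻¹) < 1 := by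
    rw [map_mul, map_inv₀ _ x]
    have hx' : P.valuation L x ≠ 0 := (Valuation.ne_zero_iff _).mpr hx0
    calc P.valuation L (((p : L) ^ k)⁻¹) * (P.valuation L x)⁻¹
        < P.valuation L x * (P.valuation L x)⁻¹ := by
          exact mul_lt_mul_of_pos_right hx (by simpa using zero_lt_iff.mpr hx')
      _ = 1 := mul_inv_cancel₀ hx'
  have h2 := hlt _ h1
  have hvx : 0 < v (algebraMap L E x) := v.pos ((_root_.map_ne_zero _).mpr hx0)
  rw [map_mul, map_mul, map_inv₀, map_inv₀, map_inv₀, map_inv₀, map_pow, map_pow, map_natCast] at h2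
  rw [← div_eq_mul_inv, div_lt_one hvx] at h2
  refine lt_of_le_of_lt ?_ h2
  rw [lt_div_iff₀ (by positivity)] at hk
  calc K ≤ max 1 K := le_max_right _ _
    _ ≤ (v (p : E) ^ k)⁻¹ := by
      rw [← one_div, le_div_iff₀ (by positivity), mul_comm]; exact hk.le

end Pool.Agent.MPab1e31.Se
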