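import Pool.Agent.MPab1e31.Main

/-!
# Kummer characters of prime order separating conjugates
-/

open IsDedekindDomain NumberField

open scoped WithZero

namespace Pool.Agent.MPab1e31.Se

open Pool.Agent.MPab1e31

section Val

variable {F₀ L : Type*} [Field F₀] [Field L] [NumberField L] [Algebra F₀ L]
    [FiniteDimensional F₀ L]

/-- For finitely many units there is a discrete valuation `v` trivial on them and a
unit `π` with `v (π) = exp (-1)` and `v (σ π) = 1` for all nontrivial `σ`. -/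
theorem exists_val (Z : Finset Lˣ) :
    ∃ (v : Valuation L ℤᵐ⁰) (π : Lˣ), (∀ z ∈ Z, v (z : L) = 1) ∧
      v (π : L) = WithZero.exp (-1 : ℤ) ∧
      ∀ σ : L ≃ₐ[F₀] L, σ ≠ 1 → v (σ (π : L)) = 1 := by
  classical
  obtain ⟨θ, hθ⟩ := exists_theta (F₀ := F₀) (L := L)
  choose S hS using fun σ : L ≃ₐ[F₀] L => exists_coe_eq σ θ
  set D : 𝓞 L := ∏ σ ∈ (Finset.univ.erase (1 : L ≃ₐ[F₀] L)), (θ - S σ) with hD
  have hD0 : D ≠ 0 := by
    rw [hD, Finset.prod_ne_zero_iff]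
    intro σ hσ h0
    apply hθ σ (Finset.ne_of_mem_erase hσ)
    rw [← hS σ, ← sub_eq_zero.mp h0]
  have hfr : ∀ z : Lˣ, ∃ a b : 𝓞 L, a ≠ 0 ∧ b ≠ 0 ∧ (z : L) = (a : L) / (b : L) := by
    intro z
    obtain ⟨a, b, hb, hab⟩ := IsFractionRing.div_surjective (A := 𝓞 L) (z : L)
    refine ⟨a, b, ?_, nonZeroDivisors.ne_zero hb, hab.symm⟩
    rintro rfl
    rw [map_zero, zero_div] at hab
    exact z.ne_zero hab.symm
  choose a b ha hb hab using hfr
  set B : 𝓞 L := D * ∏ z ∈ Z, (a z * b z) with hB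
  have hB0 : B ≠ 0 := by
    refine mul_ne_zero hD0 (Finset.prod_ne_zero_iff.mpr fun z _ => mul_ne_zero (ha z) (hb z))
  obtain ⟨P, n, hBP, hn⟩ := exists_prime B θ hB0
  set v := P.valuation L with hv
  set q : 𝓞 L := θ - n with hq
  have hint : ∀ x : 𝓞 L, v (x : L) ≤ 1 := fun x => P.valuation_le_one x
  have hintσ : ∀ (σ : L ≃ₐ[F₀] L) (x : 𝓞 L), v (σ (x : L)) ≤ 1 := by
    intro σ x
    obtain ⟨y, hy⟩ := exists_coe_eq σ x
    rw [← hy]
    exact hint y
  have hunit : ∀ x : 𝓞 L, x ∉ P.asIdeal → v (x : L) = 1 := fun x hx =>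
    (P.valuation_eq_one_iff_notMem (K := L)).mpr hx
  have hvq : v (q : L) < 1 := (P.valuation_lt_one_iff_mem (K := L) q).mpr hn
  have hBZ : ∀ z ∈ Z, a z * b z ∉ P.asIdeal := by
    intro z hz h
    apply hBP
    rw [hB]
    exact P.asIdeal.mul_mem_left _ (P.asIdeal.mem_of_dvd (Finset.dvd_prod_of_mem _ hz) h)
  have hqσ : ∀ σ : L ≃ₐ[F₀] L, σ ≠ 1 → v (σ (q : L)) = 1 := by
    intro σ hσ
    have h1 : ((S σ - (n : 𝓞 L) : 𝓞 L) : L) = σ (q : L) := by
      have h2 : ((S σ - (n : 𝓞 L) : 𝓞 L) : L) = (S σ : L) - (n : L) :=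
        (map_sub (algebraMap (𝓞 L) L) (S σ) (n : 𝓞 L)).trans (by rw [map_intCast])
      have h3 : (q : L) = (θ : L) - (n : L) :=
        (map_sub (algebraMap (𝓞 L) L) θ (n : 𝓞 L)).trans (by rw [map_intCast])
      rw [h2, h3, map_sub, map_intCast, hS]
    rw [← h1]
    apply hunit
    intro h
    apply hBP
    rw [hB]
    refine P.asIdeal.mul_mem_right _ ?_
    have h4 : θ - S σ ∈ P.asIdeal := by
      have h5 : θ - S σ = q - (S σ - (n : 𝓞 L)) := by rw [hq]; ring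
      rw [h5]
      exact P.asIdeal.sub_mem hn h
    exact P.asIdeal.mem_of_dvd
      (Finset.dvd_prod_of_mem (fun σ => θ - S σ) (Finset.mem_erase.mpr ⟨hσ, Finset.mem_univ σ⟩)) h4
  -- uniformizer
  obtain ⟨ϖ, hϖ⟩ := P.intValuation_exists_uniformizer
  have hvϖ : v (ϖ : L) = WithZero.exp (-1 : ℤ) := by
    rw [hv, ← hϖ]
    exact P.valuation_of_algebraMap ϖ
  set π₁ : L := (ϖ : L) * ∏ τ ∈ (Finset.univ.erase (1 : L ≃ₐ[F₀] L)), τ (q : L) with hπ₁
  have hvπ₁ : v π₁ = WithZero.exp (-1 : ℤ) := by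
    rw [hπ₁, map_mul, hvϖ, map_prod, Finset.prod_eq_one, mul_one]
    intro τ hτ
    exact hqσ τ (Finset.ne_of_mem_erase hτ)
  have hq2 : v ((q : L) ^ 2) < WithZero.exp (-1 : ℤ) := by
    rw [map_pow]
    rcases eq_or_ne (v (q : L)) 0 with h0 | h0
    · rw [h0, zero_pow two_ne_zero]
      exact WithZero.exp_pos
    · have h1 : WithZero.log (v (q : L)) < 0 := by
        rw [WithZero.log_lt_iff_lt_exp h0, WithZero.exp_zero]
        exact hvq
      have h2 : v (q : L) ^ 2 = WithZero.exp (2 * WithZero.log (v (q : L))) := by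
        conv_lhs => rw [← WithZero.exp_log h0]
        rw [← WithZero.exp_nsmul]
        simp
      rw [h2, WithZero.exp_lt_exp]
      omega
  have hvπ : v (π₁ + (q : L) ^ 2) = WithZero.exp (-1 : ℤ) := by
    rw [Valuation.map_add_eq_of_lt_left v (by rw [hvπ₁]; exact hq2), hvπ₁]
  have hπ0 : π₁ + (q : L) ^ 2 ≠ 0 := by
    intro h0
    rw [h0, map_zero] at hvπ
    exact WithZero.exp_ne_zero hvπ.symm
  refine ⟨v, Units.mk0 _ hπ0, ?_, ?_, ?_⟩
  · intro z hz
    rw [hab z, map_div₀, hunit, hunit, div_one]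
    · exact fun h => hBZ z hz (P.asIdeal.mul_mem_left _ h)
    · exact fun h => hBZ z hz (P.asIdeal.mul_mem_right _ h)
  · rw [Units.val_mk0, hvπ]
  · intro σ hσ
    have h1 : σ ((Units.mk0 _ hπ0 : Lˣ) : L) = σ π₁ + (σ (q : L)) ^ 2 := by
      rw [Units.val_mk0, map_add, map_pow]
    have h2 : v ((σ (q : L)) ^ 2) = 1 := by rw [map_pow, hqσ σ hσ, one_pow]
    have h3 : v (σ π₁) < 1 := by
      rw [hπ₁, map_mul, map_mul, map_prod, map_prod]
      have hmem : σ⁻¹ ∈ Finset.univ.erase (1 : L ≃ₐ[F₀] L) := by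
        rw [Finset.mem_erase]
        exact ⟨fun h => hσ (inv_eq_one.mp h), Finset.mem_univ _⟩
      rw [← Finset.mul_prod_erase _ _ hmem]
      have h4 : σ (σ⁻¹ (q : L)) = (q : L) := AlgEquiv.apply_symm_apply σ _
      rw [h4]
      have h5 : ∏ x ∈ (Finset.univ.erase (1 : L ≃ₐ[F₀] L)).erase σ⁻¹, v (σ (x (q : L))) ≤ 1 := by
        refine Finset.prod_le_one' fun τ _ => ?_
        exact hintσ (σ * τ) q
      calc v (σ (ϖ : L)) * (v (q : L) *
            ∏ x ∈ (Finset.univ.erase (1 : L ≃ₐ[F₀] L)).erase σ⁻¹, v (σ (x (q : L))))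
          ≤ 1 * (v (q : L) * 1) := mul_le_mul' (hintσ σ ϖ) (mul_le_mul' le_rfl h5)
        _ = v (q : L) := by rw [one_mul, mul_one]
        _ < 1 := hvq
    rw [h1, Valuation.map_add_eq_of_lt_right v (by rw [h2]; exact h3), h2]

end Val

section Resid

variable {L : Type*} [Field L]

/-- The residue modulo `p` of a discrete valuation. -/
noncomputable def resid (p : ℕ) (w : Valuation L ℤᵐ⁰) : Lˣ →* Multiplicative (ZMod p) where
  toFun u := Multiplicative.ofAdd ((WithZero.log (w u) : ℤ) : ZMod p)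
  map_one' := by simp
  map_mul' a b := by
    have ha : w (a : L) ≠ 0 := (Valuation.ne_zero_iff w).mpr a.ne_zero
    have hb : w (b : L) ≠ 0 := (Valuation.ne_zero_iff w).mpr b.ne_zero
    rw [Units.val_mul, map_mul, WithZero.log_mul ha hb, Int.cast_add, ofAdd_add]

lemma resid_apply (p : ℕ) (w : Valuation L ℤᵐ⁰) (u : Lˣ) :
    resid p w u = Multiplicative.ofAdd ((WithZero.log (w u) : ℤ) : ZMod p) := rfl

lemma resid_eq_one (p : ℕ) (w : Valuation L ℤᵐ⁰) (u : Lˣ) (h : w (u : L) = 1) :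
    resid p w u = 1 := by
  rw [resid_apply, h, WithZero.log_one, Int.cast_zero, ofAdd_zero]

end Resid

section Pigeon

variable {F₀ L : Type*} [Field F₀] [Field L] [NumberField L] [Algebra F₀ L]
  [FiniteDimensional F₀ L]

/-- Characters with an element in a given subgroup of finite index. -/
theorem exists_char_mem (p : ℕ) [hp : Fact p.Prime] (H : Subgroup Lˣ) [H.FiniteIndex]
    (Z : Finset Lˣ) :
    ∃ (χ : Lˣ →* Multiplicative (ZMod p)) (g : Lˣ), g ∈ H ∧ (∀ z ∈ Z, χ z = 1) ∧ χ g ≠ 1 ∧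
      ∀ σ : L ≃ₐ[F₀] L, σ ≠ 1 → χ (Units.map (σ : L →* L) g) = 1 := by
  classical
  have key := fun Z : Finset Lˣ => exists_val (F₀ := F₀) (L := L) Z
  choose V π h1 h2 h3 using key
  set X : Finset Lˣ → (Lˣ →* Multiplicative (ZMod p)) := fun Z => resid p (V Z) with hX
  have hX1 : ∀ Z, ∀ z ∈ Z, X Z z = 1 := fun Z z hz => resid_eq_one p _ z (h1 Z z hz)
  have hX2 : ∀ Z, X Z (π Z) ≠ 1 := by
    intro Z h
    have e1 : Multiplicative.ofAdd ((WithZero.log (V Z (π Z)) : ℤ) : ZMod p) = 1 := h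
    rw [h2, WithZero.log_exp, ofAdd_eq_one, Int.cast_neg, Int.cast_one, neg_eq_zero] at e1
    exact one_ne_zero e1
  have hX3 : ∀ Z, ∀ σ : L ≃ₐ[F₀] L, σ ≠ 1 → X Z (Units.map (σ : L →* L) (π Z)) = 1 :=
    fun Z σ hσ => resid_eq_one p _ _ (h3 Z σ hσ)
  set step : Finset Lˣ → Finset Lˣ := fun Z' =>
    Z' ∪ (Finset.univ : Finset (L ≃ₐ[F₀] L)).image
      (fun σ : L ≃ₐ[F₀] L => Units.map (σ : L →* L) (π Z'))
    with hstep
  set Zs : ℕ → Finset Lˣ := fun n => step^[n] Z with hZs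
  have hsucc : ∀ n, Zs (n + 1) = step (Zs n) := fun n => Function.iterate_succ_apply' step n Z
  have hmono1 : ∀ n, Zs n ⊆ Zs (n + 1) := by
    intro n
    rw [hsucc, hstep]
    exact Finset.subset_union_left
  have hmono : Monotone Zs := monotone_nat_of_le_succ hmono1
  have hp : ∀ j i, j < i → ∀ σ : L ≃ₐ[F₀] L, Units.map (σ : L →* L) (π (Zs j)) ∈ Zs i := by
    intro j i hji σ
    have h4 : Units.map (σ : L →* L) (π (Zs j)) ∈ Zs (j + 1) := by
      rw [hsucc, hstep]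
      exact Finset.mem_union_right _ (Finset.mem_image_of_mem _ (Finset.mem_univ σ))
    exact hmono (Nat.succ_le_of_lt hji) h4
  obtain ⟨i, j, hij, heq⟩ : ∃ i j : ℕ, j < i ∧
      (QuotientGroup.mk (π (Zs j)) : Lˣ ⧸ H) = QuotientGroup.mk (π (Zs i)) := by
    obtain ⟨a, b, hab, h⟩ := Finite.exists_ne_map_eq_of_infinite
      (fun n : ℕ => (QuotientGroup.mk (π (Zs n)) : Lˣ ⧸ H))
    rcases lt_or_gt_of_ne hab with h' | h'
    · exact ⟨b, a, h', h⟩
    · exact ⟨a, b, h', h.symm⟩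
  refine ⟨X (Zs i), (π (Zs j))⁻¹ * π (Zs i), QuotientGroup.eq.mp heq, ?_, ?_, ?_⟩
  · intro z hz
    exact hX1 _ z (hmono (Nat.zero_le i) hz)
  · have h4 : X (Zs i) (π (Zs j)) = 1 := by
      have h5 := hX1 (Zs i) _ (hp j i hij 1)
      have h6 : Units.map ((1 : L ≃ₐ[F₀] L) : L →* L) (π (Zs j)) = π (Zs j) := by
        ext
        rfl
      rwa [h6] at h5
    rw [map_mul, map_inv, h4, inv_one, one_mul]
    exact hX2 _
  · intro σ hσ
    rw [map_mul, map_mul, map_inv, map_inv, hX1 (Zs i) _ (hp j i hij σ), inv_one, one_mul,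
      hX3 _ σ hσ]

end Pigeon

end Pool.Agent.MPab1e31.Se
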