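import Pool.Agent.MPab1e31Se.Pt

/-!
# Classes of points of superelliptic curves
-/

open Polynomial

namespace Pool.Agent.MPab1e31.Se

open Pool.Agent.MPab1e31

section Class

variable {Ω : Type*} [Field Ω] (F : (Polynomial Ω)[X]) [IsDomain (AdjoinRoot F)]

theorem ptJ_mem {n : ℕ} (hn : n ≠ 0) {g : Polynomial Ω} (hF : F = SF n g) {ζ : Ω}
    (hζ : IsPrimitiveRoot ζ n) {t s : Ω} (hs : s ^ n = g.eval t) (hs0 : s ≠ 0) :
    ptJ F t s ∈ InvIdeals (AdjoinRoot F) := by
  subst hF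
  have h1 := prod_ptJ hn g hζ hs hs0
  rw [← Finset.mul_prod_erase _ _ (Finset.mem_range.mpr (Nat.pos_of_ne_zero hn)), pow_zero,
    one_mul] at h1
  exact ⟨_, _, of_ne_zero hn g (X_sub_C_ne_zero t), h1⟩

open Classical in
/-- The class of the point `(t, s)`. -/
noncomputable def pcl (t s : Ω) : Additive (ICl (AdjoinRoot F)) :=
  if h : ptJ F t s ∈ InvIdeals (AdjoinRoot F) then Additive.ofMul (cls (ptJ F t s) h) else 0

lemma pcl_pos {t s : Ω} (h : ptJ F t s ∈ InvIdeals (AdjoinRoot F)) :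
    pcl F t s = Additive.ofMul (cls (ptJ F t s) h) := dif_pos h

lemma pcl_nontorsion {t s : Ω} (h : ptJ F t s ∈ InvIdeals (AdjoinRoot F))
    (hn : ∀ n : ℕ, n ≠ 0 → ¬ (ptJ F t s ^ n).IsPrincipal) (n : ℤ) (hn0 : n ≠ 0) :
    n • pcl F t s ≠ 0 := by
  have key : ∀ n : ℕ, n ≠ 0 → n • pcl F t s ≠ 0 := by
    intro n hn0 h1
    rw [pcl_pos F h, ← ofMul_pow, ← cls_pow, ← ofMul_one] at h1
    have h2 := Additive.ofMul.injective h1
    rw [cls_eq_one] at h2
    obtain ⟨z, -, hz⟩ := h2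
    exact hn n hn0 ⟨z, hz⟩
  rcases Int.natAbs_eq n with h1 | h1
  · rw [h1, natCast_zsmul]
    exact key _ (Int.natAbs_ne_zero.mpr hn0)
  · rw [h1, neg_smul, natCast_zsmul, neg_ne_zero]
    exact key _ (Int.natAbs_ne_zero.mpr hn0)

/-- Torsion of the difference of two conjugate points implies torsion. -/
theorem tors_red {n : ℕ} (hn : n ≠ 0) {g : Polynomial Ω} (hF : F = SF n g) {ζ : Ω}
    (hζ : IsPrimitiveRoot ζ n) {t s : Ω} (hs : s ^ n = g.eval t) (hs0 : s ≠ 0) (m : ℤ)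
    (h : m • (pcl F t s - pcl F t (ζ * s)) = 0) : ((n : ℤ) * m) • pcl F t s = 0 := by
  subst hF
  have hζ0 : ζ ≠ 0 := hζ.ne_zero hn
  have hζn : (ζ⁻¹) ^ n = 1 := by rw [inv_pow, hζ.pow_eq_one, inv_one]
  have hsi : ∀ i : ℕ, (ζ ^ i * s) ^ n = g.eval t := by
    intro i
    rw [mul_pow, ← pow_mul, mul_comm i n, pow_mul, hζ.pow_eq_one, one_pow, one_mul, hs]
  have hmem : ∀ i : ℕ, ptJ (SF n g) t (ζ ^ i * s) ∈ InvIdeals (AdjoinRoot (SF n g)) := fun i =>
    ptJ_mem (SF n g) hn rfl hζ (hsi i) (mul_ne_zero (pow_ne_zero _ hζ0) hs0)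
  set c : ℕ → Additive (ICl (AdjoinRoot (SF n g))) := fun i => pcl (SF n g) t (ζ ^ i * s) with hc
  have hinj := tau_injective n g ζ⁻¹ hζn (inv_ne_zero hζ0)
  set A : Additive (ICl (AdjoinRoot (SF n g))) →+ Additive (ICl (AdjoinRoot (SF n g))) :=
    (clMap (tau n g ζ⁻¹ hζn) hinj).toAdditive with hA
  have hAc : ∀ i, A (c i) = c (i + 1) := by
    intro i
    have e1 : c i = Additive.ofMul (cls _ (hmem i)) := pcl_pos _ (hmem i)
    have e2 : c (i + 1) = Additive.ofMul (cls _ (hmem (i + 1))) := pcl_pos _ (hmem (i + 1))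
    rw [e1, e2]
    show Additive.ofMul (clMap (tau n g ζ⁻¹ hζn) hinj (cls _ _)) = _
    rw [clMap_cls]
    congr 1
    have e3 : ζ ^ i * s = ζ⁻¹ * (ζ ^ (i + 1) * s) := by
      rw [pow_succ]
      field_simp
    have e4 : (ptJ (SF n g) t (ζ ^ i * s)).map (tau n g ζ⁻¹ hζn) =
        ptJ (SF n g) t (ζ ^ (i + 1) * s) := by
      rw [e3]
      exact map_tau_ptJ n g ζ⁻¹ hζn (inv_ne_zero hζ0) t _
    congr 1
  have h0 : c 0 = pcl (SF n g) t s := by
    rw [hc]
    show pcl (SF n g) t (ζ ^ 0 * s) = _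
    rw [pow_zero, one_mul]
  have h1 : c 1 = pcl (SF n g) t (ζ * s) := by
    rw [hc]
    show pcl (SF n g) t (ζ ^ 1 * s) = _
    rw [pow_one]
  have hrel : ∀ i, m • (c i - c (i + 1)) = 0 := by
    intro i
    induction i with
    | zero =>
      rw [zero_add, h0, h1]
      exact h
    | succ i ih =>
      have e1 := congrArg A ih
      rw [map_zsmul, map_sub, hAc, hAc, map_zero] at e1
      exact e1
  have hall : ∀ i, m • c i = m • c 0 := by
    intro i
    induction i with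
    | zero => rfl
    | succ i ih =>
      have e1 := hrel i
      rw [smul_sub, ih, sub_eq_zero] at e1
      exact e1.symm
  have hsum : ∑ i ∈ Finset.range n, c i = 0 := by
    have e1 : ∀ i, c i = Additive.ofMul (cls _ (hmem i)) := fun i => pcl_pos _ (hmem i)
    have e2 := cls_prod (Finset.range n) (fun i => ptJ (SF n g) t (ζ ^ i * s)) hmem
    have e3 : ∏ i ∈ Finset.range n, cls (ptJ (SF n g) t (ζ ^ i * s)) (hmem i) = 1 := by
      rw [← e2, cls_eq_one]
      exact ⟨_, of_ne_zero hn g (X_sub_C_ne_zero t), prod_ptJ hn g hζ hs hs0⟩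
    have e4 := congrArg Additive.ofMul e3
    rw [ofMul_prod, ofMul_one] at e4
    rw [← e4]
    exact Finset.sum_congr rfl fun i _ => e1 i
  have e1 : ∑ i ∈ Finset.range n, m • c i = 0 := by
    rw [← Finset.smul_sum, hsum, smul_zero]
  rw [Finset.sum_congr rfl fun i _ => hall i, Finset.sum_const, Finset.card_range, h0,
    ← natCast_zsmul, smul_smul] at e1
  exact e1

/-- Differences of conjugate points are non-torsion. -/
theorem pcl_sub_nontorsion {n : ℕ} [hn : Fact n.Prime] {g : Polynomial Ω} (hF : F = SF n g)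
    {t s s' : Ω} (hs : s ^ n = g.eval t) (hs0 : s ≠ 0) (hs' : s' ^ n = s ^ n) (hne : s' ≠ s)
    (hnt : ∀ n : ℕ, n ≠ 0 → ¬ (ptJ F t s ^ n).IsPrincipal) (m : ℤ) (hm : m ≠ 0) :
    m • (pcl F t s - pcl F t s') ≠ 0 := by
  intro h
  have hn0 : n ≠ 0 := hn.out.ne_zero
  set ζ := s' / s with hζd
  have hζp : ζ ^ n = 1 := by
    rw [hζd, div_pow, hs', div_self (pow_ne_zero _ hs0)]
  have hζ1 : ζ ≠ 1 := by
    intro h1
    apply hne
    rw [hζd, div_eq_one_iff_eq hs0] at h1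
    exact h1
  have hζ : IsPrimitiveRoot ζ n := by
    rw [IsPrimitiveRoot.iff_orderOf]
    exact orderOf_eq_prime hζp hζ1
  have e1 : s' = ζ * s := by
    rw [hζd]
    field_simp
  rw [e1] at h
  have h2 := tors_red F hn0 hF hζ hs hs0 m h
  exact pcl_nontorsion F (ptJ_mem F hn0 hF hζ hs hs0) hnt _
    (mul_ne_zero (by exact_mod_cast hn0) hm) h2

end Class

section Rho

variable {F₀ Ω : Type*} [Field F₀] [Field Ω] [Algebra F₀ Ω] (F : F₀[X][X]) [hF : Fact F.Monic]
  [IsDomain (RO Ω F)]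

/-- The action of automorphisms on ideal classes. -/
noncomputable def rho : (Ω ≃ₐ[F₀] Ω) →* AddMonoid.End (Additive (ICl (RO Ω F))) where
  toFun γ := (clMap (act F γ) (act_injective F γ)).toAdditive
  map_one' := by
    refine AddMonoidHom.ext fun c => ?_
    show Additive.ofMul (clMap (act F 1) (act_injective F 1) c.toMul) = c
    have h2 : ∀ c : ICl (RO Ω F), clMap (act F (1 : Ω ≃ₐ[F₀] Ω)) (act_injective F 1) c = c := by
      intro c
      obtain ⟨I, hI, rfl⟩ := cls_surj c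
      rw [clMap_cls]
      congr 1
      rw [act_one]
      exact Ideal.map_id I
    rw [h2]
    rfl
  map_mul' γ γ' := by
    refine AddMonoidHom.ext fun c => ?_
    show Additive.ofMul (clMap (act F (γ * γ')) (act_injective F _) c.toMul) =
      Additive.ofMul (clMap (act F γ) (act_injective F γ)
        (clMap (act F γ') (act_injective F γ') c.toMul))
    congr 1
    generalize c.toMul = d
    obtain ⟨I, hI, rfl⟩ := cls_surj d
    rw [clMap_cls, clMap_cls, clMap_cls]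
    congr 1
    rw [act_mul, Ideal.map_map]

lemma rho_apply (γ : Ω ≃ₐ[F₀] Ω) (c : Additive (ICl (RO Ω F))) :
    rho F γ c = Additive.ofMul (clMap (act F γ) (act_injective F γ) c.toMul) := rfl

lemma rho_pcl (γ : Ω ≃ₐ[F₀] Ω) (t s : Ω) :
    rho F γ (pcl (cm (algebraMap F₀ Ω) F) t s) =
      pcl (cm (algebraMap F₀ Ω) F) (γ t) (γ s) := by
  have hmap : ∀ (γ : Ω ≃ₐ[F₀] Ω) (t s : Ω), (ptJ (cm (algebraMap F₀ Ω) F) t s).map (act F γ) =
      ptJ (cm (algebraMap F₀ Ω) F) (γ t) (γ s) := fun γ t s => map_rmap_ptJ _ _ t s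
  by_cases h : ptJ (cm (algebraMap F₀ Ω) F) t s ∈ InvIdeals (RO Ω F)
  · have h' : ptJ (cm (algebraMap F₀ Ω) F) (γ t) (γ s) ∈ InvIdeals (RO Ω F) := by
      rw [← hmap]
      exact map_mem_invIdeals _ (act_injective F γ) h
    rw [pcl_pos _ h, pcl_pos _ h', rho_apply]
    congr 1
    show clMap (act F γ) (act_injective F γ) (cls _ _) = _
    rw [clMap_cls]
    congr 1
    exact hmap γ t s
  · have h' : ¬ ptJ (cm (algebraMap F₀ Ω) F) (γ t) (γ s) ∈ InvIdeals (RO Ω F) := by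
      intro h1
      apply h
      have h2 := map_mem_invIdeals _ (act_injective F γ⁻¹) h1
      rw [hmap] at h2
      have h3 : ∀ x : Ω, γ⁻¹ (γ x) = x := fun x => AlgEquiv.symm_apply_apply γ x
      rwa [h3, h3] at h2
    rw [pcl, pcl, dif_neg h, dif_neg h', map_zero]

end Rho

section Fixed

variable {K Ω : Type*} [Field K] [Field Ω] [Algebra K Ω] [IsGalois K Ω]

/-- A positive power of a Galois invariant ideal class comes from the base. -/
theorem exists_pow_of_fixed' (F : K[X][X]) [Fact F.Monic] [IsDomain (AdjoinRoot F)]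
    (G : (Polynomial Ω)[X]) (hG : cm (algebraMap K Ω) F = G) [IsDomain (AdjoinRoot G)]
    (hGm : G.Monic) (c : ICl (AdjoinRoot G))
    (hc : ∀ (γ : Ω ≃ₐ[K] Ω) (h : cm (γ : Ω →+* Ω) G = G),
      clMap (rmap (γ : Ω →+* Ω) h) (rmap_injective _ _ hGm) c = c) :
    ∃ n : ℕ, 0 < n ∧ ∃ d : ICl (AdjoinRoot F),
      clMap (rmap (algebraMap K Ω) hG) (rmap_injective _ _ (Fact.out)) d = c ^ n := by
  subst hG
  exact exists_pow_of_fixed F c fun γ => hc γ _

end Fixed

end Pool.Agent.MPab1e31.Se
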