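import Pool.Agent.MPab1e31Se.Nrm

/-!
The derivation `p f d/dx` on the coordinate ring of `y ^ p = f (x)`.
-/

namespace Pool.Agent.MPab1e31.Se

open Polynomial Pool.Agent.MPab1e31.Hyp

section Poly

variable {E : Type*} [Field E]

/-- Coefficientwise derivative. -/
noncomputable def cd (q : E[X][X]) : E[X][X] := ∑ n ∈ q.support, monomial n (derivative (q.coeff n))

lemma coeff_cd (q : E[X][X]) (n : ℕ) : (cd q).coeff n = derivative (q.coeff n) := by
  rw [cd, finsetSum_coeff]
  simp only [coeff_monomial]
  rw [Finset.sum_ite_eq' q.support n]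
  split_ifs with h
  · rfl
  · rw [notMem_support_iff.mp h, derivative_zero]

lemma cd_add (q r : E[X][X]) : cd (q + r) = cd q + cd r := by
  refine Polynomial.ext fun n => ?_
  rw [coeff_cd, coeff_add, coeff_add, coeff_cd, coeff_cd, derivative_add]

lemma cd_mul (q r : E[X][X]) : cd (q * r) = cd q * r + q * cd r := by
  refine Polynomial.ext fun n => ?_
  rw [coeff_cd, coeff_add, coeff_mul, coeff_mul, coeff_mul, derivative_sum,
    ← Finset.sum_add_distrib]
  refine Finset.sum_congr rfl fun x _ => ?_
  rw [derivative_mul, coeff_cd, coeff_cd]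

lemma cd_C (a : E[X]) : cd (C a) = C (derivative a) := by
  refine Polynomial.ext fun n => ?_
  rw [coeff_cd, coeff_C, coeff_C]
  split_ifs
  · rfl
  · exact derivative_zero

lemma cd_X_pow (m : ℕ) : cd (X ^ m : E[X][X]) = 0 := by
  refine Polynomial.ext fun n => ?_
  rw [coeff_cd, coeff_X_pow, coeff_zero]
  split_ifs
  · exact derivative_one
  · exact derivative_zero

variable (p : ℕ) (f : E[X])

/-- The derivation on polynomials in two variables. -/
noncomputable def dp (q : E[X][X]) : E[X][X] :=
  C (C (p : E) * f) * cd q + C (derivative f) * (X * derivative q)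

lemma dp_add (q r : E[X][X]) : dp p f (q + r) = dp p f q + dp p f r := by
  rw [dp, cd_add, derivative_add, dp, dp]; ring

lemma dp_mul (q r : E[X][X]) : dp p f (q * r) = dp p f q * r + q * dp p f r := by
  rw [dp, cd_mul, derivative_mul, dp, dp]; ring

lemma coeff_dp (q : E[X][X]) (i : ℕ) : (dp p f q).coeff i = TT p i f (q.coeff i) := by
  rw [dp, coeff_add, coeff_C_mul, coeff_C_mul, coeff_cd, TT]
  congr 1
  rcases Nat.eq_zero_or_pos i with rfl | hi
  · simp
  · obtain ⟨j, rfl⟩ : ∃ j, i = j + 1 := ⟨i - 1, by omega⟩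
    rw [coeff_X_mul, coeff_derivative]
    have h1 : (C ((j + 1 : ℕ) : E) : E[X]) = (j : E[X]) + 1 := by
      push_cast
      rw [C_add, C_1, C_eq_natCast]
    rw [h1]; ring

lemma dp_SF (hp : p ≠ 0) : dp p f (SF p f) = C (C (p : E) * derivative f) * SF p f := by
  have h1 : cd (SF p f) = -C (derivative f) := by
    have e1 : SF p f = X ^ p + C (-f) := by rw [SF, C_neg]; ring
    rw [e1, cd_add, cd_X_pow, cd_C, derivative_neg, C_neg, zero_add]
  have h2 : X * derivative (SF p f) = C (C (p : E)) * X ^ p := by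
    obtain ⟨k, rfl⟩ : ∃ k, p = k + 1 := ⟨p - 1, by omega⟩
    rw [SF, derivative_sub, derivative_C, sub_zero, derivative_X_pow, Nat.add_sub_cancel]
    have e1 : (C ((k + 1 : ℕ) : E[X]) : E[X][X]) = C (C ((k + 1 : ℕ) : E)) := by
      simp only [map_natCast]
    rw [e1]; ring
  rw [dp, h1, h2, SF, C_mul, C_mul]; ring

end Poly

section Ring

variable {E : Type*} [Field E] {p : ℕ} [hp : Fact p.Prime] (f : E[X])

/-- The derivation `p f d/dx`. -/
noncomputable def dl (z : AdjoinRoot (SF p f)) : AdjoinRoot (SF p f) :=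
  AdjoinRoot.mk (SF p f) (dp p f (red f z))

lemma dl_mk (q : E[X][X]) : dl f (AdjoinRoot.mk (SF p f) q) = AdjoinRoot.mk (SF p f) (dp p f q) := by
  have h1 : q = q %ₘ SF p f + SF p f * (q /ₘ SF p f) := (modByMonic_add_div q (SF p f)).symm
  rw [dl, red_mk]
  have h2 : AdjoinRoot.mk (SF p f) (dp p f (SF p f * (q /ₘ SF p f))) = 0 := by
    rw [dp_mul, dp_SF p f hp.out.ne_zero]
    simp only [map_add, map_mul, AdjoinRoot.mk_self, mul_zero, zero_mul, add_zero]
  conv_rhs => rw [h1, dp_add, map_add, h2, add_zero]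

lemma dl_add (z w : AdjoinRoot (SF p f)) : dl f (z + w) = dl f z + dl f w := by
  rw [dl, red_add, dp_add, map_add]
  rfl

lemma dl_mul (z w : AdjoinRoot (SF p f)) : dl f (z * w) = dl f z * w + z * dl f w := by
  obtain ⟨q, rfl⟩ := AdjoinRoot.mk_surjective z
  obtain ⟨r, rfl⟩ := AdjoinRoot.mk_surjective w
  rw [← map_mul, dl_mk, dl_mk, dl_mk, dp_mul, map_add, map_mul, map_mul]

lemma dl_of (a : E[X]) : dl f (AdjoinRoot.of (SF p f) a) =
    AdjoinRoot.of (SF p f) (C (p : E) * f * derivative a) := by
  have h1 : dl f (AdjoinRoot.mk (SF p f) (C a)) = AdjoinRoot.mk (SF p f)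
      (C (C (p : E) * f * derivative a)) := by
    rw [dl_mk]
    congr 1
    rw [dp, cd_C, derivative_C, mul_zero, mul_zero, add_zero, ← C_mul]
  exact h1

lemma dl_one : dl f (1 : AdjoinRoot (SF p f)) = 0 := by
  have h1 := dl_of (p := p) f 1
  rw [map_one, derivative_one, mul_zero, map_zero] at h1
  exact h1

lemma dl_zero : dl f (0 : AdjoinRoot (SF p f)) = 0 := by
  have h1 := dl_of (p := p) f 0
  rw [map_zero, derivative_zero, mul_zero, map_zero] at h1
  exact h1

lemma dl_pow (z : AdjoinRoot (SF p f)) (m : ℕ) :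
    dl f (z ^ (m + 1)) = (m + 1 : ℕ) * z ^ m * dl f z := by
  induction m with
  | zero => simp
  | succ m ih =>
    rw [pow_succ z (m + 1), dl_mul, ih]
    push_cast
    ring

lemma red_dl (z : AdjoinRoot (SF p f)) : red f (dl f z) = dp p f (red f z) := by
  rw [dl, red_mk_of_lt]
  have h1 : (dp p f (red f z)).natDegree ≤ p - 1 := by
    rw [natDegree_le_iff_coeff_eq_zero]
    intro N hN
    rw [coeff_dp, red_coeff_eq_zero f z (by omega), TT, derivative_zero, mul_zero, mul_zero,
      add_zero]
  have := hp.out.pos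
  omega

lemma coeff_red_dl (z : AdjoinRoot (SF p f)) (i : ℕ) :
    (red f (dl f z)).coeff i = TT p i f ((red f z).coeff i) := by
  rw [red_dl, coeff_dp]

lemma natDegree_TT_le (i : ℕ) (hf : f.natDegree ≠ 0) (a : E[X]) :
    (TT p i f a).natDegree + 1 ≤ a.natDegree + f.natDegree ∨ TT p i f a = 0 := by
  by_cases h0 : TT p i f a = 0
  · exact Or.inr h0
  left
  have h1 : (C (p : E) * f * derivative a).natDegree + 1 ≤ a.natDegree + f.natDegree ∨
      C (p : E) * f * derivative a = 0 := by
    rcases Nat.eq_zero_or_pos a.natDegree with ha | ha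
    · right
      rw [eq_C_of_natDegree_eq_zero ha, derivative_C, mul_zero]
    · left
      have e1 := natDegree_derivative_le a
      have e2 := natDegree_mul_le (p := C (p : E) * f) (q := derivative a)
      have e3 := natDegree_C_mul_le (p : E) f
      omega
  have h2 : (C (i : E) * derivative f * a).natDegree + 1 ≤ a.natDegree + f.natDegree := by
    have e1 := natDegree_derivative_le f
    have e2 := natDegree_mul_le (p := C (i : E) * derivative f) (q := a)
    have e3 := natDegree_C_mul_le (i : E) (derivative f)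
    omega
  rcases h1 with h1 | h1
  · have h3 := natDegree_add_le (C (p : E) * f * derivative a) (C (i : E) * derivative f * a)
    rw [TT]
    omega
  · rw [TT, h1, zero_add]
    exact h2

/-- The degree of a derivative. -/
theorem natDegree_Psi_dl (hpd : ¬ p ∣ f.natDegree) (z : AdjoinRoot (SF p f)) :
    (Psi f (dl f z)).natDegree + p ≤ (Psi f z).natDegree + f.natDegree * p ∨ dl f z = 0 := by
  by_cases h0 : dl f z = 0
  · exact Or.inr h0
  left
  have hd0 : f.natDegree ≠ 0 := fun h => hpd (by rw [h]; exact dvd_zero p)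
  have key : ∀ i, (red f (dl f z)).coeff i ≠ 0 →
      ((red f (dl f z)).coeff i).natDegree * p + f.natDegree * i + p ≤
      (Psi f z).natDegree + f.natDegree * p := by
    intro i hi
    have hi' := hi
    rw [coeff_red_dl] at hi'
    have h1 : (red f z).coeff i ≠ 0 := by
      intro h2
      apply hi'
      rw [h2, TT, derivative_zero, mul_zero, mul_zero, add_zero]
    have hip : i < p := by
      by_contra hcon
      exact h1 (red_coeff_eq_zero f z (not_lt.mp hcon))
    have h2 := natDegree_le_theta hp.out hpd (natDegree_red_lt f z) hip h1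
    have h4 : (Psi f z).natDegree = (theta p f.natDegree (red f z)).natDegree := rfl
    rcases natDegree_TT_le (p := p) f i hd0 ((red f z).coeff i) with h3 | h3
    · rw [coeff_red_dl, h4]
      have h5 : ((TT p i f ((red f z).coeff i)).natDegree + 1) * p ≤
          (((red f z).coeff i).natDegree + f.natDegree) * p := Nat.mul_le_mul_right _ h3
      rw [add_mul, one_mul, add_mul] at h5
      omega
    · exact absurd h3 hi'
  have h1 : (Psi f (dl f z)).natDegree ≤ (Psi f z).natDegree + f.natDegree * p - p := by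
    refine natDegree_theta_le fun i hi => ?_
    have := key i hi
    omega
  have h2 : p ≤ (Psi f z).natDegree + f.natDegree * p := by
    have : 1 * p ≤ f.natDegree * p := Nat.mul_le_mul_right _ (Nat.pos_of_ne_zero hd0)
    omega
  omega

end Ring

end Pool.Agent.MPab1e31.Se
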