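import Pool.Agent.MPab1e31.QAlg
import Pool.Agent.MPab1e31.ICl

/-!
# Coordinate rings of plane curves `F (x, y) = 0`, `F` monic in `y`, and Galois descent
-/

open Polynomial

namespace Pool.Agent.MPab1e31.Se

open Pool.Agent.MPab1e31

section Map

variable {k k' k'' : Type*} [Field k] [Field k'] [Field k'']

/-- Coefficientwise map on polynomials in two variables. -/
noncomputable def cm (g : k →+* k') : k[X][X] →+* k'[X][X] := mapRingHom (mapRingHom g)

lemma cm_apply (g : k →+* k') (p : k[X][X]) : cm g p = p.map (mapRingHom g) := rfl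

lemma coeff_cm (g : k →+* k') (p : k[X][X]) (i : ℕ) :
    (cm g p).coeff i = (p.coeff i).map g := by
  rw [cm_apply, coeff_map]
  rfl

lemma cm_cm (g : k →+* k') (g' : k' →+* k'') (p : k[X][X]) :
    cm g' (cm g p) = cm (g'.comp g) p := by
  ext i j
  simp [coeff_cm]

lemma cm_injective (g : k →+* k') : Function.Injective (cm g) :=
  Polynomial.map_injective _ (Polynomial.map_injective g g.injective)

lemma cm_id (p : k[X][X]) : cm (RingHom.id k) p = p := by
  ext i j
  simp [coeff_cm]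

/-- The map on coordinate rings. -/
noncomputable def rmap (g : k →+* k') {F : k[X][X]} {F' : k'[X][X]} (h : cm g F = F') :
    AdjoinRoot F →+* AdjoinRoot F' :=
  AdjoinRoot.map (mapRingHom g) F F' (by rw [← h]; exact dvd_rfl)

variable (g : k →+* k') {F : k[X][X]} {F' : k'[X][X]} (h : cm g F = F')

lemma rmap_mk (p : k[X][X]) : rmap g h (AdjoinRoot.mk F p) = AdjoinRoot.mk F' (cm g p) := by
  rw [rmap, AdjoinRoot.map, AdjoinRoot.lift_mk, ← eval₂_map, ← cm_apply]
  exact AdjoinRoot.aeval_eq (cm g p)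

lemma rmap_rmap (g' : k' →+* k'') {F'' : k''[X][X]} (h' : cm g' F' = F'') (z : AdjoinRoot F) :
    rmap g' h' (rmap g h z) = rmap (g'.comp g) (by rw [← cm_cm, h, h']) z := by
  obtain ⟨p, rfl⟩ := AdjoinRoot.mk_surjective z
  rw [rmap_mk, rmap_mk, rmap_mk, cm_cm]

lemma rmap_injective (hF : F.Monic) : Function.Injective (rmap g h) := by
  rw [injective_iff_map_eq_zero]
  intro z hz
  obtain ⟨p, rfl⟩ := AdjoinRoot.mk_surjective z
  rw [rmap_mk, AdjoinRoot.mk_eq_zero] at hz
  have hF' : F'.Monic := by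
    rw [← h]
    exact hF.map _
  rw [AdjoinRoot.mk_eq_zero, ← modByMonic_eq_zero_iff_dvd hF]
  rw [← modByMonic_eq_zero_iff_dvd hF', ← h, cm_apply, cm_apply, ← map_modByMonic _ hF] at hz
  exact cm_injective g (hz.trans (map_zero (cm g)).symm)

end Map

section Descent

variable {K Ω : Type*} [Field K] [Field Ω] [Algebra K Ω]

/-- Coefficientwise linear map. -/
noncomputable def cw2 {M : Type*} [Field M] [Algebra K M] (π : M →ₗ[K] K) (p : M[X][X]) :
    K[X][X] :=
  ∑ n ∈ p.support, monomial n (cwl π (p.coeff n))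

lemma cwl_zero {M : Type*} [Field M] [Algebra K M] (π : M →ₗ[K] K) : cwl π 0 = 0 := by
  ext n
  simp [coeff_cwl]

lemma cwl_add {M : Type*} [Field M] [Algebra K M] (π : M →ₗ[K] K) (p q : M[X]) :
    cwl π (p + q) = cwl π p + cwl π q := by
  ext n
  simp [coeff_cwl]

lemma coeff_cw2 {M : Type*} [Field M] [Algebra K M] (π : M →ₗ[K] K) (p : M[X][X]) (n : ℕ) :
    (cw2 π p).coeff n = cwl π (p.coeff n) := by
  rw [cw2, finsetSum_coeff]
  simp only [coeff_monomial]
  rw [Finset.sum_ite_eq' p.support n]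
  split_ifs with h
  · rfl
  · rw [notMem_support_iff.mp h, cwl_zero]

lemma cm_aut (F : K[X][X]) (γ : Ω ≃ₐ[K] Ω) :
    cm (γ : Ω →+* Ω) (cm (algebraMap K Ω) F) = cm (algebraMap K Ω) F := by
  rw [cm_cm]
  congr 1
  congr 1
  ext x
  exact γ.commutes x

/-- The Galois action on the coordinate ring. -/
noncomputable def act (F : K[X][X]) (γ : Ω ≃ₐ[K] Ω) :
    AdjoinRoot (cm (algebraMap K Ω) F) →+* AdjoinRoot (cm (algebraMap K Ω) F) :=
  rmap (γ : Ω →+* Ω) (cm_aut F γ)

/-- The extension of scalars. -/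
noncomputable def ext (F : K[X][X]) : AdjoinRoot F →+* AdjoinRoot (cm (algebraMap K Ω) F) :=
  rmap (algebraMap K Ω) rfl

variable (F : K[X][X])

/-- Elements with coefficients in a finite Galois extension lie in the span of their traces. -/
lemma descent_aux {M : Type*} [Field M] [Algebra K M] [FiniteDimensional K M] [IsGalois K M]
    [Algebra M Ω] [IsScalarTower K M Ω] [Normal K Ω]
    (I : Ideal (AdjoinRoot (cm (algebraMap K Ω) F)))
    (hI : ∀ (γ : Ω ≃ₐ[K] Ω), ∀ z ∈ I, act F γ z ∈ I)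
    (p : M[X][X]) (hz : AdjoinRoot.mk (cm (algebraMap K Ω) F) (cm (algebraMap M Ω) p) ∈ I) :
    AdjoinRoot.mk (cm (algebraMap K Ω) F) (cm (algebraMap M Ω) p) ∈
      (I.comap (ext F)).map (ext F : _ →+* AdjoinRoot (cm (algebraMap K Ω) F)) := by
  classical
  set b := Module.finBasis K M with hb
  set B := Algebra.traceForm K M with hB
  have hBn : B.Nondegenerate := traceForm_nondegenerate K M
  set d := B.dualBasis hBn b with hd
  set π : Fin (Module.finrank K M) → (M →ₗ[K] K) := fun i => B.flip (b i) with hπ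
  have hπv : ∀ i x, π i x = Algebra.trace K M (x * b i) := fun i x => rfl
  set zi : Fin (Module.finrank K M) → AdjoinRoot F := fun i =>
    AdjoinRoot.mk F (cw2 (π i) p) with hzi
  -- Claim 1
  have key : ∀ (p : M[X]) (i : Fin (Module.finrank K M)), (cwl (π i) p).map (algebraMap K Ω) =
      ∑ σ : M ≃ₐ[K] M, C (algebraMap M Ω (σ (b i))) *
        (p.map (algebraMap M Ω)).map ((σ.liftNormal Ω : Ω ≃ₐ[K] Ω) : Ω →+* Ω) := by
    intro p i
    ext n
    rw [coeff_map, coeff_cwl, hπv, finsetSum_coeff, IsScalarTower.algebraMap_apply K M Ω,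
      trace_eq_sum_automorphisms, map_sum]
    refine Finset.sum_congr rfl fun σ _ => ?_
    rw [coeff_C_mul, coeff_map, coeff_map, map_mul, map_mul, mul_comm]
    congr 1
    exact (AlgEquiv.liftNormal_commutes σ Ω (p.coeff n)).symm
  have h1 : ∀ i, ext F (zi i) = ∑ σ : M ≃ₐ[K] M,
      AdjoinRoot.mk (cm (algebraMap K Ω) F) (C (C (algebraMap M Ω (σ (b i))))) *
        act F (σ.liftNormal Ω : Ω ≃ₐ[K] Ω)
          (AdjoinRoot.mk (cm (algebraMap K Ω) F) (cm (algebraMap M Ω) p)) := by
    intro i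
    rw [hzi, ext, rmap_mk]
    have e1 : cm (algebraMap K Ω) (cw2 (π i) p) = ∑ σ : M ≃ₐ[K] M,
        C (C (algebraMap M Ω (σ (b i)))) *
          cm ((σ.liftNormal Ω : Ω ≃ₐ[K] Ω) : Ω →+* Ω) (cm (algebraMap M Ω) p) := by
      refine Polynomial.ext fun n => ?_
      rw [coeff_cm, coeff_cw2, key, finsetSum_coeff]
      refine Finset.sum_congr rfl fun σ _ => ?_
      rw [coeff_C_mul, coeff_cm, coeff_cm]
    rw [e1, map_sum]
    refine Finset.sum_congr rfl fun σ _ => ?_
    rw [map_mul, act, rmap_mk]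
  have h2 : ∀ i, zi i ∈ I.comap (ext F) := by
    intro i
    rw [Ideal.mem_comap, h1]
    exact Ideal.sum_mem _ fun σ _ => Ideal.mul_mem_left _ _ (hI _ _ hz)
  -- Claim 2
  have key2 : ∀ p : M[X], p.map (algebraMap M Ω) =
      ∑ i, C (algebraMap M Ω (d i)) * (cwl (π i) p).map (algebraMap K Ω) := by
    intro p
    ext n
    rw [coeff_map, finsetSum_coeff]
    have h3 := d.sum_repr (p.coeff n)
    conv_lhs => rw [← h3]
    rw [map_sum]
    refine Finset.sum_congr rfl fun i _ => ?_
    rw [coeff_C_mul, coeff_map, coeff_cwl, hd, LinearMap.BilinForm.dualBasis_repr_apply,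
      Algebra.smul_def, map_mul, ← IsScalarTower.algebraMap_apply K M Ω, mul_comm]
    rfl
  have h4 : cm (algebraMap M Ω) p = ∑ i,
      C (C (algebraMap M Ω (d i))) * cm (algebraMap K Ω) (cw2 (π i) p) := by
    refine Polynomial.ext fun n => ?_
    rw [coeff_cm, key2, finsetSum_coeff]
    refine Finset.sum_congr rfl fun i _ => ?_
    rw [coeff_C_mul, coeff_cm, coeff_cw2]
  rw [h4, map_sum]
  refine Ideal.sum_mem _ fun i _ => ?_
  rw [map_mul]
  refine Ideal.mul_mem_left _ _ ?_
  have e2 : AdjoinRoot.mk (cm (algebraMap K Ω) F) (cm (algebraMap K Ω) (cw2 (π i) p)) =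
      ext F (zi i) := (rmap_mk _ _ _).symm
  rw [e2]
  exact Ideal.mem_map_of_mem _ (h2 i)

lemma exists_cm_of_coeff {k k' : Type*} [Field k] [Field k'] (g : k →+* k') (p : k'[X][X])
    (hp : ∀ i j, ∃ a, g a = (p.coeff i).coeff j) : ∃ q : k[X][X], cm g q = p := by
  have h1 : p ∈ Polynomial.lifts (mapRingHom g) := by
    rw [Polynomial.lifts_iff_coeff_lifts]
    intro i
    have h2 : p.coeff i ∈ Polynomial.lifts g := by
      rw [Polynomial.lifts_iff_coeff_lifts]
      intro j
      exact hp i j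
    exact (Polynomial.mem_lifts _).mp h2
  exact (Polynomial.mem_lifts _).mp h1

/-- **Galois descent of ideals.** -/
theorem descent_ideal [IsGalois K Ω] (I : Ideal (AdjoinRoot (cm (algebraMap K Ω) F)))
    (hI : ∀ (γ : Ω ≃ₐ[K] Ω), ∀ z ∈ I, act F γ z ∈ I) :
    (I.comap (ext F)).map (ext F : _ →+* AdjoinRoot (cm (algebraMap K Ω) F)) = I := by
  classical
  refine le_antisymm Ideal.map_comap_le fun z hz => ?_
  obtain ⟨p, rfl⟩ := AdjoinRoot.mk_surjective z
  set s : Finset Ω := p.coeffs.biUnion Polynomial.coeffs with hs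
  set M := FiniteGaloisIntermediateField.adjoin K (s : Set Ω) with hMdef
  have hsM : ∀ x ∈ s, x ∈ M.toIntermediateField := fun x hx =>
    FiniteGaloisIntermediateField.subset_adjoin K (s : Set Ω) hx
  obtain ⟨q, hq⟩ := exists_cm_of_coeff (algebraMap M.toIntermediateField Ω) p (by
    intro i j
    have h1 : (p.coeff i).coeff j ∈ M.toIntermediateField := by
      by_cases h0 : (p.coeff i).coeff j = 0
      · rw [h0]
        exact zero_mem _
      · refine hsM _ (Finset.mem_biUnion.mpr ⟨p.coeff i, Polynomial.coeff_mem_coeffs ?_,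
          Polynomial.coeff_mem_coeffs h0⟩)
        intro h2
        rw [h2, coeff_zero] at h0
        exact h0 rfl
    exact ⟨⟨_, h1⟩, rfl⟩)
  rw [← hq] at hz ⊢
  exact descent_aux F I hI q hz

/-- Ideals are contracted from their extensions. -/
theorem comap_map_ext (hF : F.Monic) (I : Ideal (AdjoinRoot F)) :
    (I.map (ext F : _ →+* AdjoinRoot (cm (algebraMap K Ω) F))).comap (ext F) = I := by
  classical
  refine le_antisymm (fun w hw => ?_) Ideal.le_comap_map
  obtain ⟨π, hπ⟩ := (Algebra.linearMap K Ω).exists_leftInverse_of_injective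
    (LinearMap.ker_eq_bot.mpr (algebraMap K Ω).injective)
  have hπ1 : ∀ x : K, π (algebraMap K Ω x) = x := fun x => LinearMap.congr_fun hπ x
  have hmul : ∀ (p : Polynomial Ω) (q : K[X]), cwl π (p * q.map (algebraMap K Ω)) = cwl π p * q := by
    intro p q
    ext n
    rw [coeff_cwl, coeff_mul, coeff_mul, map_sum]
    refine Finset.sum_congr rfl fun x _ => ?_
    rw [coeff_map, coeff_cwl, mul_comm, ← Algebra.smul_def, map_smul, smul_eq_mul, mul_comm]
  have hid : ∀ q : K[X], cwl π (q.map (algebraMap K Ω)) = q := by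
    intro q
    ext n
    rw [coeff_cwl, coeff_map, hπ1]
  have hadd2 : ∀ p q : (Polynomial Ω)[X], cw2 π (p + q) = cw2 π p + cw2 π q := by
    intro p q
    ext n : 1
    rw [coeff_cw2, coeff_add, coeff_add, coeff_cw2, coeff_cw2, cwl_add]
  have hsum : ∀ (s : Finset (ℕ × ℕ)) (G : ℕ × ℕ → Polynomial Ω),
      cwl π (∑ x ∈ s, G x) = ∑ x ∈ s, cwl π (G x) := by
    intro s G
    induction s using Finset.induction_on with
    | empty => simp [cwl_zero]
    | insert a s ha ih => rw [Finset.sum_insert ha, Finset.sum_insert ha, cwl_add, ih]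
  have hmul2 : ∀ (p : (Polynomial Ω)[X]) (q : K[X][X]),
      cw2 π (p * cm (algebraMap K Ω) q) = cw2 π p * q := by
    intro p q
    ext n : 1
    rw [coeff_cw2, coeff_mul, coeff_mul, hsum]
    refine Finset.sum_congr rfl fun x _ => ?_
    rw [coeff_cm, coeff_cw2, hmul]
  have hid2 : ∀ q : K[X][X], cw2 π (cm (algebraMap K Ω) q) = q := by
    intro q
    ext n : 1
    rw [coeff_cw2, coeff_cm, hid]
  have hF' : (cm (algebraMap K Ω) F).Monic := hF.map _
  set P : AdjoinRoot (cm (algebraMap K Ω) F) → AdjoinRoot F := fun z =>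
    AdjoinRoot.mk F (cw2 π (AdjoinRoot.modByMonicHom hF' z)) with hP
  have hPmk : ∀ p, P (AdjoinRoot.mk _ p) = AdjoinRoot.mk F (cw2 π p) := by
    intro p
    rw [hP]
    show AdjoinRoot.mk F (cw2 π (AdjoinRoot.modByMonicHom hF' (AdjoinRoot.mk _ p))) = _
    rw [AdjoinRoot.modByMonicHom_mk]
    have e1 : p = p %ₘ cm (algebraMap K Ω) F + (p /ₘ cm (algebraMap K Ω) F) *
        cm (algebraMap K Ω) F := by
      conv_lhs => rw [← modByMonic_add_div p (cm (algebraMap K Ω) F)]
      ring
    conv_rhs => rw [e1, hadd2, hmul2, map_add, map_mul, AdjoinRoot.mk_self, mul_zero, add_zero]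
  have hPmul : ∀ (z : AdjoinRoot (cm (algebraMap K Ω) F)) (w : AdjoinRoot F),
      P (z * ext F w) = P z * w := by
    intro z w
    obtain ⟨p, rfl⟩ := AdjoinRoot.mk_surjective z
    obtain ⟨q, rfl⟩ := AdjoinRoot.mk_surjective w
    rw [ext, rmap_mk, ← map_mul, hPmk, hPmk, hmul2, map_mul]
  have hPadd : ∀ z z' : AdjoinRoot (cm (algebraMap K Ω) F), P (z + z') = P z + P z' := by
    intro z z'
    obtain ⟨p, rfl⟩ := AdjoinRoot.mk_surjective z
    obtain ⟨q, rfl⟩ := AdjoinRoot.mk_surjective z'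
    rw [← map_add, hPmk, hPmk, hPmk, hadd2, map_add]
  have hPid : ∀ w : AdjoinRoot F, P (ext F w) = w := by
    intro w
    obtain ⟨q, rfl⟩ := AdjoinRoot.mk_surjective w
    rw [ext, rmap_mk, hPmk, hid2]
  have hP0 : P 0 = 0 := by
    have h1 := hPid 0
    rwa [map_zero] at h1
  have key : ∀ z ∈ I.map (ext F : _ →+* AdjoinRoot (cm (algebraMap K Ω) F)),
      ∀ t, P (t * z) ∈ I := by
    intro z hz
    refine Submodule.span_induction ?_ ?_ ?_ ?_ hz
    · rintro _ ⟨w, hw, rfl⟩ t
      rw [hPmul]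
      exact Ideal.mul_mem_left _ _ hw
    · intro t
      rw [mul_zero, hP0]
      exact zero_mem _
    · intro a b _ _ ha hb t
      rw [mul_add, hPadd]
      exact add_mem (ha t) (hb t)
    · intro a b _ hb t
      rw [smul_eq_mul, ← mul_assoc]
      exact hb _
  have h1 := key _ (Ideal.mem_comap.mp hw) 1
  rwa [one_mul, hPid] at h1

end Descent

end Pool.Agent.MPab1e31.Se
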