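import Pool.Agent.MPab1e31Se.NT
import Pool.Agent.MPab1e31Se.Cl
import Pool.Agent.MPab1e31Se.Bridge

/-!
# Rescaling the coordinates; the non-torsion lemma for points with large first coordinate
-/

namespace Pool.Agent.MPab1e31.Se

open Polynomial Pool.Agent.MPab1e31.Hyp Pool.Agent.MPab1e31

section Sub

variable {E : Type*} [Field E]

/-- The substitution `x ↦ c x`, `y ↦ e y`. -/
noncomputable def sbs (n : ℕ) (f f₁ : E[X]) (c e : E) (h : f.comp (C c * X) = C (e ^ n) * f₁) :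
    AdjoinRoot (SF n f) →+* AdjoinRoot (SF n f₁) :=
  AdjoinRoot.lift ((AdjoinRoot.of (SF n f₁)).comp (compRingHom (C c * X)))
    (AdjoinRoot.of _ (C e) * AdjoinRoot.root _) (by
      rw [eval₂_SF, mul_pow, root_pow, RingHom.comp_apply, coe_compRingHom_apply, h, map_mul,
        C_pow, map_pow, sub_self])

lemma sbs_of (n : ℕ) (f f₁ : E[X]) (c e : E) (h : f.comp (C c * X) = C (e ^ n) * f₁) (a : E[X]) :
    sbs n f f₁ c e h (AdjoinRoot.of _ a) = AdjoinRoot.of _ (a.comp (C c * X)) := by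
  rw [sbs, AdjoinRoot.lift_of]
  rfl

lemma sbs_root (n : ℕ) (f f₁ : E[X]) (c e : E) (h : f.comp (C c * X) = C (e ^ n) * f₁) :
    sbs n f f₁ c e h (AdjoinRoot.root _) = AdjoinRoot.of _ (C e) * AdjoinRoot.root _ := by
  rw [sbs, AdjoinRoot.lift_root]

lemma sbs_symm {n : ℕ} {f f₁ : E[X]} {c e : E} (hc : c ≠ 0) (he : e ≠ 0)
    (h : f.comp (C c * X) = C (e ^ n) * f₁) :
    f₁.comp (C c⁻¹ * X) = C (e⁻¹ ^ n) * f := by
  have h1 := congrArg (fun q : E[X] => q.comp (C c⁻¹ * X)) h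
  simp only [comp_assoc, mul_comp, C_comp, X_comp] at h1
  have h2 : (C c * (C c⁻¹ * X) : E[X]) = X := by
    rw [← mul_assoc, ← C_mul, mul_inv_cancel₀ hc, C_1, one_mul]
  rw [h2, comp_X] at h1
  rw [h1, ← mul_assoc, ← C_mul, ← mul_pow, inv_mul_cancel₀ he, one_pow, C_1, one_mul]

lemma sbs_injective {n : ℕ} {f f₁ : E[X]} {c e : E} (hc : c ≠ 0) (he : e ≠ 0)
    (h : f.comp (C c * X) = C (e ^ n) * f₁) : Function.Injective (sbs n f f₁ c e h) := by
  have h1 : (sbs n f₁ f c⁻¹ e⁻¹ (sbs_symm hc he h)).comp (sbs n f f₁ c e h) = RingHom.id _ := by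
    refine AdjoinRoot.ringHom_ext ?_ ?_
    · refine RingHom.ext fun a => ?_
      rw [RingHom.comp_apply, RingHom.comp_apply, sbs_of, sbs_of, comp_assoc, mul_comp, C_comp,
        X_comp, ← mul_assoc, ← C_mul, mul_inv_cancel₀ hc, C_1, one_mul, comp_X]
      rfl
    · rw [RingHom.comp_apply, sbs_root, map_mul, sbs_of, sbs_root, ← mul_assoc, ← map_mul, C_comp,
        ← C_mul, mul_inv_cancel₀ he, C_1, map_one, one_mul]
      rfl
  intro a b hab
  have h2 := congrArg (sbs n f₁ f c⁻¹ e⁻¹ (sbs_symm hc he h)) hab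
  rw [← RingHom.comp_apply, ← RingHom.comp_apply, h1] at h2
  exact h2

lemma isDomain_sbs {n : ℕ} {f f₁ : E[X]} {c e : E} (hc : c ≠ 0) (he : e ≠ 0)
    (h : f.comp (C c * X) = C (e ^ n) * f₁) [IsDomain (AdjoinRoot (SF n f))] :
    IsDomain (AdjoinRoot (SF n f₁)) :=
  (sbs_injective (inv_ne_zero hc) (inv_ne_zero he) (sbs_symm hc he h)).isDomain _

lemma map_sbs_ptJ {n : ℕ} {f f₁ : E[X]} {c e : E} (hc : c ≠ 0) (he : e ≠ 0)
    (h : f.comp (C c * X) = C (e ^ n) * f₁) (t s : E) :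
    (ptJ (SF n f) (c * t) (e * s)).map (sbs n f f₁ c e h) = ptJ (SF n f₁) t s := by
  have e0 : sbs n f f₁ c e h (AdjoinRoot.of (SF n f) (X - C (c * t))) =
      AdjoinRoot.of (SF n f₁) (C c) * AdjoinRoot.of (SF n f₁) (X - C t) := by
    rw [sbs_of, ← map_mul, sub_comp, X_comp, C_comp, C_mul]
    congr 1; ring
  have e1 : sbs n f f₁ c e h (AdjoinRoot.root (SF n f) - AdjoinRoot.of (SF n f) (C (e * s))) =
      AdjoinRoot.of (SF n f₁) (C e) *
        (AdjoinRoot.root (SF n f₁) - AdjoinRoot.of (SF n f₁) (C s)) := by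
    rw [map_sub, sbs_of, sbs_root, C_comp, C_mul, map_mul]; ring
  have hu : ∀ a : E, a ≠ 0 →
      AdjoinRoot.of (SF n f₁) (C a⁻¹) * AdjoinRoot.of (SF n f₁) (C a) = 1 := by
    intro a ha
    rw [← map_mul, ← C_mul, inv_mul_cancel₀ ha, C_1, map_one]
  rw [ptJ, Ideal.map_span, Set.image_pair, e0, e1, ptJ]
  apply le_antisymm
  · rw [Ideal.span_le]
    rintro _ (rfl | rfl)
    · exact Ideal.mul_mem_left _ _ (Ideal.subset_span (by simp))
    · exact Ideal.mul_mem_left _ _ (Ideal.subset_span (by simp))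
  · rw [Ideal.span_le]
    have key : ∀ (a : E) (ha : a ≠ 0) (w : AdjoinRoot (SF n f₁)) (J : Ideal (AdjoinRoot (SF n f₁))),
        AdjoinRoot.of (SF n f₁) (C a) * w ∈ J → w ∈ J := by
      intro a ha w J hw
      have h2 := J.mul_mem_left (AdjoinRoot.of (SF n f₁) (C a⁻¹)) hw
      rwa [← mul_assoc, hu a ha, one_mul] at h2
    rintro _ (rfl | rfl)
    · exact key c hc _ _ (Ideal.subset_span (by simp))
    · exact key e he _ _ (Ideal.subset_span (by simp))

end Sub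

section Bound

variable {E : Type*} [Field E] {p : ℕ} [hp : Fact p.Prime] {v : AbsoluteValue E ℝ}
  [CharZero E] [IsAlgClosed E]

/-- Points with large first coordinate are non-torsion. -/
theorem exists_bound (hv : IsNonarchimedean v) (hvp : v (p : E) < 1) (g : E[X])
    (hd : 2 ≤ g.natDegree) (hpd : ¬ p ∣ g.natDegree) [IsDomain (AdjoinRoot (SF p g))] :
    ∃ K : ℝ, ∀ t s : E, s ^ p = g.eval t → K < v t → s ≠ 0 ∧
      ∀ n : ℕ, n ≠ 0 → ¬ (ptJ (SF p g) t s ^ n).IsPrincipal := by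
  have hp0 : ((p : ℕ) : E) ≠ 0 := Nat.cast_ne_zero.mpr hp.out.ne_zero
  have hg0 : g ≠ 0 := by
    rintro rfl
    rw [natDegree_zero] at hd
    omega
  set d := g.natDegree with hdd
  set c := g.leadingCoeff with hc
  have hc0 : c ≠ 0 := leadingCoeff_ne_zero.mpr hg0
  set M : ℝ := max 1 (gn v (C c⁻¹ * g)) with hM
  have hM0 : 0 < M := lt_of_lt_of_le one_pos (le_max_left _ _)
  obtain ⟨k, hk⟩ := exists_pow_lt_of_lt_one (one_div_pos.mpr hM0) hvp
  have hvp0 : 0 < v (p : E) := v.pos hp0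
  set μ : E := (((p : ℕ) : E) ^ k)⁻¹ with hμ
  have hμ0 : μ ≠ 0 := inv_ne_zero (pow_ne_zero _ hp0)
  have hμM : M < v μ := by
    rw [hμ, map_inv₀, map_pow]
    rw [lt_div_iff₀ hM0] at hk
    rw [← one_div, lt_div_iff₀ (by positivity), mul_comm]
    exact hk
  have hμ1 : 1 < v μ := lt_of_le_of_lt (le_max_left _ _) hμM
  obtain ⟨e, he⟩ := IsAlgClosed.exists_pow_nat_eq (c * μ ^ d) (n := p) hp.out.pos
  have he0 : e ≠ 0 := by
    rintro rfl
    rw [zero_pow hp.out.ne_zero] at he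
    exact mul_ne_zero hc0 (pow_ne_zero _ hμ0) he.symm
  set f₁ : E[X] := C (c * μ ^ d)⁻¹ * g.comp (C μ * X) with hf₁
  have hcm : c * μ ^ d ≠ 0 := mul_ne_zero hc0 (pow_ne_zero _ hμ0)
  have hrel : g.comp (C μ * X) = C (e ^ p) * f₁ := by
    rw [he, hf₁, ← mul_assoc, ← C_mul, mul_inv_cancel₀ hcm, C_1, one_mul]
  have hcoeff : ∀ i, f₁.coeff i = (c * μ ^ d)⁻¹ * (g.coeff i * μ ^ i) := by
    intro i
    rw [hf₁, coeff_C_mul, comp_C_mul_X_coeff]
  have hdeg : f₁.natDegree = d := by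
    refine le_antisymm ?_ ?_
    · rw [natDegree_le_iff_coeff_eq_zero]
      intro i hi
      rw [hcoeff, coeff_eq_zero_of_natDegree_lt (by rw [← hdd]; exact hi), zero_mul, mul_zero]
    · refine le_natDegree_of_ne_zero ?_
      rw [hcoeff]
      exact mul_ne_zero (inv_ne_zero hcm) (mul_ne_zero hc0 (pow_ne_zero _ hμ0))
  have hmon : f₁.Monic := by
    rw [Monic, leadingCoeff, hdeg, hcoeff]
    exact inv_mul_cancel₀ hcm
  have hsmall : gn v (f₁ - X ^ f₁.natDegree) < 1 := by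
    rw [hdeg]
    obtain ⟨i, hi⟩ := exists_coeff_eq (v := v) (f₁ - X ^ d)
    rw [hi, coeff_sub, coeff_X_pow]
    rcases lt_trichotomy i d with h1 | h1 | h1
    · rw [if_neg h1.ne, sub_zero, hcoeff]
      obtain ⟨j, hj⟩ : ∃ j, d = i + (j + 1) := ⟨d - i - 1, by omega⟩
      have e1 : (c * μ ^ d)⁻¹ * (g.coeff i * μ ^ i) =
          (C c⁻¹ * g).coeff i * (μ ^ (j + 1))⁻¹ := by
        rw [coeff_C_mul, hj, pow_add]
        field_simp
      have e4 : v ((C c⁻¹ * g).coeff i * (μ ^ (j + 1))⁻¹) =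
          v ((C c⁻¹ * g).coeff i) * (v μ ^ (j + 1))⁻¹ := by
        rw [map_mul v, map_inv₀ v, map_pow v]
      rw [e1, e4]
      have e2 : v ((C c⁻¹ * g).coeff i) < v μ :=
        ((coeff_le _ _).trans (le_max_right _ _)).trans_lt hμM
      have e3 : v μ ≤ v μ ^ (j + 1) := le_self_pow₀ hμ1.le (Nat.succ_ne_zero j)
      rw [← div_eq_mul_inv, div_lt_one (by positivity)]
      exact e2.trans_le e3
    · rw [h1, if_pos rfl, ← hdeg, hmon.coeff_natDegree, sub_self, map_zero]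
      exact one_pos
    · rw [if_neg h1.ne', sub_zero, coeff_eq_zero_of_natDegree_lt (by rw [hdeg]; exact h1),
        map_zero]
      exact one_pos
  have hint : ∀ i, v (f₁.coeff i) ≤ 1 := by
    intro i
    have e1 : f₁ = (f₁ - X ^ f₁.natDegree) + X ^ f₁.natDegree := by ring
    refine (coeff_le f₁ i).trans ?_
    rw [e1]
    exact (gn_add hv _ _).trans (max_le hsmall.le (gn_X_pow _).le)
  have hdom : IsDomain (AdjoinRoot (SF p f₁)) := isDomain_sbs hμ0 he0 hrel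
  have hprim : ∃ ζ : E, IsPrimitiveRoot ζ p := by
    have : NeZero ((p : ℕ) : E) := ⟨hp0⟩
    exact HasEnoughRootsOfUnity.exists_primitiveRoot E p
  obtain ⟨ζ, hζ⟩ := hprim
  refine ⟨v μ, fun t s hs ht => ?_⟩
  have hμpos : 0 < v μ := v.pos hμ0
  set t₁ := t / μ with ht₁
  set s₁ := s / e with hs₁
  have htt : t = μ * t₁ := by rw [ht₁]; field_simp
  have hss : s = e * s₁ := by rw [hs₁]; field_simp
  have hvt₁ : 1 < v t₁ := by
    rw [ht₁, map_div₀, one_lt_div hμpos]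
    exact ht
  have hs₁' : s₁ ^ p = f₁.eval t₁ := by
    have e1 := congrArg (eval t₁) hrel
    rw [eval_comp, eval_mul, eval_C, eval_X, ← htt, ← hs, eval_mul, eval_C, hss, mul_pow] at e1
    exact mul_left_cancel₀ (pow_ne_zero _ he0) e1
  have hs₁0 : s₁ ≠ 0 := by
    intro h0
    rw [h0, zero_pow hp.out.ne_zero] at hs₁'
    exact eval_ne_zero_of_large hv f₁ hmon hint t₁ hvt₁ hs₁'.symm
  refine ⟨by rw [hss]; exact mul_ne_zero he0 hs₁0, fun n hn => ?_⟩
  rintro ⟨z, hz⟩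
  obtain ⟨m, rfl⟩ := Nat.exists_eq_succ_of_ne_zero hn
  refine not_principal_aux hv hvp hmon (by rw [hdeg]; exact hd) (by rw [hdeg]; exact hpd) hsmall hζ
    hs₁' hs₁0 hvt₁ m (sbs p g f₁ μ e hrel z) ?_
  have hz' : ptJ (SF p g) t s ^ (m + 1) = Ideal.span {z} := hz
  have e1 := congrArg (Ideal.map (sbs p g f₁ μ e hrel)) hz'
  rw [Ideal.map_pow, htt, hss, map_sbs_ptJ hμ0 he0 hrel, Ideal.map_span, Set.image_singleton] at e1
  exact e1

end Bound

end Pool.Agent.MPab1e31.Se
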