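import Pool.Agent.MPab1e31Se.Step
import Pool.Agent.MPab1e31Se.Scale
import Pool.Agent.MPab1e31Ev.Fin

/-!
# Infinite rank of the class groups of superelliptic coordinate rings, prime exponent
-/

open scoped WithZero TensorProduct

open NumberField IsDedekindDomain Polynomial

namespace Pool.Agent.MPab1e31.Se

open Pool.Agent.MPab1e31

lemma nonprincipal_congr {k : Type*} [Field k] {F G : k[X][X]} (h : F = G) {t s : k}
    (H : ∀ n : ℕ, n ≠ 0 → ¬ (ptJ G t s ^ n).IsPrincipal) :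
    ∀ n : ℕ, n ≠ 0 → ¬ (ptJ F t s ^ n).IsPrincipal := by
  subst h
  exact H

section Points

variable {F₀ K Ω : Type*} [Field F₀] [NumberField F₀] [Field K] [Field Ω]
    [Algebra F₀ K] [Algebra K Ω] [Algebra F₀ Ω] [IsScalarTower F₀ K Ω]
    [Algebra.IsAlgebraic F₀ K] [IsAlgClosed Ω] [Algebra.IsAlgebraic K Ω]

/-- Independent Galois invariant classes over the algebraic closure. -/
theorem exists_points [CharZero Ω] (p : ℕ) [hp : Fact p.Prime] (hfg : IsTopFG (Ω ≃ₐ[K] Ω))
    (f₀ : F₀[X]) (hd : 2 ≤ f₀.natDegree) (hpd : ¬ p ∣ f₀.natDegree) (hsep : f₀.Separable)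
    [Fact (SF p f₀).Monic] [IsDomain (RO Ω (SF p f₀))] (m : ℕ) :
    ∃ v : Fin m → Additive (ICl (RO Ω (SF p f₀))), LinearIndependent ℤ v ∧
      ∀ (k : Fin m) (γ : Ω ≃ₐ[K] Ω), rho (SF p f₀) (γ.restrictScalars F₀) (v k) = v k := by
  classical
  have : Algebra.IsAlgebraic F₀ Ω := Algebra.IsAlgebraic.trans F₀ K Ω
  have : Algebra.IsAlgebraic ℚ Ω := Algebra.IsAlgebraic.trans ℚ F₀ Ω
  have : IsAlgClosure F₀ Ω := ⟨inferInstance, inferInstance⟩
  have : Normal F₀ Ω := IsAlgClosure.normal F₀ Ω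
  have hp0 : p ≠ 0 := hp.out.ne_zero
  set g : Polynomial Ω := f₀.map (algebraMap F₀ Ω) with hg
  have hF : cm (algebraMap F₀ Ω) (SF p f₀) = SF p g := cm_SF _ _ _
  have hgdeg : g.natDegree = f₀.natDegree := by
    rw [hg, natDegree_map]
  have hgsep : g.Separable := hsep.map
  have hdomC : IsDomain (AdjoinRoot (SF p g)) :=
    isDomain_SF hp0 g hgsep.squarefree (by omega)
  have hg0 : g ≠ 0 := by
    intro h0
    rw [h0, natDegree_zero] at hgdeg
    omega
  obtain ⟨κ, hκ⟩ := IsAlgClosed.exists_pow_nat_eq g.leadingCoeff (n := p) hp.out.pos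
  have hκ0 : κ ≠ 0 := by
    rintro rfl
    apply leadingCoeff_ne_zero.mpr hg0
    rw [← hκ, zero_pow hp0]
  obtain ⟨ζ, hζ⟩ : ∃ ζ : Ω, IsPrimitiveRoot ζ p := by
    have : NeZero ((p : ℕ) : Ω) := ⟨Nat.cast_ne_zero.mpr hp0⟩
    exact HasEnoughRootsOfUnity.exists_primitiveRoot Ω p
  -- the field `L`
  set T : Finset Ω := insert ζ (insert κ g.roots.toFinset) with hT
  set L₁ : IntermediateField F₀ Ω := IntermediateField.adjoin F₀ (T : Set Ω) with hL₁
  have hfin₁ : FiniteDimensional F₀ L₁ :=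
    IntermediateField.finiteDimensional_adjoin (S := (T : Set Ω))
      fun x _ => (Algebra.IsAlgebraic.isAlgebraic (R := F₀) x).isIntegral
  set L : IntermediateField F₀ Ω := IntermediateField.normalClosure F₀ L₁ Ω with hL
  have : FiniteDimensional F₀ L := normalClosure.is_finiteDimensional F₀ L₁ Ω
  have : Normal F₀ L := normalClosure.normal F₀ L₁ Ω
  have : NumberField L := NumberField.of_module_finite F₀ L
  have hTL : ∀ x ∈ T, x ∈ L := fun x hx =>
    IntermediateField.le_normalClosure L₁ (IntermediateField.subset_adjoin F₀ _ hx)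
  have hζL : ζ ∈ L := hTL _ (Finset.mem_insert_self _ _)
  have hκL : κ ∈ L := hTL _ (Finset.mem_insert_of_mem (Finset.mem_insert_self _ _))
  have hrL : ∀ x ∈ g.roots, x ∈ L := fun x hx => hTL _ (Finset.mem_insert_of_mem
    (Finset.mem_insert_of_mem (Multiset.mem_toFinset.mpr hx)))
  have hμ : ∀ ω : Ω, ω ^ p = 1 → ω ∈ L := by
    intro ω hω
    have : NeZero p := ⟨hp0⟩
    obtain ⟨i, -, rfl⟩ := hζ.eq_pow_of_pow_eq_one hω
    exact pow_mem hζL i
  set S : Multiset L := g.roots.attach.map fun a => (⟨a.1, hrL a.1 a.2⟩ : L) with hS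
  have hSmap : S.map (fun a : L => (a : Ω)) = g.roots := by
    rw [hS, Multiset.map_map]
    exact Multiset.attach_map_val _
  have hps : g.Splits := IsAlgClosed.splits g
  have hcard : ¬ p ∣ Multiset.card S := by
    have h1 : Multiset.card S = f₀.natDegree := by
      rw [← Multiset.card_map (fun a : L => (a : Ω)) S, hSmap, ← hps.natDegree_eq_card_roots, hgdeg]
    rw [h1]
    exact hpd
  have hval : ∀ x : Ω, κ ^ p * (S.map fun e : L => x - (e : Ω)).prod = g.eval x := by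
    intro x
    have h2 := hps.eval_eq_prod_roots x
    rw [← hSmap, Multiset.map_map, ← hκ] at h2
    rw [h2]
    rfl
  obtain ⟨v, hv, hv2⟩ := exists_abs p Ω
  obtain ⟨P, hPC⟩ := exists_bridge p (L := L) (E := Ω) hv hv2
  obtain ⟨ϖ, hϖ⟩ := P.valuation_exists_uniformizer L
  obtain ⟨C₀, hC₀⟩ := exists_bound hv hv2 g (by omega) (by rw [hgdeg]; exact hpd)
  obtain ⟨C, hC⟩ := hPC C₀
  refine exists_independent (rho (SF p f₀)) L p hμ hfg S hcard
    (fun x r => pcl (cm (algebraMap F₀ Ω) (SF p f₀)) x (κ * r)) ?_ (P.valuation L) ϖ hϖ C ?_ m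
  · intro γ hγ x s _
    show rho (SF p f₀) γ (pcl _ _ _) = pcl _ _ _
    rw [rho_pcl, map_mul, hγ x x.2, hγ κ hκL]
  · intro x hx s hs γ hγL hγs n hn
    have hs1 : (κ * s) ^ p = g.eval (x : Ω) := by
      rw [mul_pow, hs, hval]
    obtain ⟨h1, h2⟩ := hC₀ (x : Ω) (κ * s) hs1 (hC x hx)
    have hγs1 : (κ * γ s) ^ p = (κ * s) ^ p := by
      have e1 : γ (κ * s) = κ * γ s := by rw [map_mul, hγL κ hκL]
      have e2 : γ (s ^ p) = s ^ p := by
        rw [hs]
        exact hγL _ (multiset_prod_mem _ (by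
          intro a ha
          obtain ⟨e, -, rfl⟩ := Multiset.mem_map.mp ha
          exact sub_mem x.2 e.2))
      rw [mul_pow, mul_pow, ← map_pow, e2]
    refine pcl_sub_nontorsion (n := p) _ hF hs1 h1 hγs1 ?_ (nonprincipal_congr hF h2) n hn
    intro h0
    exact hγs (mul_left_cancel₀ hκ0 h0)

/-- Independent classes over `K`. -/
theorem exists_classes [CharZero Ω] [CharZero K] (p : ℕ) [hp : Fact p.Prime]
    (hfg : IsTopFG (Ω ≃ₐ[K] Ω)) (f₀ : F₀[X]) (hd : 2 ≤ f₀.natDegree) (hpd : ¬ p ∣ f₀.natDegree)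
    (hsep : f₀.Separable) (f : K[X]) (hf : f₀.map (algebraMap F₀ K) = f)
    [IsDomain (AdjoinRoot (SF p f))] (m : ℕ) :
    ∃ v : Fin m → Additive (ICl (AdjoinRoot (SF p f))), LinearIndependent ℤ v := by
  classical
  have : IsAlgClosure K Ω := ⟨inferInstance, inferInstance⟩
  have : Normal K Ω := IsAlgClosure.normal K Ω
  have : IsGalois K Ω := ⟨⟩
  have hp0 : p ≠ 0 := hp.out.ne_zero
  have hmon₀ : Fact (SF p f₀).Monic := ⟨SF_monic hp0 f₀⟩
  have hmon : Fact (SF p f).Monic := ⟨SF_monic hp0 f⟩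
  have hF : cm (algebraMap F₀ Ω) (SF p f₀) = SF p (f₀.map (algebraMap F₀ Ω)) := cm_SF _ _ _
  have hG : cm (algebraMap K Ω) (SF p f) = cm (algebraMap F₀ Ω) (SF p f₀) := by
    rw [cm_SF, hF, ← hf, Polynomial.map_map, ← IsScalarTower.algebraMap_eq]
  have hGm : (cm (algebraMap F₀ Ω) (SF p f₀)).Monic := by
    rw [hF]
    exact SF_monic hp0 _
  have hdom : IsDomain (AdjoinRoot (cm (algebraMap F₀ Ω) (SF p f₀))) := by
    rw [hF]
    refine isDomain_SF hp0 _ (hsep.map (f := algebraMap F₀ Ω)).squarefree ?_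
    rw [natDegree_map]
    omega
  obtain ⟨v, hv, hfix⟩ := exists_points (K := K) p hfg f₀ hd hpd hsep m
  have key : ∀ k : Fin m, ∃ n : ℕ, 0 < n ∧ ∃ d : ICl (AdjoinRoot (SF p f)),
      clMap (rmap (algebraMap K Ω) hG) (rmap_injective _ _ (Fact.out)) d = (v k).toMul ^ n := by
    intro k
    refine exists_pow_of_fixed' (SF p f) _ hG hGm (v k).toMul fun γ h => ?_
    have h1 := hfix k γ
    rw [rho_apply] at h1
    exact Additive.ofMul.injective h1
  choose n hn d hd using key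
  refine ⟨fun k => Additive.ofMul (d k), ?_⟩
  set E : Additive (ICl (AdjoinRoot (SF p f))) →ₗ[ℤ]
      Additive (ICl (AdjoinRoot (cm (algebraMap F₀ Ω) (SF p f₀)))) :=
    (clMap (rmap (algebraMap K Ω) hG)
      (rmap_injective _ _ (Fact.out))).toAdditive.toIntLinearMap with hE
  have hEd : ∀ k, E (Additive.ofMul (d k)) = (n k : ℤ) • v k := by
    intro k
    show Additive.ofMul (clMap (rmap (algebraMap K Ω) hG)
      (rmap_injective _ _ (Fact.out)) (d k)) = _
    rw [hd, ofMul_pow, ofMul_toMul, natCast_zsmul]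
  refine LinearIndependent.of_comp E ?_
  rw [linearIndependent_iff'] at hv ⊢
  intro s c hc k hk
  have h1 : ∑ i ∈ s, (c i * (n i : ℤ)) • v i = 0 := by
    rw [← hc]
    refine Finset.sum_congr rfl fun i _ => ?_
    rw [mul_smul, ← hEd]
    rfl
  have h2 := hv s _ h1 k hk
  have h4 : (n k : ℤ) ≠ 0 := by exact_mod_cast (hn k).ne'
  exact (mul_eq_zero.mp h2).resolve_right h4

end Points

section Final

/-- The group of ideal classes, prime exponent not dividing the degree. -/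
theorem prime_classes (K : Type*) [Field K] [CharZero K] [Algebra.IsAlgebraic ℚ K]
    (hK : IsTopFG (AlgebraicClosure K ≃ₐ[K] AlgebraicClosure K)) (p : ℕ) [hp : Fact p.Prime]
    (f : K[X]) (hd : 2 ≤ f.natDegree) (hpd : ¬ p ∣ f.natDegree) (hsep : f.Separable)
    [IsDomain (AdjoinRoot (SF p f))] (m : ℕ) :
    ∃ v : Fin m → Additive (ICl (AdjoinRoot (SF p f))), LinearIndependent ℤ v := by
  obtain ⟨F₀, hfin, f₀, hf₀⟩ := Ev.exists_model_poly K f
  have : NumberField F₀ := ⟨⟩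
  have : Algebra.IsAlgebraic F₀ K := Algebra.IsAlgebraic.tower_top (K := ℚ) F₀
  have hdeg₀ : f₀.natDegree = f.natDegree := by
    rw [← hf₀, Polynomial.natDegree_map]
  have hsep₀ : f₀.Separable := by
    rw [← hf₀] at hsep
    exact (Polynomial.separable_map _).mp hsep
  have : CharZero (AlgebraicClosure K) := charZero_of_injective_algebraMap
    (algebraMap K (AlgebraicClosure K)).injective
  exact exists_classes (F₀ := F₀) (Ω := AlgebraicClosure K) p hK f₀ (by omega)
    (by rw [hdeg₀]; exact hpd) hsep₀ f hf₀ m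

end Final

end Pool.Agent.MPab1e31.Se
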