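import Pool.Agent.MPab1e31Se.Mob

/-!
# Non-torsion in the class group of the affine curve when the exponent divides the degree
-/

open Polynomial

namespace Pool.Agent.MPab1e31.Se

open Pool.Agent.MPab1e31 Pool.Agent.MPab1e31.Ev

section Rel

variable {E : Type*} [Field E] {p : ℕ} [hp : Fact p.Prime] [CharZero E] {g f₁ : E[X]}
  [IsDomain (AdjoinRoot (SF p f₁))] [IsDomain (AdjoinRoot (SF p g))] {e κ : E} {m : ℕ}

/-- A relation on the original curve gives a relation on the transformed curve. -/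
theorem transfer (hdeg : g.natDegree ≤ p * m) (hf₁ : mob e (p * m) g = C (κ ^ p) * f₁)
    (hκ : κ ≠ 0) {β : E} (hβ : β ^ p = f₁.eval 0) (hβ0 : β ≠ 0) {ζ : E} (hζ : IsPrimitiveRoot ζ p)
    (σ : E →+* E) (hσf : f₁.map σ = f₁) (hσβ : σ β = β) (hσζ : σ ζ = ζ) {x r : E} (hx : x ≠ 0)
    (hσx : σ x = x) (n : ℕ) {a b : AdjoinRoot (SF p g)} (ha : a ≠ 0) (hb : b ≠ 0)
    (h : Ideal.span {a} * ptJ (SF p g) (e + 1 / x) (κ * r / x ^ m) ^ n =
      Ideal.span {b} * ptJ (SF p g) (e + 1 / x) (κ * σ r / x ^ m) ^ n) :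
    ∃ z w : AdjoinRoot (SF p f₁), z ≠ 0 ∧ w ≠ 0 ∧
      Ideal.span {z} * (ptJ (SF p f₁) x r ^ n * ptJ (SF p f₁) x (σ (σ r)) ^ n) =
        Ideal.span {w} * (ptJ (SF p f₁) x (σ r) ^ n * ptJ (SF p f₁) x (σ r) ^ n) := by
  obtain ⟨F, hF, hF0⟩ := exists_root_series (p := p) f₁ hβ hβ0
  have hF0' : PowerSeries.constantCoeff F ≠ 0 := by rw [hF0]; exact hβ0
  have hFc : PowerSeries.constantCoeff (PowerSeries.map σ F) = β := by
    rw [← PowerSeries.coeff_zero_eq_constantCoeff_apply, PowerSeries.coeff_map,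
      PowerSeries.coeff_zero_eq_constantCoeff_apply, hF0, hσβ]
  have hFσ : PowerSeries.map σ F = F := by
    refine root_series_unique (p := p) ?_ ?_ ?_
    · rw [← map_pow, hF, ← Polynomial.polynomial_map_coe, hσf]
    · rw [hFc, hF0]
    · rw [hFc]
      exact hβ0
  have hX0 : AdjoinRoot.of (SF p f₁) X ≠ 0 := of_ne_zero hp.out.ne_zero f₁ X_ne_zero
  obtain ⟨A, a', ha'⟩ := exists_clear (f₁ := f₁) (e := e) (κ := κ) (m := m) (hdeg := hdeg)
    (hf₁ := hf₁) a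
  obtain ⟨B, b', hb'⟩ := exists_clear (f₁ := f₁) (e := e) (κ := κ) (m := m) (hdeg := hdeg)
    (hf₁ := hf₁) b
  set jj := jm g f₁ e κ m hdeg hf₁ with hjj
  set xx : AdjoinRoot (SF p f₁) := AdjoinRoot.of (SF p f₁) X with hxx
  have hxu : IsUnit (il p f₁ xx) := IsUnit.of_mul_eq_one _ x_mul_xi
  have ha0 : a' ≠ 0 := by
    rintro rfl
    rw [map_zero] at ha'
    exact jm_ne_zero ha ((hxu.pow A).mul_left_eq_zero.mp ha')
  have hb0 : b' ≠ 0 := by
    rintro rfl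
    rw [map_zero] at hb'
    exact jm_ne_zero hb ((hxu.pow B).mul_left_eq_zero.mp hb')
  set z₀ := a' * xx ^ B with hz₀
  set w₀ := b' * xx ^ A with hw₀
  have hz₀0 : z₀ ≠ 0 := mul_ne_zero ha0 (pow_ne_zero _ hX0)
  have hw₀0 : w₀ ≠ 0 := mul_ne_zero hb0 (pow_ne_zero _ hX0)
  have key : ∀ (c : AdjoinRoot (SF p g)) (c₀ : AdjoinRoot (SF p f₁)) (s : E),
      il p f₁ c₀ = jj c * il p f₁ xx ^ (A + B) →
      (Ideal.span {c₀} * ptJ (SF p f₁) x s ^ n).map (il p f₁) =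
        (Ideal.span {c} * ptJ (SF p g) (e + 1 / x) (κ * s / x ^ m) ^ n).map jj := by
    intro c c₀ s hc
    rw [Ideal.map_mul, Ideal.map_mul, Ideal.map_pow, Ideal.map_pow, Ideal.map_span, Ideal.map_span,
      Set.image_singleton, Set.image_singleton, hjj, map_jm_ptJ hx hκ s, hc,
      Ideal.span_singleton_mul_right_unit (hxu.pow (A + B))]
  have E1 : (Ideal.span {z₀} * ptJ (SF p f₁) x r ^ n).map (il p f₁) =
      (Ideal.span {w₀} * ptJ (SF p f₁) x (σ r) ^ n).map (il p f₁) := by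
    rw [key a z₀ r (by rw [hz₀, map_mul, map_pow, ← ha', pow_add]; ring),
      key b w₀ (σ r) (by rw [hw₀, map_mul, map_pow, ← hb', pow_add]; ring), h]
  have D1 : Dom xx (Ideal.span {z₀} * ptJ (SF p f₁) x r ^ n)
      (Ideal.span {w₀} * ptJ (SF p f₁) x (σ r) ^ n) := Dom.of_map_eq hX0 E1.le
  have D1' : Dom xx (Ideal.span {w₀} * ptJ (SF p f₁) x (σ r) ^ n)
      (Ideal.span {z₀} * ptJ (SF p f₁) x r ^ n) := Dom.of_map_eq hX0 E1.ge
  set hh := hmap p σ hσf with hhh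
  have hmp : ∀ (c : AdjoinRoot (SF p f₁)) (s : E),
      (Ideal.span {c} * ptJ (SF p f₁) x s ^ n).map hh =
        Ideal.span {hh c} * ptJ (SF p f₁) x (σ s) ^ n := by
    intro c s
    rw [Ideal.map_mul, Ideal.map_pow, Ideal.map_span, Set.image_singleton, hhh, map_hmap_ptJ, hσx]
  have hhx : hh xx = xx := hmap_X σ hσf
  have D2 : Dom xx (Ideal.span {hh w₀} * ptJ (SF p f₁) x (σ (σ r)) ^ n)
      (Ideal.span {hh z₀} * ptJ (SF p f₁) x (σ r) ^ n) := by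
    have h1 := D1'.map hh
    rw [hmp, hmp, hhx] at h1
    exact h1
  have D2' : Dom xx (Ideal.span {hh z₀} * ptJ (SF p f₁) x (σ r) ^ n)
      (Ideal.span {hh w₀} * ptJ (SF p f₁) x (σ (σ r)) ^ n) := by
    have h1 := D1.map hh
    rw [hmp, hmp, hhx] at h1
    exact h1
  have hhinj : ∀ c : AdjoinRoot (SF p f₁), c ≠ 0 → hh c ≠ 0 := by
    intro c hc
    exact (map_ne_zero_iff hh (rmap_injective _ _ (SF_monic hp.out.ne_zero f₁))).mpr hc
  refine ⟨z₀ * hh w₀, w₀ * hh z₀, mul_ne_zero hz₀0 (hhinj _ hw₀0), mul_ne_zero hw₀0 (hhinj _ hz₀0),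
    ?_⟩
  have hre : ∀ (c c' : AdjoinRoot (SF p f₁)) (I J : Ideal (AdjoinRoot (SF p f₁))),
      (Ideal.span {c} * I) * (Ideal.span {c'} * J) = Ideal.span {c * c'} * (I * J) := by
    intro c c' I J
    rw [mul_mul_mul_comm, Ideal.span_singleton_mul_span_singleton]
  have D3 := D1.mul D2
  have D3' := D1'.mul D2'
  rw [hre, hre] at D3 D3'
  have hcop : ∀ s s' : E, IsCoprime (ptJ (SF p f₁) x s ^ n * ptJ (SF p f₁) x s' ^ n)
      (Ideal.span {xx}) := fun s s' =>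
    ((isCoprime_ptJ hx).pow_left).mul_left ((isCoprime_ptJ hx).pow_left)
  have hσi : ∀ i : ℕ, σ (ζ ^ i) = ζ ^ i := fun i => by rw [map_pow, hσζ]
  have hord : ∀ (i : ℕ) (hi : (ζ ^ i) ^ p = 1),
      (psi hF hi (z₀ * hh w₀)).order = (psi hF hi (w₀ * hh z₀)).order := by
    intro i hi
    have hm : ∀ c d : AdjoinRoot (SF p f₁),
        (psi hF hi (c * d)).order = (psi hF hi c).order + (psi hF hi d).order := fun c d => by
      rw [map_mul, PowerSeries.order_mul]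
    have ho : ∀ c : AdjoinRoot (SF p f₁), (psi hF hi (hh c)).order = (psi hF hi c).order :=
      fun c => order_psi_hmap σ hσf hF hFσ hi (hσi i) c
    rw [hm z₀ (hh w₀), hm w₀ (hh z₀), ho z₀, ho w₀, add_comm]
  apply le_antisymm
  · exact descent hF hF0' hζ (hcop _ _) (mul_ne_zero hw₀0 (hhinj _ hz₀0)) hord D3
  · exact descent hF hF0' hζ (hcop _ _) (mul_ne_zero hz₀0 (hhinj _ hw₀0))
      (fun i hi => (hord i hi).symm) D3'

end Rel

section Conj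

variable {E : Type*} [Field E]

/-- The conjugates of a point. -/
theorem exists_conj {n : ℕ} (hn : n ≠ 0) (g : E[X]) [IsDomain (AdjoinRoot (SF n g))] {ζ : E}
    (hζ : IsPrimitiveRoot ζ n) {t s : E} (hs : s ^ n = g.eval t) (hs0 : s ≠ 0) :
    ∃ A : Additive (ICl (AdjoinRoot (SF n g))) →+ Additive (ICl (AdjoinRoot (SF n g))),
      (∀ i, A (pcl (SF n g) t (ζ ^ i * s)) = pcl (SF n g) t (ζ ^ (i + 1) * s)) ∧
      ∑ i ∈ Finset.range n, pcl (SF n g) t (ζ ^ i * s) = 0 := by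
  have hζ0 : ζ ≠ 0 := hζ.ne_zero hn
  have hζn : (ζ⁻¹) ^ n = 1 := by rw [inv_pow, hζ.pow_eq_one, inv_one]
  have hsi : ∀ i : ℕ, (ζ ^ i * s) ^ n = g.eval t := by
    intro i
    rw [mul_pow, ← pow_mul, mul_comm i n, pow_mul, hζ.pow_eq_one, one_pow, one_mul, hs]
  have hmem : ∀ i : ℕ, ptJ (SF n g) t (ζ ^ i * s) ∈ InvIdeals (AdjoinRoot (SF n g)) := fun i =>
    ptJ_mem (SF n g) hn rfl hζ (hsi i) (mul_ne_zero (pow_ne_zero _ hζ0) hs0)
  have hinj := tau_injective n g ζ⁻¹ hζn (inv_ne_zero hζ0)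
  refine ⟨(clMap (tau n g ζ⁻¹ hζn) hinj).toAdditive, ?_, ?_⟩
  · intro i
    rw [pcl_pos _ (hmem i), pcl_pos _ (hmem (i + 1))]
    show Additive.ofMul (clMap (tau n g ζ⁻¹ hζn) hinj (cls _ _)) = _
    rw [clMap_cls]
    congr 1
    have e3 : ζ ^ i * s = ζ⁻¹ * (ζ ^ (i + 1) * s) := by
      rw [pow_succ]
      field_simp
    have e4 : (ptJ (SF n g) t (ζ ^ i * s)).map (tau n g ζ⁻¹ hζn) =
        ptJ (SF n g) t (ζ ^ (i + 1) * s) := by
      rw [e3]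
      exact map_tau_ptJ n g ζ⁻¹ hζn (inv_ne_zero hζ0) t _
    congr 1
  · have e1 : ∀ i, pcl (SF n g) t (ζ ^ i * s) = Additive.ofMul (cls _ (hmem i)) := fun i =>
      pcl_pos _ (hmem i)
    have e2 := cls_prod (Finset.range n) (fun i => ptJ (SF n g) t (ζ ^ i * s)) hmem
    have e3 : ∏ i ∈ Finset.range n, cls (ptJ (SF n g) t (ζ ^ i * s)) (hmem i) = 1 := by
      rw [← e2, cls_eq_one]
      exact ⟨_, of_ne_zero hn g (X_sub_C_ne_zero t), prod_ptJ hn g hζ hs hs0⟩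
    have e4 := congrArg Additive.ofMul e3
    rw [ofMul_prod, ofMul_one] at e4
    rw [← e4]
    exact Finset.sum_congr rfl fun i _ => e1 i

end Conj

section Inf

variable {E : Type*} [Field E] {p : ℕ} [hp : Fact p.Prime] [CharZero E] {g f₁ : E[X]}
  [IsDomain (AdjoinRoot (SF p f₁))] {e κ : E} {m : ℕ}

/-- Non-torsion of the difference of two conjugate points in the class group of the original
curve. -/
theorem pcl_inf_nontorsion (F : E[X][X]) (hFg : F = SF p g) [IsDomain (AdjoinRoot F)]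
    (hdeg : g.natDegree ≤ p * m) (hf₁ : mob e (p * m) g = C (κ ^ p) * f₁)
    (hκ : κ ≠ 0) {β : E} (hβ : β ^ p = f₁.eval 0) (hβ0 : β ≠ 0) {ζ : E} (hζ : IsPrimitiveRoot ζ p)
    (σ : E →+* E) (hσf : f₁.map σ = f₁) (hσβ : σ β = β) (hσζ : σ ζ = ζ) {x r : E} (hx : x ≠ 0)
    (hσx : σ x = x) (hr : r ^ p = f₁.eval x) (hr0 : r ≠ 0) (hσr : σ r ≠ r)
    (hnt : ∀ n : ℕ, n ≠ 0 → ¬ (ptJ (SF p f₁) x r ^ n).IsPrincipal)
    (hs : (κ * r / x ^ m) ^ p = g.eval (e + 1 / x)) (n : ℤ) (hn : n ≠ 0) :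
    n • (pcl F (e + 1 / x) (κ * r / x ^ m) - pcl F (e + 1 / x) (κ * σ r / x ^ m)) ≠ 0 := by
  subst hFg
  have hp0 : p ≠ 0 := hp.out.ne_zero
  have hσrp : (σ r) ^ p = r ^ p := by
    rw [← map_pow, hr]
    conv_rhs => rw [← hσf, ← hσx, eval_map, eval₂_at_apply]
  set ζ₁ := σ r / r with hζ₁
  have hζ₁p : ζ₁ ^ p = 1 := by
    rw [hζ₁, div_pow, hσrp, div_self (pow_ne_zero _ hr0)]
  have hζ₁1 : ζ₁ ≠ 1 := by
    intro h1
    apply hσr
    rw [hζ₁, div_eq_one_iff_eq hr0] at h1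
    exact h1
  have hprim : IsPrimitiveRoot ζ₁ p := by
    rw [IsPrimitiveRoot.iff_orderOf]
    exact orderOf_eq_prime hζ₁p hζ₁1
  have hσζ₁ : σ ζ₁ = ζ₁ := by
    have : NeZero p := ⟨hp0⟩
    obtain ⟨i, -, hi⟩ := hζ.eq_pow_of_pow_eq_one hζ₁p
    rw [← hi, map_pow, hσζ]
  have hσ1 : σ r = ζ₁ * r := by
    rw [hζ₁]
    field_simp
  have hσ2 : σ (σ r) = ζ₁ ^ 2 * r := by
    rw [hσ1, map_mul, hσζ₁, hσ1]
    ring
  have hζ₁0 : ζ₁ ≠ 0 := hprim.ne_zero hp0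
  have hxm : x ^ m ≠ 0 := pow_ne_zero _ hx
  have hs' : (κ * σ r / x ^ m) ^ p = g.eval (e + 1 / x) := by
    rw [← hs, div_pow, div_pow, mul_pow, mul_pow, hσrp]
  have hs0 : κ * r / x ^ m ≠ 0 := div_ne_zero (mul_ne_zero hκ hr0) hxm
  have hs0' : κ * σ r / x ^ m ≠ 0 := by
    rw [hσ1]
    exact div_ne_zero (mul_ne_zero hκ (mul_ne_zero hζ₁0 hr0)) hxm
  have hP := ptJ_mem (SF p g) hp0 rfl hprim hs hs0
  have hQ := ptJ_mem (SF p g) hp0 rfl hprim hs' hs0'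
  -- natural exponents
  have key : ∀ N : ℕ, N ≠ 0 → N • (pcl (SF p g) (e + 1 / x) (κ * r / x ^ m) -
      pcl (SF p g) (e + 1 / x) (κ * σ r / x ^ m)) ≠ 0 := by
    intro N hN h0
    rw [smul_sub, sub_eq_zero, pcl_pos _ hP, pcl_pos _ hQ, ← ofMul_pow, ← ofMul_pow, ← cls_pow,
      ← cls_pow] at h0
    have h1 := Additive.ofMul.injective h0
    rw [cls_eq_cls] at h1
    obtain ⟨a, b, ha, hb, hab⟩ := h1
    obtain ⟨z, w, hz, hw, hzw⟩ := transfer hdeg hf₁ hκ hβ hβ0 hζ σ hσf hσβ hσζ hx hσx N ha hb hab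
    set c : ℕ → Additive (ICl (AdjoinRoot (SF p f₁))) :=
      fun i => pcl (SF p f₁) x (ζ₁ ^ i * r) with hc
    obtain ⟨A, hA, hsum⟩ := exists_conj hp0 f₁ hprim hr hr0
    have hri : ∀ i : ℕ, (ζ₁ ^ i * r) ^ p = f₁.eval x := by
      intro i
      rw [mul_pow, ← pow_mul, mul_comm i p, pow_mul, hζ₁p, one_pow, one_mul, hr]
    have hmem : ∀ i : ℕ, ptJ (SF p f₁) x (ζ₁ ^ i * r) ∈ InvIdeals (AdjoinRoot (SF p f₁)) := fun i =>
      ptJ_mem (SF p f₁) hp0 rfl hprim (hri i) (mul_ne_zero (pow_ne_zero _ hζ₁0) hr0)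
    have hci : ∀ i, c i = Additive.ofMul (cls _ (hmem i)) := fun i => pcl_pos _ (hmem i)
    have hrel : cls _ (hmem 0) ^ N * cls _ (hmem 2) ^ N =
        cls _ (hmem 1) ^ N * cls _ (hmem 1) ^ N := by
      rw [← cls_pow, ← cls_pow, ← cls_pow, ← cls_mul, ← cls_mul, cls_eq_cls]
      refine ⟨z, w, hz, hw, ?_⟩
      rw [hσ2, hσ1] at hzw
      rw [pow_zero, one_mul, pow_one]
      exact hzw
    have hadd : N • c 0 + N • c 2 = N • c 1 + N • c 1 := by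
      rw [hci, hci, hci]
      exact congrArg Additive.ofMul hrel
    have h2 : (N : ℤ) • ((c 0 - c 1) - (c 1 - c 2)) = 0 := by
      rw [natCast_zsmul]
      have h3 : N • ((c 0 - c 1) - (c 1 - c 2)) = (N • c 0 + N • c 2) - (N • c 1 + N • c 1) := by
        simp only [smul_sub]
        abel
      rw [h3, hadd, sub_self]
    have hper : c p = c 0 := by
      rw [hc]
      show pcl (SF p f₁) x (ζ₁ ^ p * r) = pcl (SF p f₁) x (ζ₁ ^ 0 * r)
      rw [hζ₁p, pow_zero]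
    have h4 := tors_abs₂ A c hA p hsum hper N h2
    have h5 : c 0 = pcl (SF p f₁) x r := by
      rw [hc]
      show pcl (SF p f₁) x (ζ₁ ^ 0 * r) = _
      rw [pow_zero, one_mul]
    rw [h5] at h4
    have hpz : (p : ℤ) ≠ 0 := by exact_mod_cast hp0
    have hNz : (N : ℤ) ≠ 0 := by exact_mod_cast hN
    exact pcl_nontorsion (SF p f₁) (ptJ_mem (SF p f₁) hp0 rfl hprim hr hr0) hnt _
      (mul_ne_zero hpz (mul_ne_zero hpz hNz)) h4
  rcases Int.natAbs_eq n with h1 | h1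
  · rw [h1, natCast_zsmul]
    exact key _ (Int.natAbs_ne_zero.mpr hn)
  · rw [h1, neg_smul, natCast_zsmul, neg_ne_zero]
    exact key _ (Int.natAbs_ne_zero.mpr hn)

end Inf

end Pool.Agent.MPab1e31.Se
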