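import Pool.Agent.MPab1e31Se.Fin
import Pool.Agent.MPab1e31Se.Inf

/-!
# Infinite rank of the class groups of superelliptic coordinate rings, prime exponent dividing
# the degree
-/

open scoped WithZero TensorProduct

open NumberField IsDedekindDomain Polynomial

namespace Pool.Agent.MPab1e31.Se

open Pool.Agent.MPab1e31 Pool.Agent.MPab1e31.Ev

section Model

variable {E : Type*} [Field E]

/-- The polynomial at infinity. -/
theorem exists_model' (f : E[X]) (d : ℕ) (hd : 1 ≤ d) (hdeg : f.natDegree = d) (e : E)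
    (he : f.eval e = 0) (he' : f.derivative.eval e ≠ 0) :
    ∃ f₁ : E[X], f₁.Monic ∧ f₁.natDegree = d - 1 ∧ f₁.eval 0 ≠ 0 ∧
      mob e d f = C (f.derivative.eval e) * f₁ := by
  set a := f.derivative.eval e with ha
  set F := mob e d f with hF
  have hf0 : f ≠ 0 := by
    rintro rfl
    apply he'
    rw [ha, derivative_zero, eval_zero]
  have hc0 : ∀ i, F.coeff i = (taylor e f).coeff (revAt d i) := fun i => by
    rw [hF, mob, coeff_reflect]
  have hc1 : F.coeff (d - 1) = a := by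
    rw [hc0, revAt_le (by omega), show d - (d - 1) = 1 by omega, taylor_coeff_one]
  have hc2 : F.coeff d = 0 := by
    rw [hc0, revAt_le le_rfl, Nat.sub_self, taylor_coeff_zero, he]
  have hle : F.natDegree ≤ d := by
    have h1 := natDegree_reflect_le (N := d) (p := taylor e f)
    rw [natDegree_taylor, hdeg, max_self] at h1
    exact h1
  have hle' : F.natDegree ≤ d - 1 := by
    rw [natDegree_le_iff_coeff_eq_zero]
    intro N hN
    rcases eq_or_ne N d with rfl | hne
    · exact hc2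
    · exact coeff_eq_zero_of_natDegree_lt (by omega)
  have hdF : F.natDegree = d - 1 :=
    le_antisymm hle' (le_natDegree_of_ne_zero (by rw [hc1]; exact he'))
  have hlc : F.leadingCoeff = a := by rw [leadingCoeff, hdF, hc1]
  refine ⟨C a⁻¹ * F, ?_, ?_, ?_, ?_⟩
  · rw [Monic, leadingCoeff_mul, leadingCoeff_C, hlc, inv_mul_cancel₀ he']
  · rw [natDegree_C_mul (inv_ne_zero he'), hdF]
  · have h1 : F.eval 0 = f.leadingCoeff := by
      have h2 : (taylor e f).leadingCoeff = f.leadingCoeff := leadingCoeff_taylor e f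
      rw [leadingCoeff, natDegree_taylor, hdeg] at h2
      rw [← coeff_zero_eq_eval_zero, hc0, revAt_le (Nat.zero_le d), Nat.sub_zero]
      exact h2
    rw [eval_mul, eval_C, h1]
    exact mul_ne_zero (inv_ne_zero he') (leadingCoeff_ne_zero.mpr hf0)
  · rw [← mul_assoc, ← C_mul, mul_inv_cancel₀ he', C_1, one_mul]

theorem isDomain_SF_of_not_dvd {p : ℕ} [hp : Fact p.Prime] (f : E[X])
    (hpd : ¬ p ∣ f.natDegree) : IsDomain (AdjoinRoot (SF p f)) := by
  refine AdjoinRoot.isDomain_of_prime (Irreducible.prime ?_)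
  rw [(SF_monic hp.out.ne_zero f).irreducible_iff_irreducible_map_fraction_map
    (K := FractionRing E[X])]
  have h1 : (SF p f).map (algebraMap E[X] (FractionRing E[X])) =
      X ^ p - C (algebraMap E[X] (FractionRing E[X]) f) := by
    rw [SF, Polynomial.map_sub, Polynomial.map_pow, map_X, map_C]
  rw [h1]
  refine X_pow_sub_C_irreducible_of_prime hp.out fun b hb => ?_
  obtain ⟨y, hy⟩ := IsIntegrallyClosed.exists_algebraMap_eq_of_isIntegral_pow (R := E[X])
    (x := b) (n := p) hp.out.pos (by rw [hb]; exact isIntegral_algebraMap)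
  rw [← hy, ← map_pow] at hb
  have h2 : y ^ p = f := IsFractionRing.injective E[X] (FractionRing E[X]) hb
  apply hpd
  rw [← h2, natDegree_pow]
  exact dvd_mul_right _ _

end Model

section Points

variable {F₀ K Ω : Type*} [Field F₀] [NumberField F₀] [Field K] [Field Ω]
    [Algebra F₀ K] [Algebra K Ω] [Algebra F₀ Ω] [IsScalarTower F₀ K Ω]
    [Algebra.IsAlgebraic F₀ K] [IsAlgClosed Ω] [Algebra.IsAlgebraic K Ω]

/-- Independent Galois invariant classes over the algebraic closure. -/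
theorem exists_points' [CharZero Ω] (p : ℕ) [hp : Fact p.Prime] (hfg : IsTopFG (Ω ≃ₐ[K] Ω))
    (f₀ : F₀[X]) (hd : 3 ≤ f₀.natDegree) (hpd : p ∣ f₀.natDegree) (hsep : f₀.Separable)
    [Fact (SF p f₀).Monic] [IsDomain (RO Ω (SF p f₀))] (m : ℕ) :
    ∃ v : Fin m → Additive (ICl (RO Ω (SF p f₀))), LinearIndependent ℤ v ∧
      ∀ (k : Fin m) (γ : Ω ≃ₐ[K] Ω), rho (SF p f₀) (γ.restrictScalars F₀) (v k) = v k := by
  classical
  have : Algebra.IsAlgebraic F₀ Ω := Algebra.IsAlgebraic.trans F₀ K Ω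
  have : Algebra.IsAlgebraic ℚ Ω := Algebra.IsAlgebraic.trans ℚ F₀ Ω
  have : IsAlgClosure F₀ Ω := ⟨inferInstance, inferInstance⟩
  have : Normal F₀ Ω := IsAlgClosure.normal F₀ Ω
  have hp0 : p ≠ 0 := hp.out.ne_zero
  have hp2 : 2 ≤ p := hp.out.two_le
  obtain ⟨m₀, hm₀⟩ := hpd
  set g : Polynomial Ω := f₀.map (algebraMap F₀ Ω) with hg
  have hF : cm (algebraMap F₀ Ω) (SF p f₀) = SF p g := cm_SF _ _ _
  have hgdeg : g.natDegree = p * m₀ := by
    rw [hg, natDegree_map, hm₀]
  have hgsep : g.Separable := hsep.map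
  have hdomC : IsDomain (AdjoinRoot (SF p g)) :=
    isDomain_SF hp0 g hgsep.squarefree (by omega)
  have hg0 : g ≠ 0 := by
    intro h0
    rw [h0, natDegree_zero] at hgdeg
    omega
  obtain ⟨e, he⟩ := IsAlgClosed.exists_root g (by
    rw [degree_eq_natDegree hg0, hgdeg]
    have : p * m₀ ≠ 0 := by omega
    exact_mod_cast this)
  have he' : g.derivative.eval e ≠ 0 := by
    intro h0
    obtain ⟨a, b, hab⟩ := hgsep
    have h1 := congrArg (eval e) hab
    rw [eval_add, eval_mul, eval_mul, h0, he.eq_zero, mul_zero, mul_zero, add_zero, eval_one] at h1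
    exact zero_ne_one h1
  obtain ⟨f₁, hmon, hd₁, hf₁0, hf₁⟩ := exists_model' g (p * m₀) (by omega) hgdeg e he.eq_zero he'
  obtain ⟨κ, hκ⟩ := IsAlgClosed.exists_pow_nat_eq (g.derivative.eval e) (n := p) hp.out.pos
  obtain ⟨β, hβ⟩ := IsAlgClosed.exists_pow_nat_eq (f₁.eval 0) (n := p) hp.out.pos
  have hκ0 : κ ≠ 0 := by
    rintro rfl
    apply he'
    rw [← hκ, zero_pow hp0]
  have hβ0 : β ≠ 0 := by
    rintro rfl
    apply hf₁0
    rw [← hβ, zero_pow hp0]
  rw [← hκ] at hf₁
  obtain ⟨ζ, hζ⟩ : ∃ ζ : Ω, IsPrimitiveRoot ζ p := by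
    have : NeZero ((p : ℕ) : Ω) := ⟨Nat.cast_ne_zero.mpr hp0⟩
    exact HasEnoughRootsOfUnity.exists_primitiveRoot Ω p
  have hpd₁ : ¬ p ∣ f₁.natDegree := by
    rw [hd₁]
    intro h1
    have h2 : p ∣ p * m₀ - (p * m₀ - 1) := Nat.dvd_sub (dvd_mul_right p m₀) h1
    rw [show p * m₀ - (p * m₀ - 1) = 1 by omega] at h2
    have := Nat.le_of_dvd one_pos h2
    omega
  have hdom₁ : IsDomain (AdjoinRoot (SF p f₁)) := isDomain_SF_of_not_dvd f₁ hpd₁
  -- the field `L`
  set T : Finset Ω := insert e (insert ζ (insert κ (insert β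
    (f₁.roots.toFinset ∪ f₁.coeffs)))) with hT
  set L₁ : IntermediateField F₀ Ω := IntermediateField.adjoin F₀ (T : Set Ω) with hL₁
  have hfin₁ : FiniteDimensional F₀ L₁ :=
    IntermediateField.finiteDimensional_adjoin (S := (T : Set Ω))
      fun x _ => (Algebra.IsAlgebraic.isAlgebraic (R := F₀) x).isIntegral
  set L : IntermediateField F₀ Ω := IntermediateField.normalClosure F₀ L₁ Ω with hL
  have : FiniteDimensional F₀ L := normalClosure.is_finiteDimensional F₀ L₁ Ω
  have : Normal F₀ L := normalClosure.normal F₀ L₁ Ω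
  have : NumberField L := NumberField.of_module_finite F₀ L
  have hTL : ∀ x ∈ T, x ∈ L := fun x hx =>
    IntermediateField.le_normalClosure L₁ (IntermediateField.subset_adjoin F₀ _ hx)
  have heL : e ∈ L := hTL _ (by simp [hT])
  have hζL : ζ ∈ L := hTL _ (by simp [hT])
  have hκL : κ ∈ L := hTL _ (by simp [hT])
  have hβL : β ∈ L := hTL _ (by simp [hT])
  have hrL : ∀ x ∈ f₁.roots, x ∈ L := fun x hx => hTL _ (by
    rw [hT]
    refine Finset.mem_insert_of_mem (Finset.mem_insert_of_mem (Finset.mem_insert_of_mem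
      (Finset.mem_insert_of_mem (Finset.mem_union_left _ (Multiset.mem_toFinset.mpr hx))))))
  have hcL : ∀ i, f₁.coeff i ∈ L := by
    intro i
    by_cases h0 : f₁.coeff i = 0
    · rw [h0]
      exact zero_mem _
    · refine hTL _ ?_
      rw [hT]
      exact Finset.mem_insert_of_mem (Finset.mem_insert_of_mem (Finset.mem_insert_of_mem
        (Finset.mem_insert_of_mem (Finset.mem_union_right _ (coeff_mem_coeffs h0)))))
  have hμ : ∀ ω : Ω, ω ^ p = 1 → ω ∈ L := by
    intro ω hω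
    have : NeZero p := ⟨hp0⟩
    obtain ⟨i, -, rfl⟩ := hζ.eq_pow_of_pow_eq_one hω
    exact pow_mem hζL i
  set S : Multiset L := f₁.roots.attach.map fun a => (⟨a.1, hrL a.1 a.2⟩ : L) with hS
  have hSmap : S.map (fun a : L => (a : Ω)) = f₁.roots := by
    rw [hS, Multiset.map_map]
    exact Multiset.attach_map_val _
  have hps : f₁.Splits := IsAlgClosed.splits f₁
  have hcard : ¬ p ∣ Multiset.card S := by
    have h1 : Multiset.card S = f₁.natDegree := by
      rw [← Multiset.card_map (fun a : L => (a : Ω)) S, hSmap, ← hps.natDegree_eq_card_roots]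
    rw [h1]
    exact hpd₁
  have hval : ∀ x : Ω, (S.map fun e : L => x - (e : Ω)).prod = f₁.eval x := by
    intro x
    have h2 := hps.eval_eq_prod_roots x
    rw [hmon.leadingCoeff, one_mul, ← hSmap, Multiset.map_map] at h2
    rw [h2]
    rfl
  obtain ⟨v, hv, hv2⟩ := exists_abs p Ω
  obtain ⟨P, hPC⟩ := exists_bridge p (L := L) (E := Ω) hv hv2
  obtain ⟨ϖ, hϖ⟩ := P.valuation_exists_uniformizer L
  obtain ⟨C₀, hC₀⟩ := exists_bound hv hv2 f₁ (by omega) hpd₁
  obtain ⟨C, hC⟩ := hPC (max C₀ 0)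
  refine exists_independent (rho (SF p f₀)) L p hμ hfg S hcard
    (fun x r => pcl (cm (algebraMap F₀ Ω) (SF p f₀)) (e + 1 / x) (κ * r / x ^ m₀)) ?_
    (P.valuation L) ϖ hϖ C ?_ m
  · intro γ hγ x s _
    show rho (SF p f₀) γ (pcl _ _ _) = pcl _ _ _
    rw [rho_pcl, map_add, map_div₀, map_div₀, map_mul, map_pow, map_one, hγ x x.2, hγ e heL,
      hγ κ hκL]
  · intro x hx s hs γ hγL hγs n hn
    have hs1 : s ^ p = f₁.eval (x : Ω) := by rw [hs, hval]
    have hvx := hC x hx
    obtain ⟨h1, h2⟩ := hC₀ (x : Ω) s hs1 (lt_of_le_of_lt (le_max_left _ _) hvx)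
    have hx0 : (x : Ω) ≠ 0 := by
      intro h0
      have h3 := lt_of_le_of_lt (le_max_right C₀ 0) hvx
      have h4 : algebraMap L Ω x = 0 := h0
      rw [h4, map_zero] at h3
      exact lt_irrefl _ h3
    have hs2 : (κ * s / (x : Ω) ^ m₀) ^ p = g.eval (e + 1 / (x : Ω)) := by
      have h3 := mob_eval e (n := p * m₀) (p := g) hgdeg.le hx0
      rw [hf₁, eval_mul, eval_C, ← hs1] at h3
      rw [div_pow, ← pow_mul, mul_comm m₀ p, div_eq_iff (pow_ne_zero _ hx0), mul_pow, h3]
      ring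
    have hσf : f₁.map (γ : Ω →+* Ω) = f₁ := by
      ext i
      rw [coeff_map]
      exact hγL _ (hcL i)
    exact pcl_inf_nontorsion _ hF hgdeg.le hf₁ hκ0 hβ hβ0 hζ (γ : Ω →+* Ω) hσf (hγL β hβL)
      (hγL ζ hζL) hx0 (hγL x x.2) hs1 h1 hγs h2 hs2 n hn

end Points

end Pool.Agent.MPab1e31.Se
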