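import Pool.Agent.MPab1e31Se.Pt

/-!
# Extension of ideal classes to a finite free extension; passage to composite exponents
-/

open Polynomial

namespace Pool.Agent.MPab1e31.Se

open Pool.Agent.MPab1e31

section Norm

variable {R S : Type*} [CommRing R] [CommRing S] [Algebra R S] {ι : Type*} [Fintype ι]
  [DecidableEq ι] (b : Module.Basis ι R S)

omit [DecidableEq ι] in
lemma repr_mem (I : Ideal R) {z : S} (hz : z ∈ I.map (algebraMap R S)) (i : ι) :
    b.repr z i ∈ I := by
  have key : ∀ z : S, z ∈ I.map (algebraMap R S) → ∀ i, b.repr z i ∈ I := by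
    intro z hz
    refine Submodule.span_induction (p := fun z _ => ∀ i, b.repr z i ∈ I) ?_ ?_ ?_ ?_ hz
    · rintro _ ⟨a, ha, rfl⟩ i
      rw [Algebra.algebraMap_eq_smul_one, map_smul, Finsupp.smul_apply, smul_eq_mul]
      exact I.mul_mem_right _ ha
    · intro i
      rw [map_zero]
      exact I.zero_mem
    · intro x y _ _ hx hy i
      rw [map_add]
      exact I.add_mem (hx i) (hy i)
    · intro s x _ hx i
      have e1 : s • x = ∑ j, b.repr x j • (s * b j) := by
        conv_lhs => rw [← b.sum_repr x]
        rw [Finset.smul_sum]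
        refine Finset.sum_congr rfl fun j _ => ?_
        rw [smul_comm]
        rfl
      rw [e1, map_sum, Finsupp.finsetSum_apply]
      refine I.sum_mem fun j _ => ?_
      rw [map_smul, Finsupp.smul_apply, smul_eq_mul]
      exact I.mul_mem_right _ (hx j)
  exact key z hz i

include b in
lemma norm_mem (I : Ideal R) {z : S} (hz : z ∈ I.map (algebraMap R S)) :
    Algebra.norm R z ∈ I ^ Fintype.card ι := by
  rw [Algebra.norm_eq_matrix_det b, Matrix.det_apply]
  refine Ideal.sum_mem _ fun σ _ => ?_
  have h1 : ∏ i, Algebra.leftMulMatrix b z (σ i) i ∈ I ^ Fintype.card ι := by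
    have h2 := Ideal.prod_mem_prod (s := Finset.univ) (I := fun _ : ι => I)
      (x := fun i => Algebra.leftMulMatrix b z (σ i) i) (fun i _ => by
        rw [Algebra.leftMulMatrix_eq_repr_mul]
        exact repr_mem b I (Ideal.mul_mem_right _ _ hz) _)
    rwa [Finset.prod_const, Finset.card_univ] at h2
  rw [Units.smul_def]
  exact zsmul_mem h1 _

include b in
theorem pow_eq_span [IsDomain R] {I J : Ideal R} {a : R} (ha : a ≠ 0)
    (hIJ : I * J = Ideal.span {a}) {z : S} (hz : I.map (algebraMap R S) = Ideal.span {z}) :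
    I ^ Fintype.card ι = Ideal.span {Algebra.norm R z} := by
  set n := Fintype.card ι with hn
  have h1 : algebraMap R S a ∈ Ideal.span {z} * J.map (algebraMap R S) := by
    rw [← hz, ← Ideal.map_mul, hIJ]
    exact Ideal.mem_map_of_mem _ (Ideal.mem_span_singleton_self a)
  obtain ⟨w, hw, hzw⟩ := Ideal.mem_span_singleton_mul.mp h1
  have h2 : Algebra.norm R z * Algebra.norm R w = a ^ n := by
    rw [← map_mul, hzw, Algebra.norm_algebraMap_of_basis b]
  have hz' : z ∈ I.map (algebraMap R S) := by
    rw [hz]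
    exact Ideal.mem_span_singleton_self z
  have h3 := norm_mem b I hz'
  have h4 := norm_mem b J hw
  have hne : Algebra.norm R w ≠ 0 := by
    intro h0
    rw [h0, mul_zero] at h2
    exact pow_ne_zero _ ha h2.symm
  apply le_antisymm
  · intro x hx
    have h5 : x * Algebra.norm R w ∈ Ideal.span {a ^ n} := by
      rw [← Ideal.span_singleton_pow, ← hIJ, mul_pow]
      exact Ideal.mul_mem_mul hx h4
    rw [← h2, Ideal.mem_span_singleton] at h5
    obtain ⟨c, hc⟩ := h5
    rw [Ideal.mem_span_singleton]
    refine ⟨c, mul_right_cancel₀ hne ?_⟩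
    rw [hc]
    ring
  · rw [Ideal.span_singleton_le_iff_mem]
    exact h3

include b in
theorem clMap_tors [IsDomain R] [IsDomain S] (hf : Function.Injective (algebraMap R S))
    (c : ICl R) (h : clMap (algebraMap R S) hf c = 1) : c ^ Fintype.card ι = 1 := by
  obtain ⟨I, hI, rfl⟩ := cls_surj c
  rw [clMap_cls, cls_eq_one] at h
  obtain ⟨z, hz0, hz⟩ := h
  obtain ⟨J, a, ha, hIJ⟩ := mem_invIdeals.mp hI
  have h1 := pow_eq_span b ha hIJ hz
  rw [← cls_pow, cls_eq_one]
  refine ⟨_, ?_, h1⟩
  have h2 := pow_mem hI (Fintype.card ι)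
  have h3 := invIdeals_ne_bot h2
  rw [h1] at h3
  intro h0
  rw [h0] at h3
  exact h3 (Ideal.span_singleton_eq_bot.mpr rfl)

include b in
theorem linearIndependent_clMap [IsDomain R] [IsDomain S] [Nonempty ι]
    (hf : Function.Injective (algebraMap R S)) {m : ℕ} {v : Fin m → Additive (ICl R)}
    (hv : LinearIndependent ℤ v) :
    LinearIndependent ℤ fun k => Additive.ofMul (clMap (algebraMap R S) hf (v k).toMul) := by
  set E : Additive (ICl R) →ₗ[ℤ] Additive (ICl S) :=
    (clMap (algebraMap R S) hf).toAdditive.toIntLinearMap with hE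
  rw [linearIndependent_iff'] at hv ⊢
  intro s c hc k hk
  have h1 : E (∑ i ∈ s, c i • v i) = 0 := by
    rw [map_sum, ← hc]
    refine Finset.sum_congr rfl fun i _ => ?_
    rw [map_smul]
    rfl
  have h2 : (Fintype.card ι : ℤ) • (∑ i ∈ s, c i • v i) = 0 := by
    have h3 := clMap_tors b hf (∑ i ∈ s, c i • v i).toMul (Additive.ofMul.injective h1)
    rw [natCast_zsmul]
    exact Additive.toMul.injective h3
  rw [Finset.smul_sum] at h2
  have h3 : ∑ i ∈ s, ((Fintype.card ι : ℤ) * c i) • v i = 0 := by
    rw [← h2]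
    exact Finset.sum_congr rfl fun i _ => mul_smul _ _ _
  have h4 := hv s _ h3 k hk
  have h5 : ((Fintype.card ι : ℕ) : ℤ) ≠ 0 := by exact_mod_cast Fintype.card_ne_zero
  exact (mul_eq_zero.mp h4).resolve_left h5

end Norm

section Tower

variable {k : Type*} [Field k] (p q : ℕ) (f : k[X])

/-- The polynomial `z ^ q - y` over the coordinate ring of `y ^ p = f`. -/
noncomputable def TF : (AdjoinRoot (SF p f))[X] := X ^ q - C (AdjoinRoot.root (SF p f))

lemma TF_monic (hq : q ≠ 0) : (TF p q f).Monic := monic_X_pow_sub_C _ hq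

lemma TF_root : (AdjoinRoot.root (TF p q f)) ^ q =
    AdjoinRoot.of (TF p q f) (AdjoinRoot.root (SF p f)) := by
  have h := AdjoinRoot.eval₂_root (TF p q f)
  rw [TF, eval₂_sub, eval₂_X_pow, eval₂_C] at h
  exact sub_eq_zero.mp h

/-- One direction of the identification. -/
noncomputable def towU : AdjoinRoot (SF (p * q) f) →+* AdjoinRoot (TF p q f) :=
  AdjoinRoot.lift ((AdjoinRoot.of (TF p q f)).comp (AdjoinRoot.of (SF p f)))
    (AdjoinRoot.root _) (by
      rw [eval₂_SF, mul_comm p q, pow_mul, TF_root, ← map_pow, root_pow, RingHom.comp_apply,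
        sub_self])

/-- The other direction of the identification. -/
noncomputable def towW : AdjoinRoot (TF p q f) →+* AdjoinRoot (SF (p * q) f) :=
  AdjoinRoot.lift (AdjoinRoot.lift (AdjoinRoot.of (SF (p * q) f)) (AdjoinRoot.root _ ^ q) (by
      rw [eval₂_SF, ← pow_mul, mul_comm q p, root_pow, sub_self]))
    (AdjoinRoot.root _) (by
      rw [TF, eval₂_sub, eval₂_X_pow, eval₂_C, AdjoinRoot.lift_root, sub_self])

lemma towWU : (towW p q f).comp (towU p q f) = RingHom.id _ := by
  refine AdjoinRoot.ringHom_ext ?_ ?_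
  · refine RingHom.ext fun a => ?_
    rw [RingHom.comp_apply, RingHom.comp_apply, towU, AdjoinRoot.lift_of, RingHom.comp_apply, towW,
      AdjoinRoot.lift_of, AdjoinRoot.lift_of]
    rfl
  · rw [RingHom.comp_apply, towU, AdjoinRoot.lift_root, towW, AdjoinRoot.lift_root]
    rfl

lemma towUW : (towU p q f).comp (towW p q f) = RingHom.id _ := by
  refine AdjoinRoot.ringHom_ext ?_ ?_
  · refine AdjoinRoot.ringHom_ext ?_ ?_
    · refine RingHom.ext fun a => ?_
      simp only [RingHom.comp_apply, towW, AdjoinRoot.lift_of, towU]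
      rfl
    · simp only [RingHom.comp_apply, towW, AdjoinRoot.lift_of, towU, AdjoinRoot.lift_root, map_pow]
      rw [TF_root]
      rfl
  · rw [RingHom.comp_apply, towW, AdjoinRoot.lift_root, towU, AdjoinRoot.lift_root]
    rfl

/-- The identification. -/
noncomputable def tow : AdjoinRoot (TF p q f) ≃+* AdjoinRoot (SF (p * q) f) :=
  RingEquiv.ofRingHom (towW p q f) (towU p q f) (towWU p q f) (towUW p q f)

/-- Passage from the exponent `p` to the exponent `p * q`. -/
theorem classes_mul (hq : q ≠ 0) [IsDomain (AdjoinRoot (SF p f))]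
    [hd : IsDomain (AdjoinRoot (SF (p * q) f))] {m : ℕ}
    (h : ∃ v : Fin m → Additive (ICl (AdjoinRoot (SF p f))), LinearIndependent ℤ v) :
    ∃ v : Fin m → Additive (ICl (AdjoinRoot (SF (p * q) f))), LinearIndependent ℤ v := by
  classical
  obtain ⟨v, hv⟩ := h
  have hmon := TF_monic p q f hq
  have hdeg : (TF p q f).natDegree = q := natDegree_X_pow_sub_C
  have hdT : IsDomain (AdjoinRoot (TF p q f)) := (tow p q f).toMulEquiv.isDomain
  set b := (AdjoinRoot.powerBasis' hmon).basis with hb
  have hdim : (AdjoinRoot.powerBasis' hmon).dim = q := by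
    rw [AdjoinRoot.powerBasis'_dim, hdeg]
  have hne : Nonempty (Fin (AdjoinRoot.powerBasis' hmon).dim) := by
    rw [hdim]
    exact ⟨⟨0, Nat.pos_of_ne_zero hq⟩⟩
  have hinj : Function.Injective
      (algebraMap (AdjoinRoot (SF p f)) (AdjoinRoot (TF p q f))) := by
    have : FaithfulSMul (AdjoinRoot (SF p f)) (AdjoinRoot (TF p q f)) := by
      have : Module.Free (AdjoinRoot (SF p f)) (AdjoinRoot (TF p q f)) := Module.Free.of_basis b
      infer_instance
    exact FaithfulSMul.algebraMap_injective _ _
  have h1 := linearIndependent_clMap b hinj hv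
  have hti : Function.Injective (tow p q f : AdjoinRoot (TF p q f) →+* AdjoinRoot (SF (p * q) f)) :=
    (tow p q f).injective
  have hsi : Function.Injective
      ((tow p q f).symm : AdjoinRoot (SF (p * q) f) →+* AdjoinRoot (TF p q f)) :=
    (tow p q f).symm.injective
  set E : Additive (ICl (AdjoinRoot (TF p q f))) →ₗ[ℤ] Additive (ICl (AdjoinRoot (SF (p * q) f))) :=
    (clMap (tow p q f : AdjoinRoot (TF p q f) →+* AdjoinRoot (SF (p * q) f))
      hti).toAdditive.toIntLinearMap with hE
  have hEi : Function.Injective E := by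
    have h3 : Function.Injective
        (clMap (tow p q f : AdjoinRoot (TF p q f) →+* AdjoinRoot (SF (p * q) f)) hti) := by
      intro x y hxy
      obtain ⟨I, hI, rfl⟩ := cls_surj x
      obtain ⟨J, hJ, rfl⟩ := cls_surj y
      have h4 := congrArg (clMap ((tow p q f).symm :
        AdjoinRoot (SF (p * q) f) →+* AdjoinRoot (TF p q f)) hsi) hxy
      have h5 : ∀ I : Ideal (AdjoinRoot (TF p q f)),
          (I.map (tow p q f : AdjoinRoot (TF p q f) →+* AdjoinRoot (SF (p * q) f))).map
            ((tow p q f).symm : AdjoinRoot (SF (p * q) f) →+* AdjoinRoot (TF p q f)) = I := by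
        intro I
        rw [Ideal.map_map]
        have h6 : (((tow p q f).symm : AdjoinRoot (SF (p * q) f) →+* AdjoinRoot (TF p q f)).comp
            (tow p q f : AdjoinRoot (TF p q f) →+* AdjoinRoot (SF (p * q) f))) =
            RingHom.id _ := by
          refine RingHom.ext fun x => ?_
          exact (tow p q f).symm_apply_apply x
        rw [h6, Ideal.map_id]
      simp only [clMap_cls, h5] at h4
      exact h4
    exact h3
  exact ⟨fun k => E _, h1.map_injOn E hEi.injOn⟩

end Tower

end Pool.Agent.MPab1e31.Se
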