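import Pool.Agent.MPab1e31Se.Fin
import Pool.Agent.MPab1e31Se.Up

/-!
# Infinite rank of class groups from independent ideal classes
-/

open scoped TensorProduct

open Polynomial

namespace Pool.Agent.MPab1e31.Se

open Pool.Agent.MPab1e31

theorem classes_of_dvd {k : Type*} [Field k] {n : ℕ} (hn : n ≠ 0) (f : k[X]) {p : ℕ}
    (hpn : p ∣ n) [IsDomain (AdjoinRoot (SF n f))]
    [IsDomain (AdjoinRoot (SF p f))] {m : ℕ}
    (h : ∃ v : Fin m → Additive (ICl (AdjoinRoot (SF p f))), LinearIndependent ℤ v) :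
    ∃ v : Fin m → Additive (ICl (AdjoinRoot (SF n f))), LinearIndependent ℤ v := by
  obtain ⟨q, rfl⟩ := hpn
  exact classes_mul p q f (right_ne_zero_of_mul hn) h

theorem infinite_rank_of_classes (S : Type*) [CommRing S] [IsDomain S]
    (h : ∀ m : ℕ, ∃ v : Fin m → Additive (ICl S), LinearIndependent ℤ v) :
    ¬ Module.Finite ℚ (ℚ ⊗[ℤ] Additive (ClassGroup S)) := by
  refine not_finite_of_independent fun m => ?_
  obtain ⟨v, hv⟩ := h m
  refine ⟨fun k => (toClassGroup (S := S)).toAdditive (v k), ?_⟩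
  exact hv.map_injOn (toClassGroup (S := S)).toAdditive.toIntLinearMap
    (toClassGroup_injective.injOn)

/-- Infinite rank for superelliptic curves, exponent with a prime factor not dividing the degree. -/
theorem rank_of_not_dvd (K : Type*) [Field K] [CharZero K] [Algebra.IsAlgebraic ℚ K]
    (hK : IsTopFG (AlgebraicClosure K ≃ₐ[K] AlgebraicClosure K)) {n : ℕ} (hn : n ≠ 0)
    (f : K[X]) (hd : 2 ≤ f.natDegree) (hsq : Squarefree f) {p : ℕ} (hp : p.Prime) (hpn : p ∣ n)
    (hpd : ¬ p ∣ f.natDegree) [IsDomain (AdjoinRoot (SF n f))] (m : ℕ) :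
    ∃ v : Fin m → Additive (ICl (AdjoinRoot (SF n f))), LinearIndependent ℤ v := by
  have : Fact p.Prime := ⟨hp⟩
  have hdom : IsDomain (AdjoinRoot (SF p f)) := isDomain_SF hp.ne_zero f hsq (by omega)
  exact classes_of_dvd hn f hpn (prime_classes K hK p f hd hpd
    (PerfectField.separable_iff_squarefree.mpr hsq) m)

end Pool.Agent.MPab1e31.Se
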