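import Pool.Agent.MPab1e31Se.Fin2
import Pool.Agent.MPab1e31Se.Rank

/-!
# Infinite rank of the class groups of superelliptic coordinate rings
-/

open scoped WithZero TensorProduct

open NumberField IsDedekindDomain Polynomial

namespace Pool.Agent.MPab1e31.Se

open Pool.Agent.MPab1e31 Pool.Agent.MPab1e31.Ev

section Descend

variable {F₀ K Ω : Type*} [Field F₀] [NumberField F₀] [Field K] [Field Ω]
    [Algebra F₀ K] [Algebra K Ω] [Algebra F₀ Ω] [IsScalarTower F₀ K Ω]
    [Algebra.IsAlgebraic F₀ K] [IsAlgClosed Ω] [Algebra.IsAlgebraic K Ω]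

/-- Independent classes over `K`. -/
theorem exists_classes' [CharZero Ω] [CharZero K] (p : ℕ) [hp : Fact p.Prime]
    (hfg : IsTopFG (Ω ≃ₐ[K] Ω)) (f₀ : F₀[X]) (hd : 3 ≤ f₀.natDegree) (hpd : p ∣ f₀.natDegree)
    (hsep : f₀.Separable) (f : K[X]) (hf : f₀.map (algebraMap F₀ K) = f)
    [IsDomain (AdjoinRoot (SF p f))] (m : ℕ) :
    ∃ v : Fin m → Additive (ICl (AdjoinRoot (SF p f))), LinearIndependent ℤ v := by
  classical
  have : IsAlgClosure K Ω := ⟨inferInstance, inferInstance⟩
  have : Normal K Ω := IsAlgClosure.normal K Ω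
  have : IsGalois K Ω := ⟨⟩
  have hp0 : p ≠ 0 := hp.out.ne_zero
  have hmon₀ : Fact (SF p f₀).Monic := ⟨SF_monic hp0 f₀⟩
  have hmon : Fact (SF p f).Monic := ⟨SF_monic hp0 f⟩
  have hF : cm (algebraMap F₀ Ω) (SF p f₀) = SF p (f₀.map (algebraMap F₀ Ω)) := cm_SF _ _ _
  have hG : cm (algebraMap K Ω) (SF p f) = cm (algebraMap F₀ Ω) (SF p f₀) := by
    rw [cm_SF, hF, ← hf, Polynomial.map_map, ← IsScalarTower.algebraMap_eq]
  have hGm : (cm (algebraMap F₀ Ω) (SF p f₀)).Monic := by
    rw [hF]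
    exact SF_monic hp0 _
  have hdom : IsDomain (AdjoinRoot (cm (algebraMap F₀ Ω) (SF p f₀))) := by
    rw [hF]
    refine isDomain_SF hp0 _ (hsep.map (f := algebraMap F₀ Ω)).squarefree ?_
    rw [natDegree_map]
    omega
  obtain ⟨v, hv, hfix⟩ := exists_points' (K := K) p hfg f₀ hd hpd hsep m
  have key : ∀ k : Fin m, ∃ n : ℕ, 0 < n ∧ ∃ d : ICl (AdjoinRoot (SF p f)),
      clMap (rmap (algebraMap K Ω) hG) (rmap_injective _ _ (Fact.out)) d = (v k).toMul ^ n := by
    intro k
    refine exists_pow_of_fixed' (SF p f) _ hG hGm (v k).toMul fun γ h => ?_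
    have h1 := hfix k γ
    rw [rho_apply] at h1
    exact Additive.ofMul.injective h1
  choose n hn d hd using key
  refine ⟨fun k => Additive.ofMul (d k), ?_⟩
  set E : Additive (ICl (AdjoinRoot (SF p f))) →ₗ[ℤ]
      Additive (ICl (AdjoinRoot (cm (algebraMap F₀ Ω) (SF p f₀)))) :=
    (clMap (rmap (algebraMap K Ω) hG)
      (rmap_injective _ _ (Fact.out))).toAdditive.toIntLinearMap with hE
  have hEd : ∀ k, E (Additive.ofMul (d k)) = (n k : ℤ) • v k := by
    intro k
    show Additive.ofMul (clMap (rmap (algebraMap K Ω) hG)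
      (rmap_injective _ _ (Fact.out)) (d k)) = _
    rw [hd, ofMul_pow, ofMul_toMul, natCast_zsmul]
  refine LinearIndependent.of_comp E ?_
  rw [linearIndependent_iff'] at hv ⊢
  intro s c hc k hk
  have h1 : ∑ i ∈ s, (c i * (n i : ℤ)) • v i = 0 := by
    rw [← hc]
    refine Finset.sum_congr rfl fun i _ => ?_
    rw [mul_smul, ← hEd]
    rfl
  have h2 := hv s _ h1 k hk
  have h4 : (n k : ℤ) ≠ 0 := by exact_mod_cast (hn k).ne'
  exact (mul_eq_zero.mp h2).resolve_right h4

end Descend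

section Prime

/-- The group of ideal classes, prime exponent dividing the degree. -/
theorem prime_classes' (K : Type*) [Field K] [CharZero K] [Algebra.IsAlgebraic ℚ K]
    (hK : IsTopFG (AlgebraicClosure K ≃ₐ[K] AlgebraicClosure K)) (p : ℕ) [hp : Fact p.Prime]
    (f : K[X]) (hd : 3 ≤ f.natDegree) (hpd : p ∣ f.natDegree) (hsep : f.Separable)
    [IsDomain (AdjoinRoot (SF p f))] (m : ℕ) :
    ∃ v : Fin m → Additive (ICl (AdjoinRoot (SF p f))), LinearIndependent ℤ v := by
  obtain ⟨F₀, hfin, f₀, hf₀⟩ := Ev.exists_model_poly K f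
  have : NumberField F₀ := ⟨⟩
  have : Algebra.IsAlgebraic F₀ K := Algebra.IsAlgebraic.tower_top (K := ℚ) F₀
  have hdeg₀ : f₀.natDegree = f.natDegree := by
    rw [← hf₀, Polynomial.natDegree_map]
  have hsep₀ : f₀.Separable := by
    rw [← hf₀] at hsep
    exact (Polynomial.separable_map _).mp hsep
  have : CharZero (AlgebraicClosure K) := charZero_of_injective_algebraMap
    (algebraMap K (AlgebraicClosure K)).injective
  exact exists_classes' (F₀ := F₀) (Ω := AlgebraicClosure K) p hK f₀ (by omega)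
    (by rw [hdeg₀]; exact hpd) hsep₀ f hf₀ m

/-- Prime exponent, all degrees at least `3`. -/
theorem prime_classes_all (K : Type*) [Field K] [CharZero K] [Algebra.IsAlgebraic ℚ K]
    (hK : IsTopFG (AlgebraicClosure K ≃ₐ[K] AlgebraicClosure K)) (p : ℕ) [hp : Fact p.Prime]
    (f : K[X]) (hd : 3 ≤ f.natDegree) (hsq : Squarefree f)
    [IsDomain (AdjoinRoot (SF p f))] (m : ℕ) :
    ∃ v : Fin m → Additive (ICl (AdjoinRoot (SF p f))), LinearIndependent ℤ v := by
  have hsep : f.Separable := PerfectField.separable_iff_squarefree.mpr hsq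
  by_cases hpd : p ∣ f.natDegree
  · exact prime_classes' K hK p f hd hpd hsep m
  · exact prime_classes K hK p f (by omega) hpd hsep m

end Prime

section Equiv

theorem classes_of_equiv {R S : Type*} [CommRing R] [CommRing S] [IsDomain R] [IsDomain S]
    (e : R ≃+* S) {m : ℕ} (h : ∃ v : Fin m → Additive (ICl R), LinearIndependent ℤ v) :
    ∃ v : Fin m → Additive (ICl S), LinearIndependent ℤ v := by
  obtain ⟨v, hv⟩ := h
  have hti : Function.Injective (e : R →+* S) := e.injective
  have hsi : Function.Injective (e.symm : S →+* R) := e.symm.injective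
  set E : Additive (ICl R) →ₗ[ℤ] Additive (ICl S) :=
    (clMap (e : R →+* S) hti).toAdditive.toIntLinearMap with hE
  have hEi : Function.Injective E := by
    have h3 : Function.Injective (clMap (e : R →+* S) hti) := by
      intro x y hxy
      obtain ⟨I, hI, rfl⟩ := cls_surj x
      obtain ⟨J, hJ, rfl⟩ := cls_surj y
      have h4 := congrArg (clMap (e.symm : S →+* R) hsi) hxy
      have h5 : ∀ I : Ideal R, (I.map (e : R →+* S)).map (e.symm : S →+* R) = I := by
        intro I
        rw [Ideal.map_map]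
        have h6 : ((e.symm : S →+* R).comp (e : R →+* S)) = RingHom.id _ :=
          RingHom.ext fun x => e.symm_apply_apply x
        rw [h6, Ideal.map_id]
      simp only [clMap_cls, h5] at h4
      exact h4
    exact h3
  exact ⟨fun k => E _, hv.map_injOn E hEi.injOn⟩

end Equiv

section Swap

variable {K : Type*} [Field K] [CharZero K]

/-- The quartic attached to a quadratic polynomial. -/
noncomputable def quart (a D : K) : K[X] := C (4 * a) * X ^ 4 + C D

lemma quart_natDegree {a D : K} (ha : a ≠ 0) : (quart a D).natDegree = 4 := by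
  have h4 : (4 * a : K) ≠ 0 := mul_ne_zero (by norm_num) ha
  rw [quart, natDegree_add_C, natDegree_C_mul_X_pow _ _ h4]

lemma quart_separable {a D : K} (hD : D ≠ 0) : (quart a D).Separable := by
  refine ⟨C D⁻¹, -(C (D⁻¹ * 4⁻¹) * X), ?_⟩
  have e1 : derivative (quart a D) = C (4 * a * 4) * X ^ 3 := by
    rw [quart, derivative_add, derivative_C, add_zero, derivative_C_mul_X_pow]
    norm_num
  have e2 : (C (D⁻¹ * 4⁻¹) * X * (C (4 * a * 4) * X ^ 3) : K[X]) =
      C (D⁻¹) * (C (4 * a) * X ^ 4) := by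
    have e3 : (C (D⁻¹ * 4⁻¹) * X * (C (4 * a * 4) * X ^ 3) : K[X]) =
        (C (D⁻¹ * 4⁻¹) * C (4 * a * 4)) * X ^ 4 := by ring
    have e5 : D⁻¹ * 4⁻¹ * (4 * a * 4) = D⁻¹ * (4 * a) := by ring
    rw [e3, ← C_mul, e5, C_mul, mul_assoc]
  have e4 : (C D⁻¹ * C D : K[X]) = 1 := by rw [← C_mul, inv_mul_cancel₀ hD, C_1]
  rw [e1, neg_mul, e2, quart]
  linear_combination e4

omit [CharZero K] in
lemma of_quart {R : Type*} [CommRing R] (o : K[X] →+* R) (a b c : K) :
    o (quart a (b ^ 2 - 4 * a * c)) =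
      4 * o (C a) * o X ^ 4 + (o (C b) ^ 2 - 4 * o (C a) * o (C c)) := by
  have hC4 : o (C 4) = 4 := by rw [show (C 4 : K[X]) = 4 from rfl, map_ofNat]
  rw [quart, map_add, map_mul, map_pow, C_mul, map_mul, hC4, C_sub, map_sub, C_mul, C_mul, map_mul,
    map_mul, hC4, C_pow, map_pow]

lemma two_inv {R : Type*} [CommRing R] (o : K[X] →+* R) {a : K} (ha : a ≠ 0) :
    2 * o (C (2 * a)⁻¹) * o (C a) = 1 := by
  have h2 : (2 * a : K) ≠ 0 := mul_ne_zero two_ne_zero ha
  have hC2 : o (C 2) = 2 := by rw [show (C 2 : K[X]) = 2 from rfl, map_ofNat]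
  have h3 : o (C ((2 * a)⁻¹ * (2 * a))) = 1 := by rw [inv_mul_cancel₀ h2, C_1, map_one]
  rw [C_mul, C_mul, map_mul, map_mul, hC2] at h3
  linear_combination h3

omit [CharZero K] in
lemma o_two {R : Type*} [CommRing R] (o : K[X] →+* R) : o (C 2) = 2 := by
  rw [show (C 2 : K[X]) = 2 from rfl, map_ofNat]

omit [CharZero K] in
lemma two_mul_C {R : Type*} [CommRing R] (o : K[X] →+* R) {a : K} :
    o (C (2 * a)) = 2 * o (C a) := by
  rw [C_mul, map_mul, o_two]

variable {f : K[X]} {a b c : K}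

/-- The change of roles of the two coordinates. -/
noncomputable def swU (hf : f = C a * X ^ 2 + C b * X + C c) (ha : a ≠ 0) :
    AdjoinRoot (SF 4 f) →+* AdjoinRoot (SF 2 (quart a (b ^ 2 - 4 * a * c))) :=
  AdjoinRoot.lift (eval₂RingHom ((AdjoinRoot.of _).comp C)
      (AdjoinRoot.of _ (C (2 * a)⁻¹) * (AdjoinRoot.root _ - AdjoinRoot.of _ (C b))))
    (AdjoinRoot.of _ X) (by
      have hr := root_pow 2 (quart a (b ^ 2 - 4 * a * c))
      rw [of_quart] at hr
      have hi := two_inv (AdjoinRoot.of (SF 2 (quart a (b ^ 2 - 4 * a * c)))) ha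
      rw [eval₂_SF, coe_eval₂RingHom, hf, eval₂_add, eval₂_add, eval₂_mul, eval₂_mul, eval₂_pow,
        eval₂_X, eval₂_C, eval₂_C, eval₂_C, RingHom.comp_apply, RingHom.comp_apply,
        RingHom.comp_apply]
      generalize AdjoinRoot.root (SF 2 (quart a (b ^ 2 - 4 * a * c))) = ρ at hr ⊢
      generalize AdjoinRoot.of (SF 2 (quart a (b ^ 2 - 4 * a * c))) (C (2 * a)⁻¹) = i at hi ⊢
      generalize AdjoinRoot.of (SF 2 (quart a (b ^ 2 - 4 * a * c))) (C a) = α at hr hi ⊢
      generalize AdjoinRoot.of (SF 2 (quart a (b ^ 2 - 4 * a * c))) (C b) = β at hr ⊢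
      generalize AdjoinRoot.of (SF 2 (quart a (b ^ 2 - 4 * a * c))) (C c) = γ at hr ⊢
      generalize AdjoinRoot.of (SF 2 (quart a (b ^ 2 - 4 * a * c))) X = x at hr ⊢
      have key : 4 * α * x ^ 4 = 4 * α * (α * (i * (ρ - β)) ^ 2 + β * (i * (ρ - β)) + γ) := by
        linear_combination (-1) * hr -
          ((2 * i * α + 1) * (ρ - β) ^ 2 + 2 * β * (ρ - β)) * hi
      linear_combination i ^ 2 * α * key - (2 * i * α + 1) *
        (x ^ 4 - (α * (i * (ρ - β)) ^ 2 + β * (i * (ρ - β)) + γ)) * hi)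

/-- The inverse of the change of roles of the two coordinates. -/
noncomputable def swW (hf : f = C a * X ^ 2 + C b * X + C c) :
    AdjoinRoot (SF 2 (quart a (b ^ 2 - 4 * a * c))) →+* AdjoinRoot (SF 4 f) :=
  AdjoinRoot.lift (eval₂RingHom ((AdjoinRoot.of _).comp C) (AdjoinRoot.root _))
    (AdjoinRoot.of _ (C (2 * a)) * AdjoinRoot.of _ X + AdjoinRoot.of _ (C b)) (by
      have hr := root_pow 4 f
      have hf' : AdjoinRoot.of (SF 4 f) f = AdjoinRoot.of (SF 4 f) (C a) *
          AdjoinRoot.of (SF 4 f) X ^ 2 + AdjoinRoot.of (SF 4 f) (C b) * AdjoinRoot.of (SF 4 f) X +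
          AdjoinRoot.of (SF 4 f) (C c) := by
        have h1 := congrArg (AdjoinRoot.of (SF 4 f)) hf
        rw [map_add, map_add, map_mul, map_mul, map_pow] at h1
        exact h1
      rw [hf'] at hr
      rw [eval₂_SF, of_quart, two_mul_C, coe_eval₂RingHom, eval₂_C, eval₂_C, eval₂_C, eval₂_X,
        RingHom.comp_apply, RingHom.comp_apply, RingHom.comp_apply]
      linear_combination (-4 * AdjoinRoot.of (SF 4 f) (C a)) * hr)

lemma swWU (hf : f = C a * X ^ 2 + C b * X + C c) (ha : a ≠ 0) :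
    (swW hf).comp (swU hf ha) = RingHom.id _ := by
  refine AdjoinRoot.ringHom_ext ?_ ?_
  · refine Polynomial.ringHom_ext' ?_ ?_
    · refine RingHom.ext fun k => ?_
      simp only [RingHom.comp_apply, swU, swW, AdjoinRoot.lift_of, coe_eval₂RingHom, eval₂_C]
      rfl
    · simp only [RingHom.comp_apply, swU, AdjoinRoot.lift_of, coe_eval₂RingHom, eval₂_X, swW,
        map_mul, map_sub, AdjoinRoot.lift_root, eval₂_C]
      have hi := two_inv (AdjoinRoot.of (SF 4 f)) ha
      rw [o_two, RingHom.id_apply]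
      linear_combination (AdjoinRoot.of (SF 4 f) X) * hi
  · simp only [RingHom.comp_apply, swU, AdjoinRoot.lift_root, swW, AdjoinRoot.lift_of,
      coe_eval₂RingHom, eval₂_X]
    rfl

lemma swUW (hf : f = C a * X ^ 2 + C b * X + C c) (ha : a ≠ 0) :
    (swU hf ha).comp (swW hf) = RingHom.id _ := by
  refine AdjoinRoot.ringHom_ext ?_ ?_
  · refine Polynomial.ringHom_ext' ?_ ?_
    · refine RingHom.ext fun k => ?_
      simp only [RingHom.comp_apply, swU, swW, AdjoinRoot.lift_of, coe_eval₂RingHom, eval₂_C]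
      rfl
    · simp only [RingHom.comp_apply, swU, AdjoinRoot.lift_of, coe_eval₂RingHom, eval₂_X, swW,
        AdjoinRoot.lift_root]
      rfl
  · simp only [RingHom.comp_apply, swW, AdjoinRoot.lift_root, map_add, map_mul, swU,
      AdjoinRoot.lift_of, coe_eval₂RingHom, eval₂_X, eval₂_C]
    have hi := two_inv (AdjoinRoot.of (SF 2 (quart a (b ^ 2 - 4 * a * c)))) ha
    rw [o_two, RingHom.id_apply]
    linear_combination (AdjoinRoot.root (SF 2 (quart a (b ^ 2 - 4 * a * c))) -
      AdjoinRoot.of (SF 2 (quart a (b ^ 2 - 4 * a * c))) (C b)) * hi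

/-- The identification. -/
noncomputable def sw (hf : f = C a * X ^ 2 + C b * X + C c) (ha : a ≠ 0) :
    AdjoinRoot (SF 2 (quart a (b ^ 2 - 4 * a * c))) ≃+* AdjoinRoot (SF 4 f) :=
  RingEquiv.ofRingHom (swW hf) (swU hf ha) (swWU hf ha) (swUW hf ha)

end Swap

section Final

/-- Exponent `4`, degree `2`. -/
theorem four_classes (K : Type*) [Field K] [CharZero K] [Algebra.IsAlgebraic ℚ K]
    (hK : IsTopFG (AlgebraicClosure K ≃ₐ[K] AlgebraicClosure K)) (f : K[X])
    (hd : f.natDegree = 2) (hsq : Squarefree f) [IsDomain (AdjoinRoot (SF 4 f))] (m : ℕ) :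
    ∃ v : Fin m → Additive (ICl (AdjoinRoot (SF 4 f))), LinearIndependent ℤ v := by
  have hf0 : f ≠ 0 := by
    rintro rfl
    rw [natDegree_zero] at hd
    omega
  set a := f.coeff 2 with ha'
  set b := f.coeff 1 with hb'
  set c := f.coeff 0 with hc'
  have hf : f = C a * X ^ 2 + C b * X + C c :=
    eq_quadratic_of_degree_le_two (by
      rw [degree_eq_natDegree hf0, hd]
      exact le_refl _)
  have ha : a ≠ 0 := by
    rw [ha', ← hd]
    exact leadingCoeff_ne_zero.mpr hf0
  have h2a : (2 * a : K) ≠ 0 := mul_ne_zero two_ne_zero ha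
  have hD : b ^ 2 - 4 * a * c ≠ 0 := by
    intro hD
    have h1 : C (4 * a) * f = (C (2 * a) * X + C b) ^ 2 := by
      have h2 : (C (b ^ 2 - 4 * a * c) : K[X]) = 0 := by rw [hD, C_0]
      rw [C_sub, C_mul, C_mul, C_pow] at h2
      have h3 : (C 4 : K[X]) = 4 := rfl
      have h5 : (C 2 : K[X]) = 2 := rfl
      conv_lhs => rw [hf]
      rw [C_mul, C_mul, h5]
      rw [h3] at h2 ⊢
      linear_combination -h2
    have h4 : (C (2 * a) * X + C b) * (C (2 * a) * X + C b) ∣ f := by
      refine ⟨C (4 * a)⁻¹, ?_⟩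
      rw [← sq, ← h1, mul_comm _ (C (4 * a)⁻¹), ← mul_assoc, ← C_mul, inv_mul_cancel₀
        (mul_ne_zero (by norm_num) ha), C_1, one_mul]
    have h5 := natDegree_eq_zero_of_isUnit (hsq _ h4)
    rw [natDegree_linear h2a] at h5
    exact one_ne_zero h5
  have hsep := quart_separable (a := a) hD
  have hdeg := quart_natDegree (D := b ^ 2 - 4 * a * c) ha
  have hdom : IsDomain (AdjoinRoot (SF 2 (quart a (b ^ 2 - 4 * a * c)))) :=
    isDomain_SF two_ne_zero _ hsep.squarefree (by omega)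
  exact classes_of_equiv (sw hf ha) (prime_classes_all K hK 2 _ (by omega) hsep.squarefree m)

/-- **Infinite rank for superelliptic curves.** -/
theorem superelliptic_classes (K : Type*) [Field K] [CharZero K] [Algebra.IsAlgebraic ℚ K]
    (hK : IsTopFG (AlgebraicClosure K ≃ₐ[K] AlgebraicClosure K)) {n : ℕ} (hn : 3 ≤ n) (f : K[X])
    (hd : 2 ≤ f.natDegree) (hsq : Squarefree f) [IsDomain (AdjoinRoot (SF n f))] (m : ℕ) :
    ∃ v : Fin m → Additive (ICl (AdjoinRoot (SF n f))), LinearIndependent ℤ v := by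
  rcases Nat.lt_or_ge 2 f.natDegree with h3 | h3
  · have hp : n.minFac.Prime := Nat.minFac_prime (by omega)
    have : Fact n.minFac.Prime := ⟨hp⟩
    have hdom : IsDomain (AdjoinRoot (SF n.minFac f)) := isDomain_SF hp.ne_zero f hsq (by omega)
    exact classes_of_dvd (by omega) f n.minFac_dvd
      (prime_classes_all K hK n.minFac f (by omega) hsq m)
  · have hd2 : f.natDegree = 2 := le_antisymm h3 hd
    by_cases hodd : ∃ p : ℕ, p.Prime ∧ p ∣ n ∧ p ≠ 2
    · obtain ⟨p, hp, hpn, hp2⟩ := hodd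
      refine rank_of_not_dvd K hK (by omega) f hd hsq hp hpn ?_ m
      rw [hd2, Nat.prime_dvd_prime_iff_eq hp Nat.prime_two]
      exact hp2
    · have h1 : n = 2 ^ n.primeFactorsList.length :=
        Nat.eq_prime_pow_of_unique_prime_dvd (by omega) (by
          intro q hq hqn
          by_contra hq2
          exact hodd ⟨q, hq, hqn, hq2⟩)
      have h4 : 4 ∣ n := by
        rw [h1, show 4 = 2 ^ 2 from rfl]
        refine pow_dvd_pow 2 ?_
        by_contra h5
        push Not at h5
        have h6 : n ≤ 2 ^ 1 := by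
          rw [h1]
          exact Nat.pow_le_pow_right (by norm_num) (by omega)
        omega
      have hdom : IsDomain (AdjoinRoot (SF 4 f)) := isDomain_SF (by norm_num) f hsq (by omega)
      exact classes_of_dvd (by omega) f h4 (four_classes K hK f hd2 hsq m)

end Final

end Pool.Agent.MPab1e31.Se
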