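import Pool.Agent.MPab1e31Se.Desc

/-!
# Galois invariant ideal classes are, up to a multiple, extended from the base
-/

open Polynomial

namespace Pool.Agent.MPab1e31.Se

open Pool.Agent.MPab1e31

section

variable {K Ω : Type*} [Field K] [Field Ω] [Algebra K Ω] (F : K[X][X])

/-- The coordinate ring over `Ω`. -/
abbrev RO {K : Type*} (Ω : Type*) [Field K] [Field Ω] [Algebra K Ω] (F : K[X][X]) : Type _ :=
  AdjoinRoot (cm (algebraMap K Ω) F)

lemma act_mul (γ γ' : Ω ≃ₐ[K] Ω) : act F (γ * γ') = (act F γ).comp (act F γ') := by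
  refine RingHom.ext fun z => ?_
  rw [RingHom.comp_apply, act, act, act, rmap_rmap]
  rfl

lemma act_one : act F (1 : Ω ≃ₐ[K] Ω) = RingHom.id _ := by
  refine RingHom.ext fun z => ?_
  obtain ⟨p, rfl⟩ := AdjoinRoot.mk_surjective z
  rw [act, rmap_mk]
  exact congrArg _ (cm_id p)

variable [hF : Fact F.Monic]

lemma act_injective (γ : Ω ≃ₐ[K] Ω) : Function.Injective (act F γ) :=
  rmap_injective _ _ (hF.out.map _)

lemma ext_injective : Function.Injective (ext F : AdjoinRoot F →+* RO Ω F) :=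
  rmap_injective _ _ hF.out

lemma exists_ext_of_fixed [IsGalois K Ω] (z : RO Ω F)
    (hz : ∀ γ : Ω ≃ₐ[K] Ω, act F γ z = z) : ∃ w : AdjoinRoot F, ext F w = z := by
  have hF' : (cm (algebraMap K Ω) F).Monic := hF.out.map _
  obtain ⟨p, rfl⟩ := AdjoinRoot.mk_surjective z
  set q := p %ₘ cm (algebraMap K Ω) F with hq
  have hpq : AdjoinRoot.mk (cm (algebraMap K Ω) F) p = AdjoinRoot.mk _ q := by
    rw [AdjoinRoot.mk_eq_mk, hq, modByMonic_eq_sub_mul_div, sub_sub_cancel]
    exact Dvd.intro _ rfl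
  have hfix : ∀ γ : Ω ≃ₐ[K] Ω, cm (γ : Ω →+* Ω) q = q := by
    intro γ
    have h1 := hz γ
    rw [hpq, act, rmap_mk, AdjoinRoot.mk_eq_mk, ← modByMonic_eq_zero_iff_dvd hF',
      sub_modByMonic] at h1
    have h3 : q %ₘ cm (algebraMap K Ω) F = q :=
      (modByMonic_eq_self_iff hF').mpr (degree_modByMonic_lt _ hF')
    have h2 : cm (γ : Ω →+* Ω) q %ₘ cm (algebraMap K Ω) F = cm (γ : Ω →+* Ω) q := by
      conv_lhs => rw [← cm_aut F γ]
      rw [cm_apply (γ : Ω →+* Ω) q, cm_apply (γ : Ω →+* Ω) (cm (algebraMap K Ω) F),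
        ← map_modByMonic _ hF', h3]
    rw [h2, h3] at h1
    exact sub_eq_zero.mp h1
  obtain ⟨r, hr⟩ := exists_cm_of_coeff (algebraMap K Ω) q (by
    intro i j
    refine (InfiniteGalois.mem_range_algebraMap_iff_fixed (k := K) (K := Ω) _).mpr fun γ => ?_
    have h2 := congrArg (fun q => (Polynomial.coeff q i).coeff j) (hfix γ)
    simp only [coeff_cm, coeff_map] at h2
    exact h2)
  refine ⟨AdjoinRoot.mk F r, ?_⟩
  rw [ext, rmap_mk, hr, hpq]

/-- A finite Galois extension containing the coefficients of finitely many elements. -/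
lemma exists_finite_galois [IsGalois K Ω] (s : Finset (RO Ω F)) :
    ∃ M : FiniteGaloisIntermediateField K Ω, ∀ z ∈ s, ∀ γ γ' : Ω ≃ₐ[K] Ω,
      (∀ x ∈ M.toIntermediateField, γ x = γ' x) → act F γ z = act F γ' z := by
  classical
  have hsurj := fun z : RO Ω F => AdjoinRoot.mk_surjective z
  choose p hp using hsurj
  set t : Finset Ω := s.biUnion fun z => (p z).coeffs.biUnion Polynomial.coeffs with ht
  refine ⟨FiniteGaloisIntermediateField.adjoin K (t : Set Ω), fun z hz γ γ' h => ?_⟩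
  have h1 : ∀ x ∈ t, γ x = γ' x := fun x hx =>
    h x (FiniteGaloisIntermediateField.subset_adjoin K (t : Set Ω) hx)
  rw [← hp z, act, rmap_mk, act, rmap_mk]
  congr 1
  ext i j
  rw [coeff_cm, coeff_cm, coeff_map, coeff_map]
  by_cases h0 : ((p z).coeff i).coeff j = 0
  · rw [h0, map_zero, map_zero]
  · refine h1 _ (Finset.mem_biUnion.mpr ⟨z, hz, Finset.mem_biUnion.mpr
      ⟨(p z).coeff i, Polynomial.coeff_mem_coeffs ?_, Polynomial.coeff_mem_coeffs h0⟩⟩)
    intro h2
    rw [h2, coeff_zero] at h0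
    exact h0 rfl

section Norm

variable (M : FiniteGaloisIntermediateField K Ω)

/-- The norm of an ideal. -/
noncomputable def nrmI [IsGalois K Ω] (I : Ideal (RO Ω F)) :
    Ideal (RO Ω F) :=
  ∏ σ : M.toIntermediateField ≃ₐ[K] M.toIntermediateField, I.map (act F (σ.liftNormal Ω))

/-- The norm of an element. -/
noncomputable def nrmE [IsGalois K Ω] (z : RO Ω F) :
    RO Ω F :=
  ∏ σ : M.toIntermediateField ≃ₐ[K] M.toIntermediateField, act F (σ.liftNormal Ω) z

lemma lift_mul_agree [IsGalois K Ω] (γ : Ω ≃ₐ[K] Ω)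
    (σ : M.toIntermediateField ≃ₐ[K] M.toIntermediateField) :
    ∀ x ∈ M.toIntermediateField, (γ * σ.liftNormal Ω) x =
      (((γ.restrictNormal M.toIntermediateField) * σ).liftNormal Ω) x := by
  intro x hx
  have h1 := AlgEquiv.liftNormal_commutes σ Ω (⟨x, hx⟩ : M.toIntermediateField)
  have h2 := AlgEquiv.liftNormal_commutes ((γ.restrictNormal M.toIntermediateField) * σ) Ω
    (⟨x, hx⟩ : M.toIntermediateField)
  have h3 := AlgEquiv.restrictNormal_commutes γ M.toIntermediateField (σ ⟨x, hx⟩)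
  have h4 : algebraMap M.toIntermediateField Ω ⟨x, hx⟩ = x := rfl
  rw [h4] at h1 h2
  rw [h2, AlgEquiv.mul_apply, AlgEquiv.mul_apply, h3, h1]

lemma act_nrmE [IsGalois K Ω] (z : RO Ω F)
    (hM : ∀ γ γ' : Ω ≃ₐ[K] Ω,
      (∀ x ∈ M.toIntermediateField, γ x = γ' x) → act F γ z = act F γ' z) (γ : Ω ≃ₐ[K] Ω) :
    act F γ (nrmE F M z) = nrmE F M z := by
  rw [nrmE, map_prod]
  refine Fintype.prod_equiv (Equiv.mulLeft (γ.restrictNormal M.toIntermediateField)) _ _ fun σ => ?_
  rw [Equiv.coe_mulLeft, ← hM _ _ (lift_mul_agree M γ σ), act_mul]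
  rfl

lemma map_act_eq (s : Set (RO Ω F)) (γ γ' : Ω ≃ₐ[K] Ω)
    (h : ∀ z ∈ s, act F γ z = act F γ' z) :
    (Ideal.span s).map (act F γ) = (Ideal.span s).map (act F γ') := by
  rw [Ideal.map_span, Ideal.map_span, Set.image_congr h]

lemma map_nrmI [IsGalois K Ω] (s : Set (RO Ω F))
    (hM : ∀ z ∈ s, ∀ γ γ' : Ω ≃ₐ[K] Ω,
      (∀ x ∈ M.toIntermediateField, γ x = γ' x) → act F γ z = act F γ' z) (γ : Ω ≃ₐ[K] Ω) :
    (nrmI F M (Ideal.span s)).map (act F γ) = nrmI F M (Ideal.span s) := by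
  rw [nrmI]
  have h0 := map_prod (Ideal.mapHom (act F γ))
    (fun σ : M.toIntermediateField ≃ₐ[K] M.toIntermediateField =>
      (Ideal.span s).map (act F (σ.liftNormal Ω))) Finset.univ
  refine Eq.trans h0 ?_
  refine Fintype.prod_equiv (Equiv.mulLeft (γ.restrictNormal M.toIntermediateField)) _ _ fun σ => ?_
  rw [Equiv.coe_mulLeft]
  show ((Ideal.span s).map (act F (σ.liftNormal Ω))).map (act F γ) = _
  rw [Ideal.map_map, ← act_mul]
  exact map_act_eq F s _ _ fun z hz => hM z hz _ _ (lift_mul_agree M γ σ)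

end Norm

variable [IsDomain (AdjoinRoot F)] [IsDomain (RO Ω F)]

/-- The Galois action on ideal classes. -/
noncomputable def actCl (γ : Ω ≃ₐ[K] Ω) :
    ICl (RO Ω F) →* ICl (RO Ω F) :=
  clMap (act F γ) (act_injective F γ)

/-- The extension map on ideal classes. -/
noncomputable def extCl : ICl (AdjoinRoot F) →* ICl (RO Ω F) :=
  clMap (ext F) (ext_injective F)

/-- A positive power of a Galois invariant ideal class comes from the base. -/
theorem exists_pow_of_fixed [IsGalois K Ω] (c : ICl (RO Ω F))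
    (hc : ∀ γ : Ω ≃ₐ[K] Ω, actCl F γ c = c) :
    ∃ n : ℕ, 0 < n ∧ ∃ d : ICl (AdjoinRoot F), extCl F d = c ^ n := by
  classical
  obtain ⟨I, hI, rfl⟩ := cls_surj c
  obtain ⟨J, h, hh, hIJ⟩ := hI
  have hnoeth : IsNoetherianRing (RO Ω F) := inferInstance
  obtain ⟨s, hs⟩ := (isNoetherianRing_iff_ideal_fg _).mp hnoeth I
  obtain ⟨t, ht⟩ := (isNoetherianRing_iff_ideal_fg _).mp hnoeth J
  have hs' : Ideal.span (s : Set (RO Ω F)) = I := hs
  have ht' : Ideal.span (t : Set (RO Ω F)) = J := ht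
  obtain ⟨M, hM⟩ := exists_finite_galois F (s ∪ t ∪ {h})
  have hMs : ∀ z ∈ (s : Set (RO Ω F)), ∀ γ γ' : Ω ≃ₐ[K] Ω,
      (∀ x ∈ M.toIntermediateField, γ x = γ' x) → act F γ z = act F γ' z := fun z hz =>
    hM z (by
      rw [Finset.mem_union, Finset.mem_union]
      exact Or.inl (Or.inl hz))
  have hMt : ∀ z ∈ (t : Set (RO Ω F)), ∀ γ γ' : Ω ≃ₐ[K] Ω,
      (∀ x ∈ M.toIntermediateField, γ x = γ' x) → act F γ z = act F γ' z := fun z hz =>
    hM z (by
      rw [Finset.mem_union, Finset.mem_union]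
      exact Or.inl (Or.inr hz))
  have hMh := hM h (by simp)
  -- the norms
  obtain ⟨h₀, hh₀⟩ := exists_ext_of_fixed F (nrmE F M h) (act_nrmE F M h hMh)
  have hne : nrmE F M h ≠ 0 := by
    rw [nrmE]
    exact Finset.prod_ne_zero_iff.mpr fun σ _ => (map_ne_zero_iff _ (act_injective F _)).mpr hh
  have hh₀0 : h₀ ≠ 0 := by
    rintro rfl
    rw [map_zero] at hh₀
    exact hne hh₀.symm
  have hprod : nrmI F M I * nrmI F M J = Ideal.span {nrmE F M h} := by
    rw [nrmI, nrmI, nrmE, ← Finset.prod_mul_distrib]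
    have h1 : ∀ σ ∈ (Finset.univ : Finset (M.toIntermediateField ≃ₐ[K] M.toIntermediateField)),
        I.map (act F (σ.liftNormal Ω)) * J.map (act F (σ.liftNormal Ω)) =
        Ideal.span {act F (σ.liftNormal Ω) h} := by
      intro σ _
      rw [← Ideal.map_mul, hIJ, Ideal.map_span, Set.image_singleton]
    rw [Finset.prod_congr rfl h1, Ideal.prod_span_singleton]
  have hstab : ∀ (S : Set (RO Ω F)),
      (∀ z ∈ S, ∀ γ γ' : Ω ≃ₐ[K] Ω,
      (∀ x ∈ M.toIntermediateField, γ x = γ' x) → act F γ z = act F γ' z) →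
      ((nrmI F M (Ideal.span S)).comap (ext F)).map (ext F) = nrmI F M (Ideal.span S) := by
    intro S hS
    refine descent_ideal F _ fun γ z hz => ?_
    rw [← map_nrmI F M S hS γ]
    exact Ideal.mem_map_of_mem _ hz
  have hI0 := hstab _ hMs
  have hJ0 := hstab _ hMt
  rw [hs'] at hI0
  rw [ht'] at hJ0
  set I₀ := (nrmI F M I).comap (ext F) with hI₀
  set J₀ := (nrmI F M J).comap (ext F) with hJ₀
  have hprod0 : I₀ * J₀ = Ideal.span {h₀} := by
    have h1 : (I₀ * J₀).map (ext F) = (Ideal.span {h₀}).map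
        (ext F : AdjoinRoot F →+* RO Ω F) := by
      rw [Ideal.map_mul, hI0, hJ0, hprod, Ideal.map_span, Set.image_singleton, hh₀]
    have h2 := congrArg (Ideal.comap (ext F)) h1
    rw [comap_map_ext F hF.out, comap_map_ext F hF.out] at h2
    exact h2
  have hI₀mem : I₀ ∈ InvIdeals (AdjoinRoot F) := ⟨J₀, h₀, hh₀0, hprod0⟩
  refine ⟨Fintype.card (M.toIntermediateField ≃ₐ[K] M.toIntermediateField), Fintype.card_pos,
    cls I₀ hI₀mem, ?_⟩
  rw [extCl, clMap_cls]
  have hIm : I ∈ InvIdeals (RO Ω F) := ⟨J, h, hh, hIJ⟩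
  have h3 : ∀ γ : Ω ≃ₐ[K] Ω, cls (I.map (act F γ)) (map_mem_invIdeals _ (act_injective F γ) hIm) =
      cls I hIm := fun γ => hc γ
  have h4 := cls_prod (Finset.univ : Finset (M.toIntermediateField ≃ₐ[K] M.toIntermediateField))
    (fun σ => I.map (act F (σ.liftNormal Ω)))
    (fun σ => map_mem_invIdeals _ (act_injective F _) hIm)
  have h5 : ∏ σ : M.toIntermediateField ≃ₐ[K] M.toIntermediateField,
      cls (I.map (act F (σ.liftNormal Ω))) (map_mem_invIdeals _ (act_injective F _) hIm) =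
      cls I hIm ^ Fintype.card (M.toIntermediateField ≃ₐ[K] M.toIntermediateField) :=
    (Finset.prod_congr rfl fun σ _ => h3 (σ.liftNormal Ω)).trans
      ((Finset.prod_const _).trans (by rw [Finset.card_univ]))
  refine Eq.trans ?_ (h4.trans h5)
  congr 1

end

end Pool.Agent.MPab1e31.Se
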