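import Pool.Agent.MPab1e31.Main

/-!
# Kummer theory: moving one root and fixing others
-/

namespace Pool.Agent.MPab1e31.Se

open Pool.Agent.MPab1e31

section Flip

variable {L Ω : Type*} [Field L] [CharZero L] [Field Ω] [Algebra L Ω]

omit [CharZero L] in
lemma pow_apply_of (h : Ω ≃ₐ[L] Ω) {r η : Ω} (h1 : h r = η * r) (h2 : h η = η) (i : ℕ) :
    (h ^ i) r = η ^ i * r := by
  induction i with
  | zero => simp
  | succ i ih =>
    rw [pow_succ', AlgEquiv.mul_apply, ih, map_mul, map_pow, h1, h2, pow_succ]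
    ring

/-- Kummer theory: a `p`-th root fixed by all automorphisms fixing the roots of elements in the
kernel of `χ`. -/
theorem chi_eq_one [IsAlgClosed Ω] [Algebra.IsAlgebraic L Ω] (p : ℕ) [hp : Fact p.Prime]
    (hμ : ∀ ω : Ω, ω ^ p = 1 → ∃ l : L, algebraMap L Ω l = ω) {G : Type*} [CommGroup G]
    (hG : ∀ x : G, x ^ p = 1) (χ : Lˣ →* G) (Z : Finset Lˣ) (hZ : ∀ z ∈ Z, χ z = 1) :
    ∀ (c : Lˣ) (r : Ω), r ^ p = algebraMap L Ω c →
      (∀ g : Ω ≃ₐ[L] Ω, (∀ z ∈ Z, ∀ r' : Ω, r' ^ p = algebraMap L Ω z → g r' = r') → g r = r) →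
      χ c = 1 := by
  classical
  have hp0 : p ≠ 0 := hp.out.ne_zero
  have : CharZero Ω := charZero_of_injective_algebraMap (algebraMap L Ω).injective
  have hμfix : ∀ (g : Ω ≃ₐ[L] Ω) (ω : Ω), ω ^ p = 1 → g ω = ω := by
    intro g ω hω
    obtain ⟨l, rfl⟩ := hμ ω hω
    exact g.commutes l
  have hne : ∀ (c : Lˣ) (r : Ω), r ^ p = algebraMap L Ω c → r ≠ 0 := by
    rintro c r hr rfl
    rw [zero_pow hp0] at hr
    exact c.ne_zero ((map_eq_zero _).mp hr.symm)
  induction Z using Finset.induction_on with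
  | empty =>
    intro c r hr hfix
    have : IsAlgClosure L Ω := ⟨inferInstance, inferInstance⟩
    have : Normal L Ω := IsAlgClosure.normal L Ω
    have : IsGalois L Ω := ⟨⟩
    obtain ⟨l, hl⟩ := (InfiniteGalois.mem_range_algebraMap_iff_fixed (k := L) (K := Ω) r).mpr
      fun g => hfix g fun z hz => absurd hz (Finset.notMem_empty z)
    rw [← hl, ← map_pow] at hr
    have h1 : l ^ p = c := (algebraMap L Ω).injective hr
    have hl0 : l ≠ 0 := by
      rintro rfl
      rw [zero_pow hp0] at h1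
      exact c.ne_zero h1.symm
    have h2 : c = (Units.mk0 l hl0) ^ p := by
      ext
      rw [Units.val_pow_eq_pow_val, Units.val_mk0, h1]
    rw [h2, map_pow, hG]
  | insert z Z hz ih =>
    have ih' := ih fun z' hz' => hZ z' (Finset.mem_insert_of_mem hz')
    intro c r hr hfix
    obtain ⟨rz, hrz⟩ := IsAlgClosed.exists_pow_nat_eq (algebraMap L Ω (z : L))
      (Nat.pos_of_ne_zero hp0)
    have hrz0 : rz ≠ 0 := hne z rz hrz
    have hr0 : r ≠ 0 := hne c r hr
    by_cases hcase : ∀ h : Ω ≃ₐ[L] Ω,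
        (∀ z ∈ Z, ∀ r' : Ω, r' ^ p = algebraMap L Ω z → h r' = r') → h rz = rz
    · refine ih' c r hr fun h hh => hfix h fun z' hz' r' hr' => ?_
      rcases Finset.mem_insert.mp hz' with rfl | hz'
      · have e1 : (r' / rz) ^ p = 1 := by
          rw [div_pow, hr', hrz, div_self]
          exact (_root_.map_ne_zero _).mpr z'.ne_zero
        have e2 : r' = (r' / rz) * rz := by field_simp
        rw [e2, map_mul, hμfix h _ e1, hcase h hh]
      · exact hh z' hz' r' hr'
    · push Not at hcase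
      obtain ⟨h₀, hh₀, hne₀⟩ := hcase
      -- ratios
      have hratio : ∀ (h : Ω ≃ₐ[L] Ω) (c : Lˣ) (r : Ω), r ^ p = algebraMap L Ω c →
          (h r / r) ^ p = 1 ∧ h r = (h r / r) * r := by
        intro h c r hr
        have hr0 := hne c r hr
        refine ⟨?_, by field_simp⟩
        rw [div_pow, ← map_pow, hr, AlgEquiv.commutes, div_self]
        exact (_root_.map_ne_zero _).mpr c.ne_zero
      set ω₀ := h₀ rz / rz with hω₀
      obtain ⟨hω₀p, hω₀r⟩ := hratio h₀ z rz hrz
      have hω₀1 : ω₀ ≠ 1 := by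
        intro h1
        apply hne₀
        rw [hω₀r, ← hω₀, h1, one_mul]
      have hprim : IsPrimitiveRoot ω₀ p := by
        rw [IsPrimitiveRoot.iff_orderOf]
        exact orderOf_eq_prime hω₀p hω₀1
      set η := h₀ r / r with hη
      obtain ⟨hηp, hηr⟩ := hratio h₀ c r hr
      obtain ⟨j, -, hj⟩ := hprim.eq_pow_of_pow_eq_one hηp
      have hj' : ω₀ ^ j = η := hj
      have hc' : (r * (rz ^ j)⁻¹) ^ p = algebraMap L Ω ((c * (z ^ j)⁻¹ : Lˣ) : L) := by
        rw [mul_pow, hr, Units.val_mul, map_mul, Units.val_inv_eq_inv_val, map_inv₀, inv_pow,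
          ← pow_mul, mul_comm j p, pow_mul, hrz, Units.val_pow_eq_pow_val, map_pow]
      have h3 := ih' (c * (z ^ j)⁻¹) (r * (rz ^ j)⁻¹) hc' ?_
      · rw [map_mul, map_inv, map_pow, hZ z (Finset.mem_insert_self z Z), one_pow, inv_one,
          mul_one] at h3
        exact h3
      · intro h hh
        obtain ⟨hωp, hωr⟩ := hratio h z rz hrz
        obtain ⟨i, -, hi⟩ := hprim.eq_pow_of_pow_eq_one hωp
        have e1 : (h₀ ^ i) rz = ω₀ ^ i * rz := pow_apply_of h₀ hω₀r (hμfix h₀ ω₀ hω₀p) i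
        have e2 : (h₀ ^ i) r = η ^ i * r := pow_apply_of h₀ hηr (hμfix h₀ η hηp) i
        have e3 : h rz = (h₀ ^ i) rz := by rw [e1, hi, ← hωr]
        have e4 : ∀ z ∈ Z, ∀ r' : Ω, r' ^ p = algebraMap L Ω z → (h₀ ^ i) r' = r' := by
          intro z' hz' r' hr'
          have := pow_apply_of (r := r') (η := 1) h₀ (by rw [hh₀ z' hz' r' hr', one_mul])
            (map_one _) i
          rw [this, one_pow, one_mul]
        have e5 : ((h₀ ^ i)⁻¹ * h) r = r := by
          refine hfix _ fun z' hz' r' hr' => ?_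
          rcases Finset.mem_insert.mp hz' with rfl | hz'
          · have e6 : ((h₀ ^ i)⁻¹ * h) rz = rz := by
              rw [AlgEquiv.mul_apply, e3]
              exact AlgEquiv.symm_apply_apply (h₀ ^ i) rz
            have e7 : (r' / rz) ^ p = 1 := by
              rw [div_pow, hr', hrz, div_self]
              exact (_root_.map_ne_zero _).mpr z'.ne_zero
            have e8 : r' = (r' / rz) * rz := by field_simp
            rw [e8, map_mul, hμfix _ _ e7, e6]
          · rw [AlgEquiv.mul_apply, hh z' hz' r' hr']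
            have e9 := e4 z' hz' r' hr'
            conv_lhs => rw [← e9]
            exact AlgEquiv.symm_apply_apply (h₀ ^ i) r'
        have e10 : h r = (h₀ ^ i) r := by
          have := congrArg (h₀ ^ i) e5
          rw [AlgEquiv.mul_apply] at this
          rw [← this]
          exact (AlgEquiv.apply_symm_apply (h₀ ^ i) (h r)).symm
        rw [map_mul, map_inv₀, map_pow, e10, e3, e2, e1, mul_pow, ← hj', ← pow_mul, ← pow_mul,
          mul_comm j i]
        have hω₀0 : ω₀ ≠ 0 := by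
          intro h0
          have h1 : ω₀ ^ p = 1 := hω₀p
          rw [h0, zero_pow hp0] at h1
          exact zero_ne_one h1
        field_simp

/-- Module Flip for `p`-th roots. -/
theorem exists_flip [IsAlgClosed Ω] [Algebra.IsAlgebraic L Ω] (p : ℕ) [hp : Fact p.Prime]
    (hμ : ∀ ω : Ω, ω ^ p = 1 → ∃ l : L, algebraMap L Ω l = ω) {G : Type*} [CommGroup G]
    (hG : ∀ x : G, x ^ p = 1) (χ : Lˣ →* G) (Z : Finset Lˣ) (hZ : ∀ z ∈ Z, χ z = 1) (u : Lˣ)
    (hu : χ u ≠ 1) (s : Ω) (hs : s ^ p = algebraMap L Ω u) :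
    ∃ g : Ω ≃ₐ[L] Ω, g s ≠ s ∧ ∀ z ∈ Z, ∀ r : Ω, r ^ p = algebraMap L Ω z → g r = r := by
  by_contra hcon
  push Not at hcon
  apply hu
  refine chi_eq_one p hμ hG χ Z hZ u s hs fun g hg => ?_
  by_contra hgs
  obtain ⟨z, hz, r, hr, hgr⟩ := hcon g hgs
  exact hgr (hg z hz r hr)

end Flip

end Pool.Agent.MPab1e31.Se
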