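import Pool.Agent.MPab1e31.Main

/-!
# The subgroup of elements with a `p`-th root in `K L` has finite index in `Lˣ`
-/

open scoped Pointwise

namespace Pool.Agent.MPab1e31.Se

open Pool.Agent.MPab1e31

section Index

variable {F₀ K Ω : Type*} [Field F₀] [Field K] [Field Ω]
    [Algebra F₀ K] [Algebra K Ω] [Algebra F₀ Ω] [IsScalarTower F₀ K Ω]
    (L : IntermediateField F₀ Ω)

/-- The units with a `p`-th root fixed by the automorphisms over `K` which are trivial on `L`. -/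
def pwSub (p : ℕ) (K : Type*) [Field K] [Algebra F₀ K] [Algebra K Ω] [IsScalarTower F₀ K Ω] :
    Subgroup Lˣ where
  carrier := {u | ∃ v : Ω, v ^ p = ((u : L) : Ω) ∧ ∀ γ ∈ stab L K, γ v = v}
  mul_mem' := by
    rintro a b ⟨v, hv, hv'⟩ ⟨w, hw, hw'⟩
    refine ⟨v * w, ?_, fun γ hγ => by rw [map_mul, hv' γ hγ, hw' γ hγ]⟩
    rw [mul_pow, hv, hw]
    rfl
  one_mem' := ⟨1, by simp, fun γ _ => map_one γ⟩
  inv_mem' := by
    rintro a ⟨v, hv, hv'⟩
    refine ⟨v⁻¹, ?_, fun γ hγ => by rw [map_inv₀, hv' γ hγ]⟩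
    rw [inv_pow, hv, Units.val_inv_eq_inv_val]
    rfl

lemma mem_pwSub (p : ℕ) {u : Lˣ} :
    u ∈ pwSub L p K ↔ ∃ v : Ω, v ^ p = ((u : L) : Ω) ∧ ∀ γ ∈ stab L K, γ v = v := Iff.rfl

/-- Module Index. -/
theorem exists_finiteIndex [CharZero F₀] [IsAlgClosed Ω]
    [Algebra.IsAlgebraic K Ω] (hfg : IsTopFG (Ω ≃ₐ[K] Ω)) [FiniteDimensional F₀ L] (p : ℕ)
    (hp : 0 < p) :
    ∃ H : Subgroup Lˣ, H.FiniteIndex ∧ ∀ u ∈ H, ∃ v : Ω, v ^ p = ((u : L) : Ω) ∧
      ∀ γ : Ω ≃ₐ[K] Ω, (∀ l ∈ L, γ l = l) → γ v = v := by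
  classical
  refine ⟨pwSub L p K, ?_, fun u hu => hu⟩
  obtain ⟨S, hS⟩ := hfg
  set Δ : Subgroup (Ω ≃ₐ[K] Ω) := Subgroup.closure (S : Set (Ω ≃ₐ[K] Ω)) with hΔ
  have hΔfg : Group.FG Δ := by
    rw [Group.fg_iff_subgroup_fg]
    exact ⟨S, rfl⟩
  have := stab_finiteIndex (K := K) L
  have hfg2 : Group.FG ((stab L K).subgroupOf Δ) := inferInstance
  obtain ⟨T, hT⟩ := (Group.fg_iff_subgroup_fg _).mp hfg2
  -- elements of `Δ` trivial on `L`, fixing a `q`
  have hfix : ∀ q : Ω, (∀ t ∈ T, (t : Ω ≃ₐ[K] Ω) q = q) → ∀ γ ∈ stab L K, γ q = q := by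
    intro q hq
    -- first the intersection with `Δ`
    have h1 : ∀ δ ∈ Δ, δ ∈ stab L K → δ q = q := by
      intro δ hδ hδL
      have h2 : (⟨δ, hδ⟩ : Δ) ∈ Subgroup.closure (T : Set Δ) := by
        rw [hT]
        exact hδL
      have h3 : ∀ d ∈ Subgroup.closure (T : Set Δ), ((d : Δ) : Ω ≃ₐ[K] Ω) q = q := by
        intro d hd
        induction hd using Subgroup.closure_induction with
        | mem x hx => exact hq x hx
        | one => rfl
        | mul x y _ _ hx hy =>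
          show (x : Ω ≃ₐ[K] Ω) ((y : Ω ≃ₐ[K] Ω) q) = q
          rw [hy, hx]
        | inv x _ hx =>
          show (x : Ω ≃ₐ[K] Ω).symm q = q
          rw [AlgEquiv.symm_apply_eq, hx]
      exact h3 _ h2
    -- density
    intro γ hγ
    have hmod : Module.Finite F₀ (Subalgebra.toSubmodule L.toSubalgebra) :=
      inferInstanceAs (Module.Finite F₀ L)
    obtain ⟨B, hB⟩ := Module.Finite.iff_fg.mp hmod
    set E : IntermediateField K Ω := IntermediateField.adjoin K ((insert q B : Finset Ω) : Set Ω)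
      with hE
    have : FiniteDimensional K E := IntermediateField.finiteDimensional_adjoin
      fun x _ => (Algebra.IsAlgebraic.isAlgebraic (R := K) x).isIntegral
    obtain ⟨δ, hδ, hδE⟩ := exists_mem_of_dense hS E γ
    have hqE : q ∈ E := IntermediateField.subset_adjoin K _ (by simp)
    have hLE : ∀ l ∈ L, l ∈ E := by
      have h4 : Subalgebra.toSubmodule L.toSubalgebra ≤
          Subalgebra.toSubmodule (E.restrictScalars F₀).toSubalgebra := by
        rw [← hB, Submodule.span_le]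
        intro b hb
        exact IntermediateField.subset_adjoin K _ (by simp [Finset.mem_coe.mp hb])
      exact fun l hl => h4 hl
    have hδL : δ ∈ stab L K := by
      intro l hl
      rw [hδE l (hLE l hl), hγ l hl]
    rw [← hδE q hqE]
    exact h1 δ hδ hδL
  -- colours
  have hroot : ∀ u : Lˣ, ∃ v : Ω, v ^ p = ((u : L) : Ω) := fun u =>
    IsAlgClosed.exists_pow_nat_eq _ hp
  choose r hr using hroot
  have hu0 : ∀ u : Lˣ, ((u : L) : Ω) ≠ 0 := by
    intro u h3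
    exact u.ne_zero (Subtype.ext h3)
  have hr0 : ∀ u, r u ≠ 0 := by
    intro u h0
    have h1 := hr u
    rw [h0, zero_pow hp.ne'] at h1
    exact hu0 u h1.symm
  have hratio : ∀ (t : (stab L K).subgroupOf Δ) (u : Lˣ),
      (((t : Δ) : Ω ≃ₐ[K] Ω) (r u) / r u) ^ p = 1 := by
    intro t u
    have h2 : ((t : Δ) : Ω ≃ₐ[K] Ω) ((u : L) : Ω) = ((u : L) : Ω) := t.2 _ (SetLike.coe_mem _)
    rw [div_pow, ← map_pow, hr, h2, div_self (hu0 u)]
  have hTmem : ∀ t ∈ T, t ∈ (stab L K).subgroupOf Δ := by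
    intro t ht
    rw [← hT]
    exact Subgroup.subset_closure ht
  let col : Lˣ → (T → {ω : Ω // ω ^ p = 1}) := fun u t =>
    ⟨((t : Δ) : Ω ≃ₐ[K] Ω) (r u) / r u, hratio ⟨t, hTmem t t.2⟩ u⟩
  have hcol : ∀ u u' : Lˣ, col u = col u' → u⁻¹ * u' ∈ pwSub L p K := by
    intro u u' h
    refine ⟨(r u)⁻¹ * r u', ?_, hfix _ fun t ht => ?_⟩
    · rw [mul_pow, inv_pow, hr, hr, Units.val_mul, Units.val_inv_eq_inv_val]
      rfl
    · have h1 : ((t : Δ) : Ω ≃ₐ[K] Ω) (r u) / r u = ((t : Δ) : Ω ≃ₐ[K] Ω) (r u') / r u' :=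
        congrArg Subtype.val (congrFun h ⟨t, ht⟩)
      have h2 : ((t : Δ) : Ω ≃ₐ[K] Ω) (r u) ≠ 0 := (_root_.map_ne_zero _).mpr (hr0 u)
      rw [div_eq_div_iff (hr0 u) (hr0 u')] at h1
      have h3 := hr0 u
      rw [map_mul, map_inv₀, inv_mul_eq_div, inv_mul_eq_div, div_eq_div_iff h2 h3]
      linear_combination -h1
  have hμfin : Finite {ω : Ω // ω ^ p = 1} := by
    have h1 : {ω : Ω | ω ^ p = 1} ⊆ ((Polynomial.nthRoots p (1 : Ω)).toFinset : Set Ω) := by
      intro ω hω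
      rw [Finset.mem_coe, Multiset.mem_toFinset, Polynomial.mem_nthRoots hp]
      exact hω
    exact (Set.Finite.subset (Finset.finite_toSet _) h1).to_subtype
  have hfin : Finite (Lˣ ⧸ pwSub L p K) := by
    have : Finite (T → {ω : Ω // ω ^ p = 1}) := inferInstance
    refine Finite.of_injective (β := T → {ω : Ω // ω ^ p = 1})
      (fun q => col (Quotient.out q)) ?_
    intro a b hab
    have h1 := hcol _ _ hab
    have h2 : (QuotientGroup.mk (Quotient.out a) : Lˣ ⧸ pwSub L p K) =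
      QuotientGroup.mk (Quotient.out b) := QuotientGroup.eq.mpr h1
    have h3 : (QuotientGroup.mk (Quotient.out a) : Lˣ ⧸ pwSub L p K) = a := QuotientGroup.out_eq' a
    have h4 : (QuotientGroup.mk (Quotient.out b) : Lˣ ⧸ pwSub L p K) = b := QuotientGroup.out_eq' b
    rw [h3, h4] at h2
    exact h2
  exact Subgroup.finiteIndex_of_finite_quotient

end Index

end Pool.Agent.MPab1e31.Se
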