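import Pool.Agent.MPab1e31Se.Ser

/-!
# Descent of equalities of ideals from the localisation away from `x`
-/

open Polynomial

namespace Pool.Agent.MPab1e31.Se

open Pool.Agent.MPab1e31

section Dom

variable {R S : Type*} [CommRing R] [CommRing S]

/-- `I` is contained in `J` after inversion of `π`. -/
def Dom (π : R) (I J : Ideal R) : Prop := ∀ u ∈ I, ∃ B : ℕ, π ^ B * u ∈ J

lemma Dom.mul {π : R} {I J I' J' : Ideal R} (h : Dom π I J) (h' : Dom π I' J') :
    Dom π (I * I') (J * J') := by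
  intro u hu
  refine Submodule.mul_induction_on hu ?_ ?_
  · intro a ha b hb
    obtain ⟨B, hB⟩ := h a ha
    obtain ⟨B', hB'⟩ := h' b hb
    refine ⟨B + B', ?_⟩
    have e1 : π ^ (B + B') * (a * b) = (π ^ B * a) * (π ^ B' * b) := by ring
    rw [e1]
    exact Ideal.mul_mem_mul hB hB'
  · rintro a b ⟨B, hB⟩ ⟨B', hB'⟩
    refine ⟨B + B', ?_⟩
    have e1 : π ^ (B + B') * (a + b) = π ^ B' * (π ^ B * a) + π ^ B * (π ^ B' * b) := by ring
    rw [e1]
    exact add_mem (Ideal.mul_mem_left _ _ hB) (Ideal.mul_mem_left _ _ hB')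

lemma Dom.map {π : R} {I J : Ideal R} (h : Dom π I J) (σ : R →+* S) :
    Dom (σ π) (I.map σ) (J.map σ) := by
  intro u hu
  refine Submodule.span_induction (p := fun u _ => ∃ B : ℕ, σ π ^ B * u ∈ J.map σ) ?_ ?_ ?_ ?_ hu
  · rintro _ ⟨a, ha, rfl⟩
    obtain ⟨B, hB⟩ := h a ha
    refine ⟨B, ?_⟩
    rw [← map_pow, ← map_mul]
    exact Ideal.mem_map_of_mem σ hB
  · exact ⟨0, by rw [mul_zero]; exact zero_mem _⟩
  · rintro a b - - ⟨B, hB⟩ ⟨B', hB'⟩
    refine ⟨B + B', ?_⟩
    have e1 : σ π ^ (B + B') * (a + b) = σ π ^ B' * (σ π ^ B * a) + σ π ^ B * (σ π ^ B' * b) := by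
      ring
    rw [e1]
    exact add_mem (Ideal.mul_mem_left _ _ hB) (Ideal.mul_mem_left _ _ hB')
  · rintro s a - ⟨B, hB⟩
    refine ⟨B, ?_⟩
    rw [smul_eq_mul, mul_left_comm]
    exact Ideal.mul_mem_left _ _ hB

lemma Dom.of_map_eq [IsDomain R] [Algebra R S] {π : R} (hπ : π ≠ 0) [IsLocalization.Away π S]
    {I J : Ideal R} (h : I.map (algebraMap R S) ≤ J.map (algebraMap R S)) : Dom π I J := by
  intro u hu
  have h1 : algebraMap R S u ∈ J.map (algebraMap R S) := h (Ideal.mem_map_of_mem _ hu)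
  rw [IsLocalization.mem_map_algebraMap_iff (Submonoid.powers π)] at h1
  obtain ⟨⟨j, ⟨s, B, hB⟩⟩, h2⟩ := h1
  have hinj : Function.Injective (algebraMap R S) :=
    IsLocalization.injective S (powers_le_nonZeroDivisors_of_noZeroDivisors hπ)
  refine ⟨B, ?_⟩
  have h3 : algebraMap R S (u * s) = algebraMap R S j := by
    rw [map_mul]
    exact h2
  have h4 : u * s = j := hinj h3
  have h5 : π ^ B = s := hB
  rw [h5, mul_comm, h4]
  exact j.2

end Dom

section Compat

variable {E : Type*} [Field E]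

lemma order_map {φ : PowerSeries E} (σ : E →+* E) : (PowerSeries.map σ φ).order = φ.order := by
  apply le_antisymm
  · refine PowerSeries.le_order φ _ fun i hi => ?_
    have h1 := PowerSeries.coeff_of_lt_order i hi
    rw [PowerSeries.coeff_map] at h1
    exact (map_eq_zero σ).mp h1
  · exact PowerSeries.le_order_map σ

variable {p : ℕ} {f : E[X]}

/-- The action of a ring homomorphism on the coordinate ring. -/
noncomputable def hmap (p : ℕ) (σ : E →+* E) (hσ : f.map σ = f) :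
    AdjoinRoot (SF p f) →+* AdjoinRoot (SF p f) := rmap σ (by rw [cm_SF, hσ])

lemma hmap_of (σ : E →+* E) (hσ : f.map σ = f) (a : E[X]) :
    hmap p σ hσ (AdjoinRoot.of _ a) = AdjoinRoot.of _ (a.map σ) := by
  rw [hmap, rmap, AdjoinRoot.map_of]
  rfl

lemma hmap_root (σ : E →+* E) (hσ : f.map σ = f) :
    hmap p σ hσ (AdjoinRoot.root _) = AdjoinRoot.root _ := by
  rw [hmap, rmap, AdjoinRoot.map_root]

lemma hmap_X (σ : E →+* E) (hσ : f.map σ = f) :
    hmap p σ hσ (AdjoinRoot.of _ X) = AdjoinRoot.of _ X := by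
  rw [hmap_of, map_X]

lemma map_hmap_ptJ (σ : E →+* E) (hσ : f.map σ = f) (t s : E) :
    (ptJ (SF p f) t s).map (hmap p σ hσ) = ptJ (SF p f) (σ t) (σ s) :=
  map_rmap_ptJ _ _ t s

lemma psi_hmap (σ : E →+* E) (hσ : f.map σ = f) {F : PowerSeries E}
    (hF : F ^ p = (f : PowerSeries E)) (hFσ : PowerSeries.map σ F = F) {ω : E} (hω : ω ^ p = 1)
    (hωσ : σ ω = ω) (u : AdjoinRoot (SF p f)) :
    psi hF hω (hmap p σ hσ u) = PowerSeries.map σ (psi hF hω u) := by
  have h1 : (psi hF hω).comp (hmap p σ hσ) = (PowerSeries.map σ).comp (psi hF hω) := by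
    refine AdjoinRoot.ringHom_ext ?_ ?_
    · refine RingHom.ext fun a => ?_
      rw [RingHom.comp_apply, RingHom.comp_apply, RingHom.comp_apply, RingHom.comp_apply, hmap_of,
        psi_of, psi_of, Polynomial.polynomial_map_coe]
    · rw [RingHom.comp_apply, RingHom.comp_apply, hmap_root, psi_root, map_mul,
        PowerSeries.map_C, hωσ, hFσ]
  exact RingHom.congr_fun h1 u

lemma order_psi_hmap (σ : E →+* E) (hσ : f.map σ = f) {F : PowerSeries E}
    (hF : F ^ p = (f : PowerSeries E)) (hFσ : PowerSeries.map σ F = F) {ω : E} (hω : ω ^ p = 1)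
    (hωσ : σ ω = ω) (u : AdjoinRoot (SF p f)) :
    (psi hF hω (hmap p σ hσ u)).order = (psi hF hω u).order := by
  rw [psi_hmap σ hσ hF hFσ hω hωσ, order_map]

end Compat

section Descent

variable {E : Type*} [Field E] {p : ℕ} [hp : Fact p.Prime] [CharZero E] {f : E[X]}

/-- Descent of inclusions of ideals. -/
theorem descent {F : PowerSeries E} (hF : F ^ p = (f : PowerSeries E))
    (hF0 : PowerSeries.constantCoeff F ≠ 0) {ζ : E} (hζ : IsPrimitiveRoot ζ p)
    [IsDomain (AdjoinRoot (SF p f))] {I J : Ideal (AdjoinRoot (SF p f))}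
    (hJ : IsCoprime J (Ideal.span {AdjoinRoot.of (SF p f) X})) {z w : AdjoinRoot (SF p f)}
    (hw : w ≠ 0)
    (hord : ∀ (i : ℕ) (hi : (ζ ^ i) ^ p = 1), (psi hF hi z).order = (psi hF hi w).order)
    (hdom : Dom (AdjoinRoot.of (SF p f) X) (Ideal.span {z} * I) (Ideal.span {w} * J)) :
    Ideal.span {z} * I ≤ Ideal.span {w} * J := by
  intro u hu
  obtain ⟨c, hc, rfl⟩ := Ideal.mem_span_singleton_mul.mp hu
  obtain ⟨B, hB⟩ := hdom _ hu
  obtain ⟨j, hj, hjB⟩ := Ideal.mem_span_singleton_mul.mp hB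
  have hX0 : AdjoinRoot.of (SF p f) X ≠ 0 := of_ne_zero hp.out.ne_zero f X_ne_zero
  obtain ⟨j₁, hj₁⟩ := exists_of_dvd_psi hF hF0 hζ B j (fun i hi => by
    have h1 := congrArg (psi hF hi) hjB
    rw [map_mul, map_mul, map_mul, map_pow, psi_of, Polynomial.coe_X] at h1
    have h2 := congrArg PowerSeries.order h1
    rw [PowerSeries.order_mul, PowerSeries.order_mul, PowerSeries.order_mul,
      PowerSeries.order_X_pow, hord i hi] at h2
    have h3 : (psi hF hi w).order ≠ ⊤ := by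
      rw [Ne, PowerSeries.order_eq_top]
      exact psi_ne_zero hF hi hw
    have h4 : (psi hF hi j).order = (B : ℕ∞) + (psi hF hi c).order := by
      have h5 : (psi hF hi w).order + (psi hF hi j).order =
          (psi hF hi w).order + ((B : ℕ∞) + (psi hF hi c).order) := by
        rw [h2]; ring
      exact ENat.add_right_injective_of_ne_top h3 h5
    rw [PowerSeries.X_pow_dvd_iff]
    intro m hm
    refine PowerSeries.coeff_of_lt_order m ?_
    rw [h4]
    exact lt_of_lt_of_le (by exact_mod_cast hm) (le_add_of_nonneg_right bot_le))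
  have h1 : z * c = w * j₁ := by
    have h2 : AdjoinRoot.of (SF p f) X ^ B * (z * c) = AdjoinRoot.of (SF p f) X ^ B * (w * j₁) := by
      rw [← hjB, hj₁]; ring
    exact mul_left_cancel₀ (pow_ne_zero _ hX0) h2
  have h3 : j₁ ∈ J := by
    obtain ⟨a, ha, b, hb, hab⟩ := Ideal.isCoprime_iff_exists.mp (hJ.pow_right (n := B))
    rw [Ideal.span_singleton_pow, Ideal.mem_span_singleton] at hb
    obtain ⟨b', rfl⟩ := hb
    have e1 : j₁ = a * j₁ + b' * (AdjoinRoot.of (SF p f) X ^ B * j₁) := by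
      linear_combination -j₁ * hab
    rw [e1, ← hj₁]
    exact add_mem (Ideal.mul_mem_right _ _ ha) (Ideal.mul_mem_left _ _ hj)
  rw [h1]
  exact Ideal.mul_mem_mul (Ideal.mem_span_singleton_self w) h3

omit hp [CharZero E] in
lemma isCoprime_ptJ {x s : E} (hx : x ≠ 0) :
    IsCoprime (ptJ (SF p f) x s) (Ideal.span {AdjoinRoot.of (SF p f) X}) := by
  rw [Ideal.isCoprime_iff_exists]
  refine ⟨AdjoinRoot.of (SF p f) (C (-x⁻¹)) * AdjoinRoot.of (SF p f) (X - C x),
    Ideal.mul_mem_left _ _ (Ideal.subset_span (Set.mem_insert _ _)),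
    AdjoinRoot.of (SF p f) (C x⁻¹) * AdjoinRoot.of (SF p f) X,
    Ideal.mul_mem_left _ _ (Ideal.mem_span_singleton_self _), ?_⟩
  rw [← map_mul, ← map_mul, ← map_add]
  have e1 : (C (-x⁻¹) * (X - C x) + C x⁻¹ * X : E[X]) = 1 := by
    rw [mul_sub, ← C_mul, C_neg, neg_mul, neg_mul, inv_mul_cancel₀ hx, C_neg, C_1]
    ring
  rw [e1, map_one]

end Descent

end Pool.Agent.MPab1e31.Se
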