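import Pool.Agent.MPab1e31Se.Loc
import Pool.Agent.MPab1e31Ev.Bal

/-!
# Moving a root to infinity
-/

open Polynomial

namespace Pool.Agent.MPab1e31.Se

open Pool.Agent.MPab1e31 Pool.Agent.MPab1e31.Ev

lemma span_pair_unit {R : Type*} [CommRing R] {a b c u v : R} (hu : IsUnit u) (hv : IsUnit v) :
    Ideal.span {u * a, v * b + c * a} = Ideal.span {a, b} := by
  obtain ⟨u, rfl⟩ := hu
  obtain ⟨v, rfl⟩ := hv
  apply le_antisymm
  · rw [Ideal.span_le]
    have ha : a ∈ Ideal.span {a, b} := Ideal.subset_span (by simp)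
    have hb : b ∈ Ideal.span {a, b} := Ideal.subset_span (by simp)
    rintro _ (rfl | rfl)
    · exact Ideal.mul_mem_left _ _ ha
    · exact add_mem (Ideal.mul_mem_left _ _ hb) (Ideal.mul_mem_left _ _ ha)
  · rw [Ideal.span_le]
    set J := Ideal.span {(u : R) * a, (v : R) * b + c * a} with hJ
    have ha : (u : R) * a ∈ J := Ideal.subset_span (by simp)
    have hb : (v : R) * b + c * a ∈ J := Ideal.subset_span (by simp)
    have ha' : a ∈ J := by
      have h1 := J.mul_mem_left ((u⁻¹ : Rˣ) : R) ha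
      rwa [← mul_assoc, Units.inv_mul, one_mul] at h1
    have hb' : b ∈ J := by
      have h1 := J.sub_mem hb (J.mul_mem_left c ha')
      have h2 := J.mul_mem_left ((v⁻¹ : Rˣ) : R) h1
      rwa [add_sub_cancel_right, ← mul_assoc, Units.inv_mul, one_mul] at h2
    rintro _ (rfl | rfl)
    · exact ha'
    · exact hb'

section Mobius

variable {E : Type*} [Field E] {p : ℕ} [hp : Fact p.Prime] {g f₁ : E[X]}

variable (p f₁) in
/-- The localisation of the coordinate ring away from `x`. -/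
abbrev Lz : Type _ := Localization.Away (AdjoinRoot.of (SF p f₁) (X : E[X]))

variable (p f₁) in
/-- The map to the localisation. -/
noncomputable abbrev il : AdjoinRoot (SF p f₁) →+* Lz p f₁ := algebraMap _ _

variable (p f₁) in
/-- The inverse of `x`. -/
noncomputable abbrev xi : Lz p f₁ :=
  IsLocalization.Away.invSelf (S := Lz p f₁) (AdjoinRoot.of (SF p f₁) (X : E[X]))

omit hp in
lemma x_mul_xi : il p f₁ (AdjoinRoot.of _ X) * xi p f₁ = 1 :=
  IsLocalization.Away.mul_invSelf _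

variable (p f₁) in
/-- Substitution `x ↦ e + 1 / x`. -/
noncomputable def j₀ (e : E) : E[X] →+* Lz p f₁ :=
  eval₂RingHom ((il p f₁).comp ((AdjoinRoot.of (SF p f₁)).comp C))
    (il p f₁ (AdjoinRoot.of _ (C e)) + xi p f₁)

omit hp in
lemma j₀_C (e a : E) : j₀ p f₁ e (C a) = il p f₁ (AdjoinRoot.of _ (C a)) := by
  rw [j₀, coe_eval₂RingHom, eval₂_C]
  rfl

omit hp in
lemma j₀_X (e : E) : j₀ p f₁ e X = il p f₁ (AdjoinRoot.of _ (C e)) + xi p f₁ := by
  rw [j₀, coe_eval₂RingHom, eval₂_X]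

omit hp in
lemma il_mob (e : E) {N : ℕ} {q : E[X]} (hq : q.natDegree ≤ N) :
    il p f₁ (AdjoinRoot.of _ (mob e N q)) = il p f₁ (AdjoinRoot.of _ X) ^ N * j₀ p f₁ e q := by
  set ι : E →+* Lz p f₁ := (il p f₁).comp ((AdjoinRoot.of (SF p f₁)).comp C) with hι
  have h0 : ∀ P : E[X], eval₂ ι (il p f₁ (AdjoinRoot.of _ X)) P = il p f₁ (AdjoinRoot.of _ P) := by
    intro P
    have h1 := hom_eval₂ P C ((il p f₁).comp (AdjoinRoot.of (SF p f₁))) X
    rw [eval₂_C_X] at h1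
    exact h1.symm
  letI : Invertible (xi p f₁) := ⟨il p f₁ (AdjoinRoot.of _ X), x_mul_xi, by
    rw [mul_comm]; exact x_mul_xi⟩
  have h1 := eval₂_reflect_mul_pow ι (xi p f₁) N (taylor e q) (by rwa [natDegree_taylor])
  have h2 : (⅟(xi p f₁) : Lz p f₁) = il p f₁ (AdjoinRoot.of _ X) := rfl
  rw [h2] at h1
  have h3 : eval₂ ι (xi p f₁) (taylor e q) = j₀ p f₁ e q := by
    rw [taylor_apply, eval₂_comp, eval₂_add, eval₂_X, eval₂_C, j₀, coe_eval₂RingHom, add_comm]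
    rfl
  rw [h3] at h1
  rw [← h1, mob, h0]
  have h4 : il p f₁ (AdjoinRoot.of _ X) ^ N * xi p f₁ ^ N = 1 := by
    rw [← mul_pow, x_mul_xi, one_pow]
  linear_combination -(il p f₁ (AdjoinRoot.of _ (reflect N (taylor e q)))) * h4

/-- The Möbius map `x ↦ e + 1 / x`, `y ↦ κ y / x ^ m`. -/
noncomputable def jm (g f₁ : E[X]) (e κ : E) (m : ℕ) (hdeg : g.natDegree ≤ p * m)
    (hf₁ : mob e (p * m) g = C (κ ^ p) * f₁) : AdjoinRoot (SF p g) →+* Lz p f₁ :=
  AdjoinRoot.lift (j₀ p f₁ e)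
    (il p f₁ (AdjoinRoot.of _ (C κ) * AdjoinRoot.root _) * xi p f₁ ^ m) (by
      have h1 := il_mob (p := p) (f₁ := f₁) e hdeg
      rw [hf₁] at h1
      rw [eval₂_SF, mul_pow, ← map_pow, mul_pow, root_pow, ← map_pow (AdjoinRoot.of (SF p f₁)),
        ← C_pow, ← map_mul (AdjoinRoot.of (SF p f₁)), h1, ← pow_mul, mul_comm m p]
      have h4 : il p f₁ (AdjoinRoot.of _ X) ^ (p * m) * xi p f₁ ^ (p * m) = 1 := by
        rw [← mul_pow, x_mul_xi, one_pow]
      linear_combination (j₀ p f₁ e g) * h4)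

variable {e κ : E} {m : ℕ} {hdeg : g.natDegree ≤ p * m} {hf₁ : mob e (p * m) g = C (κ ^ p) * f₁}

omit hp in
lemma jm_of (a : E[X]) : jm g f₁ e κ m hdeg hf₁ (AdjoinRoot.of _ a) = j₀ p f₁ e a := by
  rw [jm, AdjoinRoot.lift_of]

omit hp in
lemma jm_root : jm g f₁ e κ m hdeg hf₁ (AdjoinRoot.root _) =
    il p f₁ (AdjoinRoot.of _ (C κ) * AdjoinRoot.root _) * xi p f₁ ^ m := by
  rw [jm, AdjoinRoot.lift_root]

lemma il_injective [IsDomain (AdjoinRoot (SF p f₁))] : Function.Injective (il p f₁) :=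
  IsLocalization.injective _ (powers_le_nonZeroDivisors_of_noZeroDivisors
    (of_ne_zero hp.out.ne_zero f₁ X_ne_zero))

lemma jm_ne_zero [IsDomain (AdjoinRoot (SF p f₁))] [IsDomain (AdjoinRoot (SF p g))]
    {u : AdjoinRoot (SF p g)} (hu : u ≠ 0) : jm g f₁ e κ m hdeg hf₁ u ≠ 0 := by
  intro h0
  have hint := isIntegral_SF (p := p) (f := g)
  have h1 := Ideal.comap_ne_bot_of_integral_mem (R := E[X])
    (I := RingHom.ker (jm g f₁ e κ m hdeg hf₁)) hu
    (RingHom.mem_ker.mpr h0) (Algebra.IsIntegral.isIntegral u)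
  obtain ⟨q, hq, hq0⟩ := Submodule.exists_mem_ne_zero_of_ne_bot h1
  have h2 : jm g f₁ e κ m hdeg hf₁ (AdjoinRoot.of _ q) = 0 := hq
  rw [jm_of] at h2
  have h3 := il_mob (p := p) (f₁ := f₁) e (le_refl q.natDegree)
  rw [h2, mul_zero] at h3
  have h4 : AdjoinRoot.of (SF p f₁) (mob e q.natDegree q) = 0 := il_injective (by rw [h3, map_zero])
  have h5 : mob e q.natDegree q = 0 := by
    by_contra h6
    exact of_ne_zero hp.out.ne_zero f₁ h6 h4
  rw [mob, reflect_eq_zero_iff] at h5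
  exact hq0 ((map_eq_zero_iff _ (taylor_injective e)).mp h5)

omit hp in
lemma exists_clear (u : AdjoinRoot (SF p g)) : ∃ (A : ℕ) (u' : AdjoinRoot (SF p f₁)),
    jm g f₁ e κ m hdeg hf₁ u * il p f₁ (AdjoinRoot.of _ X) ^ A = il p f₁ u' := by
  obtain ⟨n, a, h⟩ := IsLocalization.Away.surj (AdjoinRoot.of (SF p f₁) (X : E[X]))
    (jm g f₁ e κ m hdeg hf₁ u)
  exact ⟨n, a, h⟩

omit hp in
lemma isUnit_ilC {a : E} (ha : a ≠ 0) : IsUnit (il p f₁ (AdjoinRoot.of _ (C a))) :=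
  (((isUnit_iff_ne_zero.mpr ha).map C).map _).map _

omit hp in
lemma isUnit_xi : IsUnit (xi p f₁) :=
  ⟨⟨xi p f₁, il p f₁ (AdjoinRoot.of _ X), by rw [mul_comm]; exact x_mul_xi, x_mul_xi⟩, rfl⟩

omit hp in
/-- The images of the ideals of corresponding points agree. -/
theorem map_jm_ptJ {x : E} (hx : x ≠ 0) (hκ : κ ≠ 0) (r : E) :
    (ptJ (SF p g) (e + 1 / x) (κ * r / x ^ m)).map (jm g f₁ e κ m hdeg hf₁) =
      (ptJ (SF p f₁) x r).map (il p f₁) := by
  have hc : ∀ a b : E, il p f₁ (AdjoinRoot.of _ (C (a * b))) =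
      il p f₁ (AdjoinRoot.of _ (C a)) * il p f₁ (AdjoinRoot.of _ (C b)) := fun a b => by
    rw [C_mul, map_mul, map_mul]
  have hxi := x_mul_xi (p := p) (f₁ := f₁)
  have hxx : il p f₁ (AdjoinRoot.of _ (C x)) * il p f₁ (AdjoinRoot.of _ (C x⁻¹)) = 1 := by
    rw [← hc, mul_inv_cancel₀ hx, C_1, map_one, map_one]
  -- the first generator
  have e1 : jm g f₁ e κ m hdeg hf₁ (AdjoinRoot.of _ (X - C (e + 1 / x))) =
      (-(xi p f₁) * il p f₁ (AdjoinRoot.of _ (C x⁻¹))) *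
        il p f₁ (AdjoinRoot.of _ (X - C x)) := by
    rw [jm_of, map_sub, j₀_X, j₀_C, one_div, C_add, map_add, map_add, map_sub, map_sub]
    linear_combination il p f₁ (AdjoinRoot.of _ (C x⁻¹)) * hxi - xi p f₁ * hxx
  -- the geometric sum
  obtain ⟨w, hw⟩ : xi p f₁ - il p f₁ (AdjoinRoot.of _ (C x⁻¹)) ∣
      xi p f₁ ^ m - il p f₁ (AdjoinRoot.of _ (C x⁻¹)) ^ m := sub_dvd_pow_sub_pow _ _ m
  have e2 : jm g f₁ e κ m hdeg hf₁ (AdjoinRoot.root _ - AdjoinRoot.of _ (C (κ * r / x ^ m))) =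
      (il p f₁ (AdjoinRoot.of _ (C κ)) * xi p f₁ ^ m) *
        il p f₁ (AdjoinRoot.root _ - AdjoinRoot.of _ (C r)) +
      (il p f₁ (AdjoinRoot.of _ (C κ)) * il p f₁ (AdjoinRoot.of _ (C r)) * w *
        (-(xi p f₁) * il p f₁ (AdjoinRoot.of _ (C x⁻¹)))) *
        il p f₁ (AdjoinRoot.of _ (X - C x)) := by
    have e3 : κ * r / x ^ m = κ * (r * x⁻¹ ^ m) := by
      rw [inv_pow]
      field_simp
    have e4 : il p f₁ (AdjoinRoot.of _ (C (x⁻¹ ^ m))) =
        il p f₁ (AdjoinRoot.of _ (C x⁻¹)) ^ m := by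
      rw [C_pow, map_pow, map_pow]
    have e5 : (-(xi p f₁) * il p f₁ (AdjoinRoot.of _ (C x⁻¹))) *
        il p f₁ (AdjoinRoot.of _ (X - C x)) = xi p f₁ - il p f₁ (AdjoinRoot.of _ (C x⁻¹)) := by
      rw [map_sub, map_sub]
      linear_combination -(il p f₁ (AdjoinRoot.of _ (C x⁻¹))) * hxi + xi p f₁ * hxx
    rw [mul_assoc _ _ (il p f₁ (AdjoinRoot.of _ (X - C x))), e5, map_sub, jm_root, jm_of, j₀_C, e3,
      hc, hc, e4, map_sub, map_mul]
    linear_combination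
      (il p f₁ (AdjoinRoot.of _ (C κ)) * il p f₁ (AdjoinRoot.of _ (C r))) * hw
  have hu1 : IsUnit (-(xi p f₁) * il p f₁ (AdjoinRoot.of _ (C x⁻¹))) :=
    isUnit_xi.neg.mul (isUnit_ilC (inv_ne_zero hx))
  have hu2 : IsUnit (il p f₁ (AdjoinRoot.of _ (C κ)) * xi p f₁ ^ m) :=
    (isUnit_ilC hκ).mul (isUnit_xi.pow m)
  rw [ptJ, Ideal.map_span, Set.image_pair, e1, e2, span_pair_unit hu1 hu2, ptJ, Ideal.map_span,
    Set.image_pair]

end Mobius

end Pool.Agent.MPab1e31.Se
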