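import Pool.Agent.MPab1e31Se.Alg
import Pool.Agent.MPab1e31.HypNonTors

/-!
The non-torsion lemma on superelliptic Jacobians.
-/

namespace Pool.Agent.MPab1e31.Se

open Polynomial Pool.Agent.MPab1e31.Hyp Pool.Agent.MPab1e31

section

variable {E : Type*} [Field E] {p : ℕ} [hp : Fact p.Prime] {f : E[X]}

lemma red_of_mul (a : E[X]) (z : AdjoinRoot (SF p f)) :
    red f (AdjoinRoot.of (SF p f) a * z) = C a * red f z := by
  have h1 : AdjoinRoot.of (SF p f) a * z = AdjoinRoot.mk (SF p f) (C a * red f z) := by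
    rw [map_mul, mk_red]
    rfl
  rw [h1, red_mk_of_lt]
  exact lt_of_le_of_lt (natDegree_C_mul_le _ _) (natDegree_red_lt f z)

lemma Psi_of_mul (a : E[X]) (z : AdjoinRoot (SF p f)) :
    Psi f (AdjoinRoot.of (SF p f) a * z) = expand E p a * Psi f z := by
  rw [Psi, red_of_mul, map_mul, theta_C]
  rfl

lemma Psi_one : Psi f (1 : AdjoinRoot (SF p f)) = 1 := by
  have h := Psi_of (p := p) f 1
  rwa [map_one, map_one] at h

/-- The norm. -/
noncomputable def nm (v : AbsoluteValue E ℝ) (z : AdjoinRoot (SF p f)) : ℝ := gn v (Psi f z)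

variable {v : AbsoluteValue E ℝ}

lemma nm_nonneg (z : AdjoinRoot (SF p f)) : 0 ≤ nm v z := gn_nonneg _

lemma nm_one : nm v (1 : AdjoinRoot (SF p f)) = 1 := by
  rw [nm, Psi_one, gn_one]

lemma nm_add (hv : IsNonarchimedean v) (z w : AdjoinRoot (SF p f)) :
    nm v (z + w) ≤ max (nm v z) (nm v w) := by
  rw [nm, Psi_add]
  exact gn_add hv _ _

lemma nm_of (a : E[X]) : nm v (AdjoinRoot.of (SF p f) a) = gn v a := by
  rw [nm, Psi_of, gn_expand hp.out.pos]

lemma nm_natCast_le (hv : IsNonarchimedean v) (n : ℕ) :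
    nm v (n : AdjoinRoot (SF p f)) ≤ v (n : E) := by
  have h1 : (n : AdjoinRoot (SF p f)) = AdjoinRoot.of (SF p f) (C (n : E)) := by
    simp only [map_natCast]
  rw [h1, nm_of, gn_C]

variable (hv : IsNonarchimedean v) (hpd : ¬ p ∣ f.natDegree)
  (hsmall : gn v (f - X ^ f.natDegree) < 1)

include hv hpd hsmall

lemma nm_mul (z w : AdjoinRoot (SF p f)) : nm v (z * w) = nm v z * nm v w :=
  (gn_Psi_mul hv hpd hsmall z w).1

lemma nm_pow (z : AdjoinRoot (SF p f)) (n : ℕ) : nm v (z ^ n) = nm v z ^ n := by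
  induction n with
  | zero => rw [pow_zero, pow_zero, nm_one]
  | succ n ih => rw [pow_succ, pow_succ, nm_mul hv hpd hsmall, ih]

lemma nm_sum_le {ι : Type*} (s : Finset ι) (G : ι → AdjoinRoot (SF p f)) {M : ℝ}
    (hM : 0 ≤ M) (h : ∀ i ∈ s, nm v (G i) ≤ M) : nm v (∑ i ∈ s, G i) ≤ M := by
  classical
  induction s using Finset.induction_on with
  | empty =>
    rw [Finset.sum_empty, nm, Psi, red_zero, map_zero, gn_zero]
    exact hM
  | insert a s ha ih =>
    rw [Finset.sum_insert ha]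
    exact (nm_add hv _ _).trans (max_le (h a (Finset.mem_insert_self _ _))
      (ih fun i hi => h i (Finset.mem_insert_of_mem hi)))

/-- Raising to the power `p` improves the approximation of `1`. -/
lemma pow_close {κ ρ : ℝ} (hκ1 : κ < 1) (hκp : v (p : E) ≤ κ) (ε : AdjoinRoot (SF p f))
    (hε : nm v ε ≤ ρ) (hρ : ρ ≤ κ) : nm v ((1 + ε) ^ p - 1) ≤ κ * ρ := by
  have hε0 := nm_nonneg (v := v) ε
  have hρ0 : 0 ≤ ρ := hε0.trans hε
  have hκ0 : 0 ≤ κ := hρ0.trans hρ
  have hε1 : nm v ε ≤ 1 := hε.trans (hρ.trans hκ1.le)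
  have h1 : (1 + ε) ^ p - 1 = ∑ m ∈ Finset.range p, ε ^ (m + 1) * (p.choose (m + 1) : ℕ) := by
    rw [add_comm, add_pow, Finset.sum_range_succ']
    simp
  rw [h1]
  refine nm_sum_le hv hpd hsmall _ _ (mul_nonneg hκ0 hρ0) fun m hm => ?_
  have hm' := Finset.mem_range.mp hm
  rw [nm_mul hv hpd hsmall, nm_pow hv hpd hsmall]
  rcases eq_or_ne (m + 1) p with h2 | h2
  · rw [h2, Nat.choose_self]
    have h3 : nm v ε ^ p ≤ nm v ε ^ 2 := pow_le_pow_of_le_one hε0 hε1 hp.out.two_le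
    have h4 : nm v ((1 : ℕ) : AdjoinRoot (SF p f)) = 1 := by rw [Nat.cast_one, nm_one]
    rw [h4, mul_one]
    calc nm v ε ^ p ≤ nm v ε ^ 2 := h3
      _ = nm v ε * nm v ε := sq _
      _ ≤ κ * ρ := mul_le_mul (hε.trans hρ) hε hε0 hκ0
  · obtain ⟨c, hc⟩ := hp.out.dvd_choose_self (Nat.succ_ne_zero m) (by omega)
    have h3 : nm v ((p.choose (m + 1) : ℕ) : AdjoinRoot (SF p f)) ≤ κ := by
      refine (nm_natCast_le hv _).trans ?_
      rw [hc, Nat.cast_mul, map_mul]
      calc v (p : E) * v (c : E) ≤ κ * 1 :=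
            mul_le_mul hκp (v_natCast_le hv c) (v.nonneg _) hκ0
        _ = κ := mul_one _
    have h4 : nm v ε ^ (m + 1) ≤ ρ := by
      rw [pow_succ]
      calc nm v ε ^ m * nm v ε ≤ 1 * ρ :=
            mul_le_mul (pow_le_one₀ hε0 hε1) hε hε0 zero_le_one
        _ = ρ := one_mul _
    calc nm v ε ^ (m + 1) * nm v ((p.choose (m + 1) : ℕ) : AdjoinRoot (SF p f))
        ≤ ρ * κ := mul_le_mul h4 h3 (nm_nonneg _) hρ0
      _ = κ * ρ := mul_comm _ _

lemma iterate_close {κ : ℝ} (hκ1 : κ < 1) (hκp : v (p : E) ≤ κ) (z : AdjoinRoot (SF p f))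
    (hz : nm v (z - 1) ≤ κ) (k : ℕ) : nm v (z ^ p ^ k - 1) ≤ κ ^ (k + 1) := by
  have hκ0 : 0 ≤ κ := (nm_nonneg _).trans hz
  induction k with
  | zero => simpa using hz
  | succ k ih =>
    have hle : κ ^ (k + 1) ≤ κ := by
      rw [pow_succ]
      exact mul_le_of_le_one_left hκ0 (pow_le_one₀ hκ0 hκ1.le)
    have h1 := pow_close hv hpd hsmall hκ1 hκp (z ^ p ^ k - 1) ih hle
    have h2 : (1 + (z ^ p ^ k - 1)) ^ p = z ^ p ^ (k + 1) := by
      rw [add_sub_cancel, ← pow_mul, ← pow_succ]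
    rw [h2] at h1
    calc _ ≤ κ * κ ^ (k + 1) := h1
      _ = κ ^ (k + 1 + 1) := by ring

/-- Functions without zeros in the region `|x| ≤ 1` are almost constant there. -/
theorem almost_const (z q : AdjoinRoot (SF p f)) (N : E[X])
    (hN : gn v (N - 1) < 1) (hzq : z * q = AdjoinRoot.of (SF p f) N) :
    ∃ a : E, a ≠ 0 ∧ nm v (AdjoinRoot.of (SF p f) (C a⁻¹) * z - 1) < 1 := by
  have hN1 : gn v N = 1 := by
    have e1 : N = 1 + (N - 1) := by ring
    rw [e1, gn_add_eq_of_lt hv, gn_one]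
    rw [gn_one]
    exact hN
  have h1 : nm v z * nm v q = 1 := by
    rw [← nm_mul hv hpd hsmall, hzq, nm_of, hN1]
  have hz0 : Psi f z ≠ 0 := by
    intro h0
    rw [nm, h0, gn_zero, zero_mul] at h1
    exact zero_ne_one h1
  have hq0 : Psi f q ≠ 0 := by
    intro h0
    rw [nm, nm, h0, gn_zero, mul_zero] at h1
    exact zero_ne_one h1
  obtain ⟨i, hi⟩ := exists_top (v := v) hz0
  obtain ⟨j, hj⟩ := exists_top (v := v) hq0
  have hij := Top.mul hv hz0 hq0 hi hj
  have herr := (gn_Psi_mul hv hpd hsmall z q).2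
  have e1 : gn v (Psi f z) * gn v (Psi f q) = 1 := h1
  rw [e1, mul_one] at herr
  have hprod : Psi f z * Psi f q = expand E p N -
      expand E p (f - X ^ f.natDegree) * theta p f.natDegree (Se.hi f z q) := by
    have e2 := Psi_mul f z q
    rw [hzq, Psi_of] at e2
    rw [e2]; ring
  have hi0 : i + j = 0 := by
    by_contra hne
    have e2 := hij.1
    rw [gn_mul hv, e1, hprod, coeff_sub] at e2
    have e3 : v ((expand E p N).coeff (i + j)) < 1 := by
      have e4 : (expand E p N).coeff (i + j) = (expand E p (N - 1)).coeff (i + j) := by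
        rw [map_sub, map_one, coeff_sub, coeff_one, if_neg hne, sub_zero]
      rw [e4]
      refine lt_of_le_of_lt (coeff_le _ _) ?_
      rw [gn_expand hp.out.pos]
      exact hN
    have e5 : v ((expand E p (f - X ^ f.natDegree) *
        theta p f.natDegree (Se.hi f z q)).coeff (i + j)) < 1 :=
      lt_of_le_of_lt ((coeff_le _ _).trans herr) hsmall
    have e6 : v ((expand E p N).coeff (i + j) - (expand E p (f - X ^ f.natDegree) *
        theta p f.natDegree (Se.hi f z q)).coeff (i + j)) < 1 := by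
      rw [sub_eq_add_neg]
      refine lt_of_le_of_lt (hv _ _) (max_lt ?_ ?_)
      · exact e3
      · rw [v.map_neg]; exact e5
    rw [e2] at e6
    exact lt_irrefl _ e6
  have hi1 : i = 0 := by omega
  subst hi1
  set a := (Psi f z).coeff 0 with ha
  have hva : v a = gn v (Psi f z) := hi.1
  have hva0 : 0 < v a := by
    rw [hva]
    exact gn_pos hz0
  have ha0 : a ≠ 0 := by
    intro h0
    rw [h0, map_zero] at hva0
    exact lt_irrefl _ hva0
  refine ⟨a, ha0, ?_⟩
  rw [nm, Psi_sub, Psi_of_mul, expand_C, Psi_one]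
  obtain ⟨k, hk⟩ := exists_coeff_eq (v := v) (C a⁻¹ * Psi f z - 1)
  rw [hk, coeff_sub, coeff_C_mul, coeff_one]
  rcases Nat.eq_zero_or_pos k with rfl | hkpos
  · rw [← ha, inv_mul_cancel₀ ha0, if_pos rfl, sub_self, map_zero]
    exact one_pos
  · rw [if_neg (by omega), sub_zero, map_mul, map_inv₀, inv_mul_lt_iff₀ hva0, mul_one, hva]
    exact hi.2 k hkpos

end

section Main

variable {E : Type*} [Field E] {p : ℕ} [hp : Fact p.Prime] {f : E[X]} {v : AbsoluteValue E ℝ}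
  [CharZero E] [IsDomain (AdjoinRoot (SF p f))]

/-- The non-torsion lemma in normalised form. -/
theorem not_principal_aux (hv : IsNonarchimedean v) (hvp : v (p : E) < 1) (hmon : f.Monic)
    (hd : 2 ≤ f.natDegree) (hpd : ¬ p ∣ f.natDegree) (hsmall : gn v (f - X ^ f.natDegree) < 1)
    {ζ : E} (hζ : IsPrimitiveRoot ζ p) {t s : E} (hs : s ^ p = f.eval t) (hs0 : s ≠ 0)
    (ht : 1 < v t) (m : ℕ) (z : AdjoinRoot (SF p f))
    (hz : ptJ (SF p f) t s ^ (m + 1) = Ideal.span {z}) : False := by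
  have ht0 : t ≠ 0 := by rintro rfl; rw [map_zero] at ht; linarith
  have hvt : v t⁻¹ < 1 := by rw [map_inv₀]; exact inv_lt_one_of_one_lt₀ ht
  have hvt0 : 0 < v t⁻¹ := v.pos (inv_ne_zero ht0)
  set d := f.natDegree with hd'
  have hf1 : gn v f ≤ 1 := by
    have e1 : f = (f - X ^ d) + X ^ d := by ring
    rw [e1]
    exact (gn_add hv _ _).trans (max_le hsmall.le (gn_X_pow d).le)
  have hint : ∀ i, v (f.coeff i) ≤ 1 := fun i => (coeff_le f i).trans hf1
  -- algebra
  obtain ⟨hz0, h, hh, hh1, hh2⟩ := exists_log f hζ hs hs0 m z hz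
  set i := p - 1 with hi
  have hp2 := hp.out.two_le
  have hh₀ := log_coeff_ne_zero f hζ hs hs0 h hh1 hh2
  rw [← hi] at hh₀
  set hi' := (red f h).coeff i with hhi
  set h₀ := hi'.eval t with hh₀d
  have hne : hi' ≠ 0 := by
    intro h0
    rw [hh₀d, h0, eval_zero] at hh₀
    exact hh₀ rfl
  have hdegh := log_natDegree f hmon hpd t z h hz0 hh hne
  have hc : Nat.Coprime (i * d) p := by
    rw [Nat.coprime_comm, Nat.Prime.coprime_iff_not_dvd hp.out]
    intro h0
    rcases hp.out.dvd_mul.mp h0 with h1 | h1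
    · have := Nat.le_of_dvd (by omega) h1
      omega
    · exact hpd h1
  have hi0 : i ≠ 0 := by omega
  -- normalisation
  have hπ : AdjoinRoot.of (SF p f) (X - C t) ∈ ptJ (SF p f) t s :=
    Ideal.subset_span (Set.mem_insert _ _)
  have h2 : AdjoinRoot.of (SF p f) (X - C t) ^ (m + 1) ∈ Ideal.span {z} := by
    rw [← hz]
    exact Ideal.pow_mem_pow hπ _
  obtain ⟨q, hq⟩ := Ideal.mem_span_singleton.mp h2
  set N : E[X] := (1 - C t⁻¹ * X) ^ (m + 1) with hN
  have hu : (1 - C t⁻¹ * X : E[X]) = C (-t⁻¹) * (X - C t) := by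
    rw [mul_sub, ← C_mul, C_neg]
    have : -t⁻¹ * t = -1 := by field_simp
    rw [this]; simp; ring
  have hzq : z * (AdjoinRoot.of (SF p f) (C ((-t⁻¹) ^ (m + 1))) * q) =
      AdjoinRoot.of (SF p f) N := by
    rw [hN, hu, mul_pow, map_mul, map_pow _ (X - C t), hq, C_pow]
    ring
  have hu1 : gn v (1 - C t⁻¹ * X - 1 : E[X]) ≤ v t⁻¹ := by
    have e1 : (1 - C t⁻¹ * X - 1 : E[X]) = -(C t⁻¹ * X) := by ring
    rw [e1, gn_neg, gn_mul hv, gn_C]
    have : gn v (X : E[X]) = 1 := by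
      have := gn_X_pow (v := v) 1
      rwa [pow_one] at this
    rw [this, mul_one]
  have hNm1 : ∀ m : ℕ, gn v ((1 - C t⁻¹ * X) ^ m - 1 : E[X]) ≤ v t⁻¹ ∧
      gn v ((1 - C t⁻¹ * X) ^ m : E[X]) ≤ 1 := by
    intro m
    induction m with
    | zero => simp [gn_zero, gn_one]
    | succ m ih =>
      have e1 : ((1 - C t⁻¹ * X) ^ (m + 1) - 1 : E[X]) =
          (1 - C t⁻¹ * X) ^ m * (1 - C t⁻¹ * X - 1) + ((1 - C t⁻¹ * X) ^ m - 1) := by ring
      have h1 : gn v ((1 - C t⁻¹ * X) ^ (m + 1) - 1 : E[X]) ≤ v t⁻¹ := by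
        rw [e1]
        refine (gn_add hv _ _).trans (max_le ?_ ih.1)
        rw [gn_mul hv]
        calc gn v ((1 - C t⁻¹ * X) ^ m : E[X]) * gn v (1 - C t⁻¹ * X - 1 : E[X])
            ≤ 1 * v t⁻¹ := mul_le_mul ih.2 hu1 (gn_nonneg _) zero_le_one
          _ = v t⁻¹ := one_mul _
      refine ⟨h1, ?_⟩
      have e2 : ((1 - C t⁻¹ * X) ^ (m + 1) : E[X]) = ((1 - C t⁻¹ * X) ^ (m + 1) - 1) + 1 := by ring
      rw [e2]
      exact (gn_add hv _ _).trans (max_le (h1.trans hvt.le) (by rw [gn_one]))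
  obtain ⟨a, ha0, hza⟩ := almost_const hv hpd hsmall z _ N
    (lt_of_le_of_lt (hNm1 (m + 1)).1 hvt) hzq
  set z₁ := AdjoinRoot.of (SF p f) (C a⁻¹) * z with hz₁
  have hh' : AdjoinRoot.of (SF p f) (X - C t) * dl f z₁ = z₁ * h := by
    rw [hz₁, dl_mul, dl_of, derivative_C, mul_zero, map_zero, zero_mul, zero_add]
    linear_combination (AdjoinRoot.of (SF p f) (C a⁻¹)) * hh
  -- contraction constant
  set κ : ℝ := max (v (p : E)) (nm v (z₁ - 1)) with hκ
  have hκ1 : κ < 1 := max_lt hvp hza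
  have hκp : v (p : E) ≤ κ := le_max_left _ _
  have hκ0 : 0 ≤ κ := (v.nonneg _).trans hκp
  have hiter := iterate_close hv hpd hsmall hκ1 hκp z₁ (le_max_right _ _)
  -- decomposition of the top component
  obtain ⟨h₁, hh₁⟩ : (X - C t) ∣ hi' - C h₀ := by
    rw [dvd_iff_isRoot, IsRoot.def, eval_sub, eval_C, sub_self]
  have hΦh₁ : Phi p i d f h₁ = 0 := by
    refine Phi_eq_zero p i d f h₁ ?_
    by_cases h0 : h₁ = 0
    · left; exact h0
    · right
      have e1 : (hi' - C h₀).natDegree = 1 + h₁.natDegree := by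
        rw [hh₁, natDegree_mul (X_sub_C_ne_zero t) h0, natDegree_X_sub_C]
      have e2 : (hi' - C h₀).natDegree ≤ hi'.natDegree := by
        refine (natDegree_sub_le _ _).trans ?_
        rw [natDegree_C]; simp
      have e3 : 1 + h₁.natDegree ≤ hi'.natDegree := by omega
      rcases eq_or_ne p 2 with hp2' | hp2'
      · have e4 : hi'.natDegree * 2 ≤ d := by rw [← hp2']; exact hdegh
        have e5 : ¬ 2 ∣ d := by rw [← hp2']; exact hpd
        omega
      · have hp3 : 3 ≤ p := by omega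
        have e4 : hi'.natDegree * 3 ≤ d := (Nat.mul_le_mul_left _ hp3).trans hdegh
        omega
  -- the geometric polynomial
  set S : E[X] := ∑ j ∈ Finset.range d, monomial j (t⁻¹ ^ (j + 1)) with hS
  have hS1 : (X - C t) * S = monomial d (t⁻¹ ^ d) - 1 := telescope t ht0 _
  have hΦS : v (Phi p i d f S) = v t⁻¹ ^ (d - 1) := by
    rw [hS, map_sum]
    simp only [Phi_monomial]
    obtain ⟨c, hc'⟩ : ∃ c, d = c + 1 + 1 := ⟨d - 2, by omega⟩
    rw [hc', Finset.sum_range_succ, Finset.sum_range_succ]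
    have e1 : ∑ j ∈ Finset.range c, phi p i (c + 1 + 1) f j * t⁻¹ ^ (j + 1) = 0 :=
      Finset.sum_eq_zero fun j hj => by
        rw [phi_lt p i _ f j (by have := Finset.mem_range.mp hj; omega), zero_mul]
    have e2 : phi p i (c + 1 + 1) f c = 1 := phi_mid p i (c + 1 + 1) (by omega) f
    rw [e1, zero_add, e2, one_mul, v_add_eq_of_lt hv, map_pow]
    · congr 1
    · rw [map_mul, map_pow, map_pow]
      have e3 := v_phi_le p i (c + 1 + 1) hv hvp f hint (by omega) (by rw [← hc']; exact hc) (c + 1)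
      calc v (phi p i (c + 1 + 1) f (c + 1)) * v t⁻¹ ^ (c + 1 + 1) ≤ 1 * v t⁻¹ ^ (c + 1 + 1) :=
            mul_le_mul_of_nonneg_right e3 (by positivity)
        _ = v t⁻¹ ^ (c + 1 + 1) := one_mul _
        _ < v t⁻¹ ^ (c + 1) := pow_lt_pow_right_of_lt_one₀ hvt0 hvt (by omega)
  have hh₀pos : 0 < v h₀ := v.pos hh₀
  have hδ : 0 < v h₀ * v t⁻¹ ^ (d - 1) := by positivity
  have hXt : gn v (X - C t : E[X]) = v t := by
    have hX1 : gn v (X : E[X]) = 1 := by
      have := gn_X_pow (v := v) 1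
      rwa [pow_one] at this
    have e1 : (X - C t : E[X]) = -(C t) + X := by ring
    rw [e1, gn_add_eq_of_lt hv, gn_neg, gn_C]
    rw [gn_neg, gn_C, hX1]; exact ht
  have hp0 : (p : E) ≠ 0 := Nat.cast_ne_zero.mpr hp.out.ne_zero
  -- main estimate
  have hmain : ∀ k : ℕ, v h₀ * v t⁻¹ ^ (d - 1) ≤ κ ^ (k + 1) * nm v h := by
    intro k
    set ε := z₁ ^ p ^ k - 1 with hε
    have hpk : ((p : E) ^ k) ≠ 0 := pow_ne_zero _ hp0
    have e1 : AdjoinRoot.of (SF p f) (X - C t) * dl f ε =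
        AdjoinRoot.of (SF p f) (C ((p : E) ^ k)) * (h + ε * h) := by
      have e2 : dl f (z₁ ^ p ^ k) = dl f ε := by
        have e3 : z₁ ^ p ^ k = ε + 1 := by rw [hε]; ring
        rw [e3, dl_add, dl_one, add_zero]
      obtain ⟨M, hM⟩ : ∃ M, p ^ k = M + 1 :=
        ⟨p ^ k - 1, by have := pow_pos hp.out.pos k; omega⟩
      have e4 : AdjoinRoot.of (SF p f) (C ((p : E) ^ k)) = ((M + 1 : ℕ) : AdjoinRoot (SF p f)) := by
        rw [← hM]
        simp only [map_pow, map_natCast, Nat.cast_pow]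
      have e5 : z₁ ^ (M + 1) = ε + 1 := by
        rw [← hM, hε]; ring
      rw [← e2, hM, dl_pow, e4]
      have e6 : z₁ * z₁ ^ M = ε + 1 := by rw [← pow_succ']; exact e5
      linear_combination ((M + 1 : ℕ) : AdjoinRoot (SF p f)) * z₁ ^ M * hh' +
        ((M + 1 : ℕ) : AdjoinRoot (SF p f)) * h * e6
    have e2 := congrArg (fun w => (red f w).coeff i) e1
    simp only [red_of_mul, coeff_C_mul, coeff_red_dl, red_add, coeff_add] at e2
    set B := (red f ε).coeff i with hB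
    set r := (red f (ε * h)).coeff i with hr
    have hrn : gn v r ≤ κ ^ (k + 1) * nm v h := by
      have e3 : gn v r ≤ nm v (ε * h) :=
        gn_coeff_le hp.out hpd (natDegree_red_lt f (ε * h)) i
      refine e3.trans ?_
      rw [nm_mul hv hpd hsmall]
      exact mul_le_mul_of_nonneg_right (hiter k) (nm_nonneg _)
    set Y : E[X] := C ((p : E) ^ k)⁻¹ * TT p i f B - h₁ + C h₀ * S with hY
    have hCk : (C ((p : E) ^ k)⁻¹ : E[X]) * C ((p : E) ^ k) = 1 := by
      rw [← C_mul, inv_mul_cancel₀ hpk, C_1]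
    have hY1 : (X - C t) * Y = r + C h₀ * monomial d (t⁻¹ ^ d) := by
      calc (X - C t) * Y = C ((p : E) ^ k)⁻¹ * ((X - C t) * TT p i f B) - (X - C t) * h₁ +
            C h₀ * ((X - C t) * S) := by rw [hY]; ring
        _ = (C ((p : E) ^ k)⁻¹ * C ((p : E) ^ k)) * (hi' + r) - (hi' - C h₀) +
            C h₀ * (monomial d (t⁻¹ ^ d) - 1) := by
              rw [e2, ← hh₁, hS1]; ring
        _ = _ := by rw [hCk]; ring
    have hYn : gn v Y ≤ max (κ ^ (k + 1) * nm v h) (v h₀ * v t⁻¹ ^ d) := by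
      have e3 : gn v Y ≤ gn v ((X - C t) * Y) := by
        rw [gn_mul hv, hXt]
        exact le_mul_of_one_le_left (gn_nonneg _) ht.le
      refine e3.trans ?_
      rw [hY1]
      refine (gn_add hv _ _).trans (max_le_max hrn ?_)
      rw [gn_mul hv, gn_C]
      have e4 : gn v (monomial d (t⁻¹ ^ d)) = v t⁻¹ ^ d := by
        rw [← C_mul_X_pow_eq_monomial, gn_mul hv, gn_C, gn_X_pow, mul_one, map_pow]
      rw [e4]
    have hΦT : Phi p i d f (C ((p : E) ^ k)⁻¹ * TT p i f B) = 0 := by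
      rw [← smul_eq_C_mul, map_smul, Phi_TT p i d f hd hmon rfl hi0, smul_zero]
    have e3 : h₀ * Phi p i d f S = Phi p i d f Y := by
      have e0 : Phi p i d f (C h₀ * S) = h₀ * Phi p i d f S := by
        rw [← smul_eq_C_mul, map_smul, smul_eq_mul]
      rw [hY, map_add, map_sub, hΦT, hΦh₁, e0]; ring
    have hfin : v h₀ * v t⁻¹ ^ (d - 1) ≤
        max (κ ^ (k + 1) * nm v h) (v h₀ * v t⁻¹ ^ d) := by
      rw [← hΦS, ← map_mul, e3]
      exact (v_Phi_le p i d hv hvp f hint hd hc Y).trans hYn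
    have hlt : v h₀ * v t⁻¹ ^ d < v h₀ * v t⁻¹ ^ (d - 1) :=
      mul_lt_mul_of_pos_left (pow_lt_pow_right_of_lt_one₀ hvt0 hvt (by omega)) hh₀pos
    rcases le_max_iff.mp hfin with e4 | e4
    · exact e4
    · exact absurd e4 (not_le.mpr hlt)
  have hM : 0 < max 1 (nm v h) := lt_of_lt_of_le one_pos (le_max_left _ _)
  obtain ⟨k, hk⟩ := exists_pow_lt_of_lt_one (div_pos hδ hM) hκ1
  have h3 := hmain k
  have h4 : κ ^ (k + 1) ≤ κ ^ k := pow_le_pow_of_le_one hκ0 hκ1.le (Nat.le_succ k)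
  rw [lt_div_iff₀ hM] at hk
  have h5 : κ ^ (k + 1) * nm v h ≤ κ ^ k * max 1 (nm v h) :=
    mul_le_mul h4 (le_max_right _ _) (nm_nonneg _) (by positivity)
  linarith

end Main

end Pool.Agent.MPab1e31.Se
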