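import Pool.Agent.MPab1e31Se.Fix

/-!
# Superelliptic coordinate rings `k[x, y] / (y ^ n - f (x))` and the classes of their points
-/

open Polynomial

namespace Pool.Agent.MPab1e31.Se

open Pool.Agent.MPab1e31

section Basic

variable {k k' : Type*} [Field k] [Field k']

/-- The polynomial `y ^ n - f (x)`. -/
noncomputable def SF (n : ℕ) (f : k[X]) : k[X][X] := X ^ n - C f

lemma SF_monic {n : ℕ} (hn : n ≠ 0) (f : k[X]) : (SF n f).Monic := monic_X_pow_sub_C f hn

lemma natDegree_SF (n : ℕ) (f : k[X]) : (SF n f).natDegree = n := natDegree_X_pow_sub_C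

lemma cm_SF (g : k →+* k') (n : ℕ) (f : k[X]) : cm g (SF n f) = SF n (f.map g) := by
  rw [cm_apply, SF, SF, Polynomial.map_sub, Polynomial.map_pow, map_X, map_C]
  rfl

lemma eval₂_SF {S : Type*} [CommRing S] (φ : k[X] →+* S) (x : S) (n : ℕ) (f : k[X]) :
    eval₂ φ x (SF n f) = x ^ n - φ f := by
  rw [SF, eval₂_sub, eval₂_X_pow, eval₂_C]

theorem irreducible_SF {n : ℕ} (hn : n ≠ 0) (f : k[X]) (hsq : Squarefree f)
    (hd : f.natDegree ≠ 0) : Irreducible (SF n f) := by
  have hf0 : f ≠ 0 := by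
    rintro rfl
    exact hd natDegree_zero
  have hfu : ¬ IsUnit f := fun h => hd (natDegree_eq_zero_of_isUnit h)
  obtain ⟨π, hπ, hπf⟩ := WfDvdMonoid.exists_irreducible_factor hfu hf0
  have hπp : Prime π := hπ.prime
  have hmon := SF_monic hn f
  refine irreducible_of_eisenstein_criterion (P := Ideal.span {π})
    ((Ideal.span_singleton_prime hπp.ne_zero).mpr hπp) ?_ ?_ ?_ ?_ hmon.isPrimitive
  · rw [hmon.leadingCoeff, Ideal.mem_span_singleton]
    exact fun h => hπp.not_unit (isUnit_of_dvd_one h)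
  · intro i hi
    rw [degree_eq_natDegree hmon.ne_zero, natDegree_SF] at hi
    have hi' : i < n := by exact_mod_cast hi
    rw [SF, coeff_sub, coeff_X_pow, if_neg hi'.ne, coeff_C, zero_sub, neg_mem_iff]
    split_ifs with h0
    · exact Ideal.mem_span_singleton.mpr hπf
    · exact zero_mem _
  · rw [← natDegree_pos_iff_degree_pos, natDegree_SF]
    exact Nat.pos_of_ne_zero hn
  · rw [SF, coeff_sub, coeff_X_pow, if_neg (Ne.symm hn), coeff_C_zero, zero_sub, neg_mem_iff,
      Ideal.span_singleton_pow, Ideal.mem_span_singleton, sq]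
    exact fun h => hπp.not_unit (hsq π h)

theorem isDomain_SF {n : ℕ} (hn : n ≠ 0) (f : k[X]) (hsq : Squarefree f)
    (hd : f.natDegree ≠ 0) : IsDomain (AdjoinRoot (SF n f)) :=
  AdjoinRoot.isDomain_of_prime (irreducible_SF hn f hsq hd).prime

end Basic

section Pair

variable {R : Type*} [CommRing R]

lemma span_pair_mul (a b c : R) (h : IsCoprime b c) :
    Ideal.span {a, b} * Ideal.span {a, c} = Ideal.span {a, b * c} := by
  apply le_antisymm
  · rw [Ideal.span_mul_span', Ideal.span_le]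
    have ha : a ∈ Ideal.span {a, b * c} := Ideal.subset_span (by simp)
    rintro _ ⟨x, (rfl | rfl), y, (rfl | rfl), rfl⟩
    · exact Ideal.mul_mem_right _ _ ha
    · exact Ideal.mul_mem_right _ _ ha
    · exact Ideal.mul_mem_left _ _ ha
    · exact Ideal.subset_span (by simp)
  · rw [Ideal.span_le]
    have ha1 : a ∈ Ideal.span {a, b} := Ideal.subset_span (by simp)
    have ha2 : a ∈ Ideal.span {a, c} := Ideal.subset_span (by simp)
    have hb : b ∈ Ideal.span {a, b} := Ideal.subset_span (by simp)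
    have hc : c ∈ Ideal.span {a, c} := Ideal.subset_span (by simp)
    have key : a ∈ Ideal.span {a, b} * Ideal.span {a, c} := by
      obtain ⟨u, v, huv⟩ := h
      have e1 : u * (b * a) + v * (a * c) = a := by
        linear_combination a * huv
      have e2 := add_mem (Ideal.mul_mem_left _ u (Ideal.mul_mem_mul hb ha2))
        (Ideal.mul_mem_left _ v (Ideal.mul_mem_mul ha1 hc))
      rwa [e1] at e2
    rintro _ (rfl | rfl)
    · exact key
    · exact Ideal.mul_mem_mul hb hc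

lemma span_pair_prod {ι : Type*} [DecidableEq ι] (a : R) (b : ι → R) (s : Finset ι)
    (h : ∀ i ∈ s, ∀ j ∈ s, i ≠ j → IsCoprime (b i) (b j)) :
    ∏ i ∈ s, Ideal.span {a, b i} = Ideal.span {a, ∏ i ∈ s, b i} := by
  induction s using Finset.induction_on with
  | empty =>
    rw [Finset.prod_empty, Finset.prod_empty, Ideal.one_eq_top]
    exact ((Ideal.eq_top_iff_one _).mpr (Ideal.subset_span (by simp))).symm
  | insert i s hi ih =>
    rw [Finset.prod_insert hi, Finset.prod_insert hi, ih, span_pair_mul]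
    · refine IsCoprime.prod_right fun j hj => h i (Finset.mem_insert_self i s) j
        (Finset.mem_insert_of_mem hj) ?_
      rintro rfl
      exact hi hj
    · intro j hj j' hj'
      exact h j (Finset.mem_insert_of_mem hj) j' (Finset.mem_insert_of_mem hj')

end Pair

section Point

variable {k : Type*} [Field k]

/-- The ideal of the point `(t, s)`. -/
noncomputable def ptJ (F : k[X][X]) (t s : k) : Ideal (AdjoinRoot F) :=
  Ideal.span {AdjoinRoot.of F (X - C t), AdjoinRoot.root F - AdjoinRoot.of F (C s)}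

lemma root_pow (n : ℕ) (f : k[X]) :
    AdjoinRoot.root (SF n f) ^ n = AdjoinRoot.of (SF n f) f := by
  have h := AdjoinRoot.eval₂_root (SF n f)
  rw [eval₂_SF] at h
  exact sub_eq_zero.mp h

lemma of_ne_zero {n : ℕ} (hn : n ≠ 0) (f : k[X]) {a : k[X]} (ha : a ≠ 0) :
    AdjoinRoot.of (SF n f) a ≠ 0 := by
  intro h0
  have h1 : AdjoinRoot.mk (SF n f) (C a) = 0 := h0
  rw [AdjoinRoot.mk_eq_zero] at h1
  refine (SF_monic hn f).not_dvd_of_degree_lt (C_ne_zero.mpr ha) ?_ h1
  rw [degree_C ha, ← natDegree_pos_iff_degree_pos, natDegree_SF]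
  exact Nat.pos_of_ne_zero hn

/-- The product of the conjugate points is principal. -/
theorem prod_ptJ {n : ℕ} (hn : n ≠ 0) (f : k[X]) {ζ : k} (hζ : IsPrimitiveRoot ζ n) {t s : k}
    (hs : s ^ n = f.eval t) (hs0 : s ≠ 0) :
    ∏ i ∈ Finset.range n, ptJ (SF n f) t (ζ ^ i * s) =
      Ideal.span {AdjoinRoot.of (SF n f) (X - C t)} := by
  classical
  have hζ0 : ζ ≠ 0 := hζ.ne_zero hn
  have h1 := span_pair_prod (AdjoinRoot.of (SF n f) (X - C t))
    (fun i => AdjoinRoot.root (SF n f) - AdjoinRoot.of (SF n f) (C (ζ ^ i * s))) (Finset.range n) (by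
      intro i hi j hj hij
      have hne : ζ ^ j * s - ζ ^ i * s ≠ 0 := by
        rw [← sub_mul]
        refine mul_ne_zero (fun h0 => hij ?_) hs0
        exact (hζ.pow_inj (Finset.mem_range.mp hj) (Finset.mem_range.mp hi)
          (sub_eq_zero.mp h0)).symm
      refine ⟨AdjoinRoot.of (SF n f) (C (ζ ^ j * s - ζ ^ i * s)⁻¹),
        -AdjoinRoot.of (SF n f) (C (ζ ^ j * s - ζ ^ i * s)⁻¹), ?_⟩
      have e1 : AdjoinRoot.of (SF n f) (C (ζ ^ j * s - ζ ^ i * s)⁻¹) *
          AdjoinRoot.of (SF n f) (C (ζ ^ j * s - ζ ^ i * s)) = 1 := by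
        rw [← map_mul, ← C_mul, inv_mul_cancel₀ hne, C_1, map_one]
      rw [C_sub, map_sub] at e1
      linear_combination e1)
  have h2 : ∏ i ∈ Finset.range n,
      (AdjoinRoot.root (SF n f) - AdjoinRoot.of (SF n f) (C (ζ ^ i * s))) =
      AdjoinRoot.root (SF n f) ^ n - AdjoinRoot.of (SF n f) (C (s ^ n)) := by
    have e1 := X_pow_sub_C_eq_prod hζ (Nat.pos_of_ne_zero hn) (rfl : s ^ n = s ^ n)
    have e2 := congrArg (Polynomial.eval₂ ((AdjoinRoot.of (SF n f)).comp C)
      (AdjoinRoot.root (SF n f))) e1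
    rw [eval₂_sub, eval₂_X_pow, eval₂_C, eval₂_finsetProd] at e2
    simp only [eval₂_sub, eval₂_X, eval₂_C, RingHom.comp_apply] at e2
    exact e2.symm
  obtain ⟨q, hq⟩ : (X - C t) ∣ f - C (f.eval t) := by
    rw [dvd_iff_isRoot, IsRoot.def, eval_sub, eval_C, sub_self]
  have h3 : AdjoinRoot.root (SF n f) ^ n - AdjoinRoot.of (SF n f) (C (s ^ n)) =
      AdjoinRoot.of (SF n f) (X - C t) * AdjoinRoot.of (SF n f) q := by
    rw [root_pow, hs, ← map_sub, hq, map_mul]
  refine h1.trans ?_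
  rw [h2, h3]
  apply le_antisymm
  · rw [Ideal.span_le]
    rintro _ (rfl | rfl)
    · exact Ideal.mem_span_singleton_self _
    · exact Ideal.mul_mem_right _ _ (Ideal.mem_span_singleton_self _)
  · rw [Ideal.span_singleton_le_iff_mem]
    exact Ideal.subset_span (by simp)

/-- Evaluation at a point. -/
noncomputable def evp (n : ℕ) (f : k[X]) (t s : k) (hs : s ^ n = f.eval t) :
    AdjoinRoot (SF n f) →+* k :=
  AdjoinRoot.lift (evalRingHom t) s (by
    rw [eval₂_SF, coe_evalRingHom, hs, sub_self])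

lemma evp_of (n : ℕ) (f : k[X]) (t s : k) (hs : s ^ n = f.eval t) (a : k[X]) :
    evp n f t s hs (AdjoinRoot.of _ a) = a.eval t := by
  rw [evp, AdjoinRoot.lift_of]
  rfl

lemma evp_root (n : ℕ) (f : k[X]) (t s : k) (hs : s ^ n = f.eval t) :
    evp n f t s hs (AdjoinRoot.root _) = s := by
  rw [evp, AdjoinRoot.lift_root]

/-- Multiplication of `y` by a root of unity. -/
noncomputable def tau (n : ℕ) (f : k[X]) (ζ : k) (hζ : ζ ^ n = 1) :
    AdjoinRoot (SF n f) →+* AdjoinRoot (SF n f) :=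
  AdjoinRoot.lift (AdjoinRoot.of _) (AdjoinRoot.of _ (C ζ) * AdjoinRoot.root _) (by
    rw [eval₂_SF, mul_pow, root_pow, ← map_pow, ← C_pow, hζ, C_1, map_one, one_mul, sub_self])

lemma tau_of (n : ℕ) (f : k[X]) (ζ : k) (hζ : ζ ^ n = 1) (a : k[X]) :
    tau n f ζ hζ (AdjoinRoot.of _ a) = AdjoinRoot.of _ a := by
  rw [tau, AdjoinRoot.lift_of]

lemma tau_root (n : ℕ) (f : k[X]) (ζ : k) (hζ : ζ ^ n = 1) :
    tau n f ζ hζ (AdjoinRoot.root _) = AdjoinRoot.of _ (C ζ) * AdjoinRoot.root _ := by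
  rw [tau, AdjoinRoot.lift_root]

lemma tau_injective (n : ℕ) (f : k[X]) (ζ : k) (hζ : ζ ^ n = 1) (hζ0 : ζ ≠ 0) :
    Function.Injective (tau n f ζ hζ) := by
  have hζ' : (ζ⁻¹) ^ n = 1 := by rw [inv_pow, hζ, inv_one]
  have h1 : (tau n f ζ⁻¹ hζ').comp (tau n f ζ hζ) = RingHom.id _ := by
    refine AdjoinRoot.ringHom_ext ?_ ?_
    · refine RingHom.ext fun a => ?_
      rw [RingHom.comp_apply, RingHom.comp_apply, tau_of, tau_of]
      rfl
    · rw [RingHom.comp_apply, tau_root, map_mul, tau_of, tau_root, ← mul_assoc, ← map_mul, ← C_mul,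
        mul_inv_cancel₀ hζ0, C_1, map_one, one_mul]
      rfl
  intro a b hab
  have h2 := congrArg (tau n f ζ⁻¹ hζ') hab
  rw [← RingHom.comp_apply, ← RingHom.comp_apply, h1] at h2
  exact h2

lemma map_tau_ptJ (n : ℕ) (f : k[X]) (ζ : k) (hζ : ζ ^ n = 1) (hζ0 : ζ ≠ 0) (t s : k) :
    (ptJ (SF n f) t (ζ * s)).map (tau n f ζ hζ) = ptJ (SF n f) t s := by
  have hu : AdjoinRoot.of (SF n f) (C ζ⁻¹) * AdjoinRoot.of (SF n f) (C ζ) = 1 := by
    rw [← map_mul, ← C_mul, inv_mul_cancel₀ hζ0, C_1, map_one]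
  have e0 : tau n f ζ hζ (AdjoinRoot.root (SF n f) - AdjoinRoot.of (SF n f) (C (ζ * s))) =
      AdjoinRoot.of (SF n f) (C ζ) * AdjoinRoot.root (SF n f) -
      AdjoinRoot.of (SF n f) (C (ζ * s)) := by
    rw [map_sub (tau n f ζ hζ), tau_of, tau_root]
  rw [ptJ, Ideal.map_span, Set.image_pair, e0, tau_of, ptJ]
  have e1 : AdjoinRoot.of (SF n f) (C ζ) * AdjoinRoot.root (SF n f) -
      AdjoinRoot.of (SF n f) (C (ζ * s)) =
      AdjoinRoot.of (SF n f) (C ζ) * (AdjoinRoot.root (SF n f) - AdjoinRoot.of (SF n f) (C s)) := by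
    rw [C_mul, map_mul]; ring
  rw [e1]
  apply le_antisymm
  · rw [Ideal.span_le]
    rintro _ (rfl | rfl)
    · exact Ideal.subset_span (by simp)
    · exact Ideal.mul_mem_left _ _ (Ideal.subset_span (by simp))
  · rw [Ideal.span_le]
    rintro _ (rfl | rfl)
    · exact Ideal.subset_span (by simp)
    · have e2 : AdjoinRoot.of (SF n f) (C ζ⁻¹) * (AdjoinRoot.of (SF n f) (C ζ) *
            (AdjoinRoot.root (SF n f) - AdjoinRoot.of (SF n f) (C s))) =
          AdjoinRoot.root (SF n f) - AdjoinRoot.of (SF n f) (C s) := by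
        rw [← mul_assoc, hu, one_mul]
      have e3 : AdjoinRoot.of (SF n f) (C ζ) *
          (AdjoinRoot.root (SF n f) - AdjoinRoot.of (SF n f) (C s)) ∈
          Ideal.span {AdjoinRoot.of (SF n f) (X - C t), AdjoinRoot.of (SF n f) (C ζ) *
          (AdjoinRoot.root (SF n f) - AdjoinRoot.of (SF n f) (C s))} :=
        Ideal.subset_span (Set.mem_insert_of_mem _ rfl)
      have e4 := Ideal.mul_mem_left _ (AdjoinRoot.of (SF n f) (C ζ⁻¹)) e3
      rwa [e2] at e4

lemma map_rmap_ptJ {k' : Type*} [Field k'] (g : k →+* k') {F : k[X][X]} {F' : k'[X][X]}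
    (h : cm g F = F') (t s : k) : (ptJ F t s).map (rmap g h) = ptJ F' (g t) (g s) := by
  have h1 : ∀ a : k[X], rmap g h (AdjoinRoot.of F a) = AdjoinRoot.of F' (a.map g) := by
    intro a
    rw [rmap, AdjoinRoot.map_of]
    rfl
  have h2 : rmap g h (AdjoinRoot.root F) = AdjoinRoot.root F' := by
    rw [rmap, AdjoinRoot.map_root]
  have h3 : rmap g h (AdjoinRoot.root F - AdjoinRoot.of F (C s)) =
      AdjoinRoot.root F' - AdjoinRoot.of F' (C (g s)) := by
    rw [map_sub (rmap g h), h1, h2, map_C]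
  rw [ptJ, Ideal.map_span, Set.image_pair, h3, h1, ptJ, Polynomial.map_sub, map_X, map_C]

end Point

end Pool.Agent.MPab1e31.Se
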