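import Pool.Agent.MPab1e31Se.Phi
import Pool.Agent.MPab1e31Se.Pt

/-!
Norm, degree and derivation on the coordinate ring of a superelliptic curve.
-/

namespace Pool.Agent.MPab1e31.Se

open Polynomial Pool.Agent.MPab1e31.Hyp

section Red

variable {E : Type*} [Field E] {p : ℕ} [hp : Fact p.Prime] (f : E[X])

/-- Reduced representative. -/
noncomputable def red (z : AdjoinRoot (SF p f)) : E[X][X] :=
  AdjoinRoot.modByMonicHom (SF_monic hp.out.ne_zero f) z

lemma mk_red (z : AdjoinRoot (SF p f)) : AdjoinRoot.mk (SF p f) (red f z) = z :=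
  AdjoinRoot.mk_leftInverse (SF_monic hp.out.ne_zero f) z

lemma red_mk (q : E[X][X]) : red f (AdjoinRoot.mk (SF p f) q) = q %ₘ SF p f :=
  AdjoinRoot.modByMonicHom_mk _ _

lemma red_mk_of_lt {q : E[X][X]} (hq : q.natDegree < p) :
    red f (AdjoinRoot.mk (SF p f) q) = q := by
  rw [red_mk, modByMonic_eq_self_iff (SF_monic hp.out.ne_zero f)]
  refine degree_lt_degree ?_
  rwa [natDegree_SF]

lemma red_add (z w : AdjoinRoot (SF p f)) : red f (z + w) = red f z + red f w := map_add _ z w

lemma red_sub (z w : AdjoinRoot (SF p f)) : red f (z - w) = red f z - red f w := map_sub _ z w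

lemma red_zero : red f (0 : AdjoinRoot (SF p f)) = 0 :=
  map_zero (AdjoinRoot.modByMonicHom (SF_monic hp.out.ne_zero f))

lemma natDegree_red_lt (z : AdjoinRoot (SF p f)) : (red f z).natDegree < p := by
  obtain ⟨q, rfl⟩ := AdjoinRoot.mk_surjective z
  rw [red_mk]
  have := natDegree_modByMonic_lt q (SF_monic hp.out.ne_zero f) (by
    intro h1
    have h2 := natDegree_SF p f
    rw [h1, natDegree_one] at h2
    exact hp.out.ne_zero h2.symm)
  rwa [natDegree_SF] at this

lemma red_coeff_eq_zero (z : AdjoinRoot (SF p f)) {i : ℕ} (hi : p ≤ i) :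
    (red f z).coeff i = 0 :=
  coeff_eq_zero_of_natDegree_lt (lt_of_lt_of_le (natDegree_red_lt f z) hi)

lemma red_eq_zero {z : AdjoinRoot (SF p f)} (h : red f z = 0) : z = 0 := by
  rw [← mk_red f z, h, map_zero]

lemma red_of (a : E[X]) : red f (AdjoinRoot.of (SF p f) a) = C a :=
  red_mk_of_lt f (q := C a) (by rw [natDegree_C]; exact hp.out.pos)

/-- The high part of a product. -/
noncomputable def hi (z w : AdjoinRoot (SF p f)) : E[X][X] :=
  ∑ m ∈ Finset.range p, monomial m ((red f z * red f w).coeff (m + p))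

/-- The low part of a product. -/
noncomputable def lo (z w : AdjoinRoot (SF p f)) : E[X][X] :=
  ∑ m ∈ Finset.range p, monomial m ((red f z * red f w).coeff m)

lemma natDegree_sum_lt (G : ℕ → E[X]) :
    (∑ m ∈ Finset.range p, monomial m (G m)).natDegree < p := by
  have h1 : (∑ m ∈ Finset.range p, monomial m (G m)).natDegree ≤ p - 1 := by
    refine natDegree_sum_le_of_forall_le _ _ fun m hm => ?_
    have := natDegree_monomial_le (G m) (m := m)
    have h2 := Finset.mem_range.mp hm
    exact this.trans (by omega)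
  have := hp.out.pos
  omega

lemma prod_eq (z w : AdjoinRoot (SF p f)) :
    red f z * red f w = lo f z w + X ^ p * hi f z w := by
  have h1 : (red f z * red f w).natDegree < p + p := by
    have e1 := natDegree_mul_le (p := red f z) (q := red f w)
    have e2 := natDegree_red_lt f z
    have e3 := natDegree_red_lt f w
    omega
  conv_lhs => rw [as_sum_range' (red f z * red f w) (p + p) h1]
  rw [Finset.sum_range_add, lo, hi, Finset.mul_sum]
  congr 1
  refine Finset.sum_congr rfl fun m _ => ?_
  rw [← monomial_one_right_eq_X_pow, monomial_mul_monomial, one_mul, add_comm p m]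

lemma red_mul (z w : AdjoinRoot (SF p f)) :
    red f (z * w) = lo f z w + C f * hi f z w := by
  have h1 : AdjoinRoot.mk (SF p f) (lo f z w + C f * hi f z w) = z * w := by
    conv_rhs => rw [← mk_red f z, ← mk_red f w, ← map_mul, prod_eq]
    rw [AdjoinRoot.mk_eq_mk]
    refine ⟨-hi f z w, ?_⟩
    rw [SF]; ring
  rw [← h1, red_mk_of_lt]
  have h2 := natDegree_sum_lt (p := p) fun m => (red f z * red f w).coeff m
  have h3 := natDegree_sum_lt (p := p) fun m => (red f z * red f w).coeff (m + p)
  have h4 := natDegree_C_mul_le f (hi f z w)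
  refine lt_of_le_of_lt (natDegree_add_le _ _) (max_lt h2 (lt_of_le_of_lt h4 h3))

end Red

section Theta

variable {E : Type*} [Field E] (p : ℕ) (d : ℕ)

/-- The substitution `x = τ ^ p`, `y = τ ^ d`. -/
noncomputable def theta : E[X][X] →+* E[X] :=
  eval₂RingHom (expand E p : E[X] →+* E[X]) (X ^ d)

lemma theta_C (a : E[X]) : theta p d (C a) = expand E p a := by
  rw [theta, coe_eval₂RingHom, eval₂_C]
  rfl

lemma theta_X : theta p d (X : E[X][X]) = X ^ d := by
  rw [theta, coe_eval₂RingHom, eval₂_X]

lemma theta_monomial (m : ℕ) (a : E[X]) :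
    theta p d (monomial m a) = expand E p a * X ^ (d * m) := by
  rw [theta, coe_eval₂RingHom, eval₂_monomial, ← pow_mul]
  rfl

lemma theta_eq_sum (q : E[X][X]) {n : ℕ} (hn : q.natDegree < n) :
    theta p d q = ∑ i ∈ Finset.range n, expand E p (q.coeff i) * X ^ (d * i) := by
  conv_lhs => rw [as_sum_range' q n hn]
  rw [map_sum]
  exact Finset.sum_congr rfl fun i _ => theta_monomial p d i _

variable {p d}

lemma coeff_theta (hp : p.Prime) (hpd : ¬ p ∣ d) {q : E[X][X]} (hq : q.natDegree < p) {i : ℕ}
    (hi : i < p) (j : ℕ) : (theta p d q).coeff (j * p + d * i) = (q.coeff i).coeff j := by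
  rw [theta_eq_sum p d q hq, finsetSum_coeff, Finset.sum_eq_single_of_mem i
    (Finset.mem_range.mpr hi)]
  · rw [coeff_mul_X_pow', if_pos (by omega), Nat.add_sub_cancel, coeff_expand_mul hp.pos]
  · intro i' hi' hne
    rw [coeff_mul_X_pow', coeff_expand hp.pos]
    have hi'p := Finset.mem_range.mp hi'
    split_ifs with h1 h2
    · exfalso
      -- `p ∣ d (i - i')`
      have h3 : (p : ℤ) ∣ (d : ℤ) * ((i : ℤ) - i') := by
        obtain ⟨c, hc⟩ := h2
        refine ⟨c - j, ?_⟩
        have h4 : j * p + d * i = p * c + d * i' := by omega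
        have h5 : (j : ℤ) * p + d * i = p * c + d * i' := by exact_mod_cast h4
        linear_combination h5
      have hpz : Prime (p : ℤ) := Nat.prime_iff_prime_int.mp hp
      rcases hpz.dvd_or_dvd h3 with h4 | h4
      · exact hpd (by exact_mod_cast h4)
      · obtain ⟨c, hc⟩ := h4
        have hpos := hp.pos
        rcases lt_trichotomy c 0 with h5 | h5 | h5
        · have : (p : ℤ) * c ≤ p * (-1) := mul_le_mul_of_nonneg_left (by omega) (by omega)
          omega
        · rw [h5, mul_zero] at hc
          exact hne (by omega)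
        · have : (p : ℤ) * 1 ≤ p * c := mul_le_mul_of_nonneg_left (by omega) (by omega)
          omega
    · rfl
    · rfl

lemma theta_eq_zero (hp : p.Prime) (hpd : ¬ p ∣ d) {q : E[X][X]} (hq : q.natDegree < p)
    (h : theta p d q = 0) : q = 0 := by
  ext i j
  rcases lt_or_ge i p with hi | hi
  · rw [← coeff_theta hp hpd hq hi j, h]
    simp
  · rw [coeff_eq_zero_of_natDegree_lt (lt_of_lt_of_le hq hi)]
    simp

lemma natDegree_le_theta (hp : p.Prime) (hpd : ¬ p ∣ d) {q : E[X][X]} (hq : q.natDegree < p)
    {i : ℕ} (hi : i < p) (h0 : q.coeff i ≠ 0) :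
    (q.coeff i).natDegree * p + d * i ≤ (theta p d q).natDegree := by
  apply le_natDegree_of_ne_zero
  rw [coeff_theta hp hpd hq hi]
  exact leadingCoeff_ne_zero.mpr h0

lemma natDegree_theta_le {q : E[X][X]} {D : ℕ}
    (h : ∀ i, q.coeff i ≠ 0 → (q.coeff i).natDegree * p + d * i ≤ D) :
    (theta p d q).natDegree ≤ D := by
  rw [theta_eq_sum p d q (Nat.lt_succ_self _)]
  refine natDegree_sum_le_of_forall_le _ _ fun i _ => ?_
  by_cases h0 : q.coeff i = 0
  · rw [h0, map_zero, zero_mul, natDegree_zero]
    exact Nat.zero_le _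
  · refine natDegree_mul_le.trans ?_
    rw [natDegree_expand, natDegree_X_pow]
    exact h i h0

end Theta

section Norm

variable {E : Type*} [Field E] {v : AbsoluteValue E ℝ}

lemma gn_expand {p : ℕ} (hp : 0 < p) (q : E[X]) : gn v (expand E p q) = gn v q := by
  apply le_antisymm
  · refine gn_le fun i => ?_
    rw [coeff_expand hp]
    split_ifs with h
    · exact coeff_le q _
    · rw [map_zero]; exact gn_nonneg q
  · refine gn_le fun i => ?_
    rw [← coeff_expand_mul hp q i]
    exact coeff_le _ _

lemma gn_sum_le (hv : IsNonarchimedean v) {ι : Type*} (s : Finset ι) (G : ι → E[X]) {M : ℝ}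
    (hM : 0 ≤ M) (h : ∀ i ∈ s, gn v (G i) ≤ M) : gn v (∑ i ∈ s, G i) ≤ M := by
  classical
  induction s using Finset.induction_on with
  | empty => rw [Finset.sum_empty, gn_zero]; exact hM
  | insert a s ha ih =>
    rw [Finset.sum_insert ha]
    exact (gn_add hv _ _).trans (max_le (h a (Finset.mem_insert_self _ _))
      (ih fun i hi => h i (Finset.mem_insert_of_mem hi)))

lemma gn_theta_le (hv : IsNonarchimedean v) {p : ℕ} (hp : 0 < p) (d : ℕ) {q : E[X][X]} {M : ℝ}
    (hM : 0 ≤ M) (h : ∀ i, gn v (q.coeff i) ≤ M) : gn v (theta p d q) ≤ M := by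
  rw [theta_eq_sum p d q (Nat.lt_succ_self _)]
  refine gn_sum_le hv _ _ hM fun i _ => ?_
  rw [gn_mul hv, gn_expand hp, gn_X_pow, mul_one]
  exact h i

lemma gn_coeff_le {p d : ℕ} (hp : p.Prime) (hpd : ¬ p ∣ d) {q : E[X][X]}
    (hq : q.natDegree < p) (i : ℕ) : gn v (q.coeff i) ≤ gn v (theta p d q) := by
  rcases lt_or_ge i p with hi | hi
  · refine gn_le fun j => ?_
    rw [← coeff_theta hp hpd hq hi j]
    exact coeff_le _ _
  · rw [coeff_eq_zero_of_natDegree_lt (lt_of_lt_of_le hq hi), gn_zero]
    exact gn_nonneg _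

end Norm

section Mul

variable {E : Type*} [Field E] {p : ℕ} [hp : Fact p.Prime] (f : E[X])

/-- The image under `x = τ ^ p`, `y = τ ^ d`. -/
noncomputable def Psi (z : AdjoinRoot (SF p f)) : E[X] := theta p f.natDegree (red f z)

lemma Psi_add (z w : AdjoinRoot (SF p f)) : Psi f (z + w) = Psi f z + Psi f w := by
  rw [Psi, red_add, map_add]
  rfl

lemma Psi_sub (z w : AdjoinRoot (SF p f)) : Psi f (z - w) = Psi f z - Psi f w := by
  rw [Psi, red_sub, map_sub]
  rfl

lemma Psi_of (a : E[X]) : Psi f (AdjoinRoot.of (SF p f) a) = expand E p a := by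
  rw [Psi, red_of, theta_C]

lemma Psi_mul (z w : AdjoinRoot (SF p f)) :
    Psi f (z * w) = Psi f z * Psi f w +
      expand E p (f - X ^ f.natDegree) * theta p f.natDegree (hi f z w) := by
  have h1 : Psi f z * Psi f w = theta p f.natDegree (lo f z w) +
      X ^ (f.natDegree * p) * theta p f.natDegree (hi f z w) := by
    rw [Psi, Psi, ← map_mul, prod_eq, map_add, map_mul, map_pow, theta_X, ← pow_mul]
  rw [h1, Psi, red_mul, map_add, map_mul, theta_C, map_sub, map_pow, expand_X, ← pow_mul,
    mul_comm p f.natDegree]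
  ring

variable {f}

lemma Psi_eq_zero (hpd : ¬ p ∣ f.natDegree) {z : AdjoinRoot (SF p f)} (h : Psi f z = 0) :
    z = 0 :=
  red_eq_zero f (theta_eq_zero hp.out hpd (natDegree_red_lt f z) h)

/-- The degree of a product. -/
theorem natDegree_Psi_mul (hmon : f.Monic) (hpd : ¬ p ∣ f.natDegree)
    {z w : AdjoinRoot (SF p f)} (hz : z ≠ 0) (hw : w ≠ 0) :
    (Psi f (z * w)).natDegree = (Psi f z).natDegree + (Psi f w).natDegree := by
  have hd0 : f.natDegree ≠ 0 := fun h => hpd (by rw [h]; exact dvd_zero p)
  have hz' : Psi f z ≠ 0 := fun h => hz (Psi_eq_zero hpd h)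
  have hw' : Psi f w ≠ 0 := fun h => hw (Psi_eq_zero hpd h)
  have hlow : (f - X ^ f.natDegree).natDegree + 1 ≤ f.natDegree := by
    have h1 : (f - X ^ f.natDegree).natDegree ≤ f.natDegree - 1 := by
      rw [natDegree_le_iff_coeff_eq_zero]
      intro N hN
      rw [coeff_sub, coeff_X_pow]
      rcases eq_or_ne N f.natDegree with h | h
      · rw [if_pos h, h, hmon.coeff_natDegree, sub_self]
      · rw [if_neg h, coeff_eq_zero_of_natDegree_lt (by omega), sub_zero]
    omega
  rw [Psi_mul, ← natDegree_mul hz' hw']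
  by_cases hh : theta p f.natDegree (hi f z w) = 0
  · rw [hh, mul_zero, add_zero]
  refine natDegree_add_eq_left_of_natDegree_lt ?_
  rw [natDegree_mul hz' hw']
  have hhi : (theta p f.natDegree (hi f z w)).natDegree + f.natDegree * p ≤
      (Psi f z).natDegree + (Psi f w).natDegree := by
    have key : ∀ m, (red f z * red f w).coeff m ≠ 0 →
        ((red f z * red f w).coeff m).natDegree * p + f.natDegree * m ≤
        (Psi f z).natDegree + (Psi f w).natDegree := by
      intro m hm
      have e1 : ∃ x ∈ Finset.HasAntidiagonal.antidiagonal m,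
          (red f z).coeff x.1 * (red f w).coeff x.2 ≠ 0 ∧
          ((red f z * red f w).coeff m).natDegree ≤
            ((red f z).coeff x.1 * (red f w).coeff x.2).natDegree := by
        by_contra hcon
        push Not at hcon
        have hpos : ∃ x ∈ Finset.HasAntidiagonal.antidiagonal m,
            (red f z).coeff x.1 * (red f w).coeff x.2 ≠ 0 := by
          by_contra hc2
          push Not at hc2
          exact hm (by rw [coeff_mul]; exact Finset.sum_eq_zero hc2)
        obtain ⟨x₀, hx₀, hx₀'⟩ := hpos
        have h3 := hcon x₀ hx₀ hx₀'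
        have h4 : ((red f z * red f w).coeff m).natDegree ≤
            ((red f z * red f w).coeff m).natDegree - 1 := by
          conv_lhs => rw [coeff_mul]
          refine natDegree_sum_le_of_forall_le _ _ fun x hx => ?_
          by_cases h5 : (red f z).coeff x.1 * (red f w).coeff x.2 = 0
          · rw [h5, natDegree_zero]; exact Nat.zero_le _
          · have := hcon x hx h5
            omega
        omega
      obtain ⟨x, hx, hx0, hxd⟩ := e1
      have hx1 : (red f z).coeff x.1 ≠ 0 := left_ne_zero_of_mul hx0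
      have hx2 : (red f w).coeff x.2 ≠ 0 := right_ne_zero_of_mul hx0
      have hlt1 : x.1 < p := by
        by_contra hcon
        exact hx1 (red_coeff_eq_zero f z (not_lt.mp hcon))
      have hlt2 : x.2 < p := by
        by_contra hcon
        exact hx2 (red_coeff_eq_zero f w (not_lt.mp hcon))
      have e2 := natDegree_le_theta hp.out hpd (natDegree_red_lt f z) hlt1 hx1
      have e3 := natDegree_le_theta hp.out hpd (natDegree_red_lt f w) hlt2 hx2
      rw [natDegree_mul hx1 hx2] at hxd
      have hx' := Finset.HasAntidiagonal.mem_antidiagonal.mp hx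
      have e4 : (Psi f z).natDegree = (theta p f.natDegree (red f z)).natDegree := rfl
      have e5 : (Psi f w).natDegree = (theta p f.natDegree (red f w)).natDegree := rfl
      rw [e4, e5]
      calc ((red f z * red f w).coeff m).natDegree * p + f.natDegree * m
          ≤ (((red f z).coeff x.1).natDegree + ((red f w).coeff x.2).natDegree) * p +
            f.natDegree * m := by gcongr
        _ = ((red f z).coeff x.1).natDegree * p + f.natDegree * x.1 +
            (((red f w).coeff x.2).natDegree * p + f.natDegree * x.2) := by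
            rw [← hx']; ring
        _ ≤ _ := add_le_add e2 e3
    have hD : f.natDegree * p ≤ (Psi f z).natDegree + (Psi f w).natDegree := by
      by_contra hcon
      apply hh
      have h0 : hi f z w = 0 := by
        rw [hi]
        refine Finset.sum_eq_zero fun m _ => ?_
        by_cases h1 : (red f z * red f w).coeff (m + p) = 0
        · rw [h1, map_zero]
        · exfalso
          have h2 := key _ h1
          have h3 : f.natDegree * p ≤ f.natDegree * (m + p) := Nat.mul_le_mul_left _ (by omega)
          omega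
      rw [h0, map_zero]
    have h1 : (theta p f.natDegree (hi f z w)).natDegree ≤
        (Psi f z).natDegree + (Psi f w).natDegree - f.natDegree * p := by
      refine natDegree_theta_le fun i hi0 => ?_
      have h2 : (hi f z w).coeff i = (red f z * red f w).coeff (i + p) := by
        rw [hi, finsetSum_coeff] at hi0 ⊢
        simp only [coeff_monomial] at hi0 ⊢
        rw [Finset.sum_ite_eq'] at hi0 ⊢
        split_ifs at hi0 ⊢ with h3
        · rfl
        · exact absurd rfl hi0
      rw [h2] at hi0 ⊢
      have h3 := key _ hi0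
      have h4 : f.natDegree * (i + p) = f.natDegree * i + f.natDegree * p := by ring
      omega
    omega
  refine lt_of_le_of_lt natDegree_mul_le ?_
  rw [natDegree_expand]
  have h2 : (f - X ^ f.natDegree).natDegree * p + p ≤ f.natDegree * p := by
    calc (f - X ^ f.natDegree).natDegree * p + p = ((f - X ^ f.natDegree).natDegree + 1) * p := by
          ring
      _ ≤ f.natDegree * p := Nat.mul_le_mul_right _ hlow
  have := hp.out.pos
  omega

/-- The norm is multiplicative. -/
theorem gn_Psi_mul {v : AbsoluteValue E ℝ} (hv : IsNonarchimedean v) (hpd : ¬ p ∣ f.natDegree)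
    (hsmall : gn v (f - X ^ f.natDegree) < 1) (z w : AdjoinRoot (SF p f)) :
    gn v (Psi f (z * w)) = gn v (Psi f z) * gn v (Psi f w) ∧
    gn v (expand E p (f - X ^ f.natDegree) * theta p f.natDegree (hi f z w)) ≤
      gn v (f - X ^ f.natDegree) * (gn v (Psi f z) * gn v (Psi f w)) := by
  have h1 : gn v (theta p f.natDegree (hi f z w)) ≤ gn v (Psi f z) * gn v (Psi f w) := by
    have hM : 0 ≤ gn v (Psi f z) * gn v (Psi f w) := mul_nonneg (gn_nonneg _) (gn_nonneg _)
    refine gn_theta_le hv hp.out.pos _ hM fun i => ?_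
    have key : ∀ m, gn v ((red f z * red f w).coeff m) ≤ gn v (Psi f z) * gn v (Psi f w) := by
      intro m
      rw [coeff_mul]
      refine gn_sum_le hv _ _ hM fun x _ => ?_
      rw [gn_mul hv]
      exact mul_le_mul (gn_coeff_le hp.out hpd (natDegree_red_lt f z) _)
        (gn_coeff_le hp.out hpd (natDegree_red_lt f w) _) (gn_nonneg _) (gn_nonneg _)
    rw [hi, finsetSum_coeff]
    simp only [coeff_monomial]
    rw [Finset.sum_ite_eq']
    split_ifs
    · exact key _
    · rw [gn_zero]; exact hM
  have h2 : gn v (expand E p (f - X ^ f.natDegree) * theta p f.natDegree (hi f z w)) ≤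
      gn v (f - X ^ f.natDegree) * (gn v (Psi f z) * gn v (Psi f w)) := by
    rw [gn_mul hv, gn_expand hp.out.pos]
    exact mul_le_mul_of_nonneg_left h1 (gn_nonneg _)
  refine ⟨?_, h2⟩
  rcases (mul_nonneg (gn_nonneg (v := v) (Psi f z)) (gn_nonneg (v := v) (Psi f w))).eq_or_lt
    with h0 | h0
  · rw [← h0, mul_zero] at h2
    have h3 := (gn_eq_zero (v := v)).mp (le_antisymm h2 (gn_nonneg _))
    rw [Psi_mul, h3, add_zero, gn_mul hv]
  · rw [Psi_mul, gn_add_eq_of_lt hv, gn_mul hv]
    rw [gn_mul hv (Psi f z)]
    refine lt_of_le_of_lt h2 ?_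
    calc gn v (f - X ^ f.natDegree) * (gn v (Psi f z) * gn v (Psi f w))
        < 1 * (gn v (Psi f z) * gn v (Psi f w)) := mul_lt_mul_of_pos_right hsmall h0
      _ = _ := one_mul _

end Mul

end Pool.Agent.MPab1e31.Se
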