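import Pool.Agent.MPab1e31.HypGauss

/-!
The linear functional used in the non-torsion lemma on superelliptic Jacobians.
-/

namespace Pool.Agent.MPab1e31.Se

open Polynomial Pool.Agent.MPab1e31.Hyp

section

variable {E : Type*} [Field E]

theorem v_coprime {v : AbsoluteValue E ℝ} (hv : IsNonarchimedean v) {p : ℕ} (hvp : v p < 1)
    {n : ℕ} (hn : Nat.Coprime n p) : v (n : E) = 1 := by
  refine le_antisymm (v_natCast_le hv n) ?_
  by_contra hlt
  push Not at hlt
  have h1 : IsCoprime (n : ℤ) (p : ℤ) := Nat.isCoprime_iff_coprime.mpr hn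
  obtain ⟨a, b, hab⟩ := h1
  have h2 : (a : E) * n + b * p = 1 := by exact_mod_cast congrArg (Int.cast (R := E)) hab
  have hint : ∀ c : ℤ, v (c : E) ≤ 1 := by
    intro c
    rcases Int.eq_nat_or_neg c with ⟨m, hm | hm⟩
    · rw [hm]; exact_mod_cast v_natCast_le hv m
    · rw [hm, Int.cast_neg, v.map_neg]; exact_mod_cast v_natCast_le hv m
  have h3 : v 1 < 1 := by
    rw [← h2]
    refine lt_of_le_of_lt (hv _ _) (max_lt ?_ ?_)
    · rw [map_mul]
      calc v (a : E) * v (n : E) ≤ 1 * v (n : E) :=
            mul_le_mul_of_nonneg_right (hint a) (v.nonneg _)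
        _ < 1 := by rw [one_mul]; exact hlt
    · rw [map_mul]
      calc v (b : E) * v (p : E) ≤ 1 * v (p : E) :=
            mul_le_mul_of_nonneg_right (hint b) (v.nonneg _)
        _ < 1 := by rw [one_mul]; exact hvp
  rw [map_one] at h3
  exact lt_irrefl _ h3

/-- The values of the functional on monomials. -/
noncomputable def phi (p i d : ℕ) (f : E[X]) (k : ℕ) : E :=
  if k + 2 < d ∨ d < 2 then 0
  else if k + 2 = d then 1
  else -(∑ j : Fin d, f.coeff j * ((i * j + p * (k + 1 - d) : ℕ) : E) *
    phi p i d f (j + (k + 1 - d) - 1)) / ((i * d + p * (k + 1 - d) : ℕ) : E)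
termination_by k
decreasing_by
  have := j.2
  omega

variable (p i d : ℕ)

theorem phi_lt (f : E[X]) (k : ℕ) (h : k + 2 < d) : phi p i d f k = 0 := by
  rw [phi, if_pos (Or.inl h)]

theorem phi_mid (hd : 2 ≤ d) (f : E[X]) : phi p i d f (d - 2) = 1 := by
  rw [phi, if_neg (by omega), if_pos (by omega)]

theorem phi_rec (hd : 2 ≤ d) (f : E[X]) (m : ℕ) :
    phi p i d f (d - 1 + m) = -(∑ j : Fin d, f.coeff j * ((i * j + p * m : ℕ) : E) *
      phi p i d f (j + m - 1)) / ((i * d + p * m : ℕ) : E) := by
  rw [phi, if_neg (by omega), if_neg (by omega)]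
  have h1 : d - 1 + m + 1 - d = m := by omega
  rw [h1]

theorem coprime_aux {p i d : ℕ} (h : Nat.Coprime (i * d) p) (m : ℕ) :
    Nat.Coprime (i * d + p * m) p := by
  simpa using h

theorem v_phi_le {v : AbsoluteValue E ℝ} (hv : IsNonarchimedean v) (hvp : v p < 1) (f : E[X])
    (hf : ∀ i, v (f.coeff i) ≤ 1) (hd : 2 ≤ d) (hc : Nat.Coprime (i * d) p) (k : ℕ) :
    v (phi p i d f k) ≤ 1 := by
  induction k using Nat.strong_induction_on with
  | _ k ih =>
    by_cases h1 : k + 2 < d
    · rw [phi_lt p i d f k h1, map_zero]; exact zero_le_one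
    · by_cases h3 : k + 2 = d
      · have h4 : k = d - 2 := by omega
        rw [h4, phi_mid p i d hd, map_one]
      · obtain ⟨m, rfl⟩ : ∃ m, k = d - 1 + m := ⟨k + 1 - d, by omega⟩
        rw [phi_rec p i d hd, map_div₀, v.map_neg, v_coprime hv hvp (coprime_aux hc m), div_one]
        apply v_sum_le hv _ _ zero_le_one
        intro j _
        have hj := j.2
        rw [map_mul, map_mul]
        have e1 := hf j
        have e2 := v_natCast_le hv (i * j + p * m)
        have e3 := ih (j + m - 1) (by omega)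
        have e4 := v.nonneg (f.coeff j)
        have e5 := v.nonneg (((i * j + p * m : ℕ) : E))
        have e6 := v.nonneg (phi p i d f (j + m - 1))
        calc v (f.coeff j) * v (((i * j + p * m : ℕ) : E)) * v (phi p i d f (j + m - 1))
            ≤ 1 * 1 * 1 := by gcongr
          _ = 1 := by norm_num

/-- The functional. -/
noncomputable def Phi (f : E[X]) : E[X] →ₗ[E] E :=
  Polynomial.lsum fun k => phi p i d f k • LinearMap.id

theorem Phi_monomial (f : E[X]) (k : ℕ) (a : E) :
    Phi p i d f (monomial k a) = phi p i d f k * a := by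
  rw [Phi, lsum_apply, sum_monomial_index]
  · simp
  · simp

theorem Phi_eq_sum (f : E[X]) (q : E[X]) :
    Phi p i d f q = ∑ k ∈ q.support, phi p i d f k * q.coeff k := by
  rw [Phi, lsum_apply, sum_def]
  rfl

theorem Phi_eq_zero (f : E[X]) (q : E[X]) (hq : q = 0 ∨ q.natDegree + 2 < d) :
    Phi p i d f q = 0 := by
  rcases hq with rfl | hq
  · exact map_zero _
  · rw [Phi_eq_sum]
    refine Finset.sum_eq_zero fun k hk => ?_
    have h1 : k ≤ q.natDegree := le_natDegree_of_mem_supp k hk
    rw [phi_lt p i d f k (by omega), zero_mul]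

theorem v_Phi_le {v : AbsoluteValue E ℝ} (hv : IsNonarchimedean v) (hvp : v p < 1) (f : E[X])
    (hf : ∀ i, v (f.coeff i) ≤ 1) (hd : 2 ≤ d) (hc : Nat.Coprime (i * d) p) (q : E[X]) :
    v (Phi p i d f q) ≤ gn v q := by
  rw [Phi_eq_sum]
  apply v_sum_le hv _ _ (gn_nonneg q)
  intro k _
  rw [map_mul]
  calc v (phi p i d f k) * v (q.coeff k) ≤ 1 * gn v q :=
        mul_le_mul (v_phi_le p i d hv hvp f hf hd hc k) (coeff_le q k) (v.nonneg _) zero_le_one
    _ = gn v q := one_mul _

/-- The operator `r ↦ p f r' + i f' r`. -/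
noncomputable def TT (p i : ℕ) (f : E[X]) (r : E[X]) : E[X] :=
  C (p : E) * f * derivative r + C (i : E) * derivative f * r

theorem TT_add (f r s : E[X]) : TT p i f (r + s) = TT p i f r + TT p i f s := by
  simp only [TT, derivative_add]; ring

theorem TT_monomial (f : E[X]) (m : ℕ) (a : E) (D : ℕ) (hD : f.natDegree < D) :
    TT p i f (monomial m a) = ∑ j ∈ Finset.range D,
      monomial (j + m - 1) (f.coeff j * ((i * j + p * m : ℕ) : E) * a) := by
  have hf : f = ∑ j ∈ Finset.range D, monomial j (f.coeff j) := as_sum_range' f D hD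
  have hf' : derivative f = ∑ j ∈ Finset.range D, monomial (j - 1) (f.coeff j * j) := by
    conv_lhs => rw [hf]
    rw [derivative_sum]
    exact Finset.sum_congr rfl fun j _ => derivative_monomial _ _
  have h1 : TT p i f (monomial m a) = ∑ j ∈ Finset.range D,
      (C (p : E) * (monomial j (f.coeff j) * monomial (m - 1) (a * m)) +
        C (i : E) * (monomial (j - 1) (f.coeff j * j) * monomial m a)) := by
    rw [Finset.sum_add_distrib, ← Finset.mul_sum, ← Finset.mul_sum, ← Finset.sum_mul,
      ← Finset.sum_mul, ← hf', ← hf, TT, derivative_monomial, mul_assoc, mul_assoc]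
  rw [h1]
  refine Finset.sum_congr rfl fun j _ => ?_
  rw [monomial_mul_monomial, monomial_mul_monomial]
  have e1 : monomial (j + (m - 1)) (f.coeff j * (a * (m : E))) =
      monomial (j + m - 1) (f.coeff j * (a * (m : E))) := by
    rcases Nat.eq_zero_or_pos m with rfl | hm
    · simp
    · have : j + (m - 1) = j + m - 1 := by omega
      rw [this]
  have e2 : monomial (j - 1 + m) (f.coeff j * (j : E) * a) =
      monomial (j + m - 1) (f.coeff j * (j : E) * a) := by
    rcases Nat.eq_zero_or_pos j with rfl | hj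
    · simp
    · have : j - 1 + m = j + m - 1 := by omega
      rw [this]
  rw [e1, e2, C_mul_monomial, C_mul_monomial, ← map_add]
  congr 1
  push_cast
  ring

theorem Phi_TT [CharZero E] (f : E[X]) (hd : 2 ≤ d) (hmon : f.Monic)
    (hdeg : f.natDegree = d) (hi : i ≠ 0) (r : E[X]) : Phi p i d f (TT p i f r) = 0 := by
  induction r using Polynomial.induction_on' with
  | add q r hq hr => rw [TT_add, map_add, hq, hr, add_zero]
  | monomial m a =>
    rw [TT_monomial p i f m a (d + 1) (by omega), map_sum]
    simp only [Phi_monomial]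
    rw [Finset.sum_range_succ]
    have hlead : f.coeff d = 1 := by rw [← hdeg]; exact hmon
    have hidx : d + m - 1 = d - 1 + m := by omega
    rw [hlead, hidx, phi_rec p i d hd, Finset.sum_range]
    have hid : 0 < i * d := Nat.mul_pos (Nat.pos_of_ne_zero hi) (by omega)
    have hne : ((i * d + p * m : ℕ) : E) ≠ 0 := Nat.cast_ne_zero.mpr (by omega)
    field_simp
    rw [Finset.mul_sum, ← sub_eq_add_neg, sub_eq_zero]
    refine Finset.sum_congr rfl fun j _ => ?_
    ring

end

end Pool.Agent.MPab1e31.Se
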