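import Pool.Agent.MPab1e31Se.Cl
import Pool.Agent.MPab1e31Se.Nrm

/-!
# The points over `x = 0` of a superelliptic curve: embeddings in power series, and descent of
# equalities of ideals from the localisation away from `x`
-/

open Polynomial

namespace Pool.Agent.MPab1e31.Se

open Pool.Agent.MPab1e31

section Tors

variable {M : Type*} [AddCommGroup M]

/-- Torsion of the first difference implies torsion. -/
theorem tors_abs (A : M →+ M) (c : ℕ → M) (hAc : ∀ i, A (c i) = c (i + 1)) (n : ℕ)
    (hsum : ∑ i ∈ Finset.range n, c i = 0) (m : ℤ) (h : m • (c 0 - c 1) = 0) :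
    ((n : ℤ) * m) • c 0 = 0 := by
  have hrel : ∀ i, m • (c i - c (i + 1)) = 0 := by
    intro i
    induction i with
    | zero => exact h
    | succ i ih =>
      have e1 := congrArg A ih
      rw [map_zsmul, map_sub, hAc, hAc, map_zero] at e1
      exact e1
  have hall : ∀ i, m • c i = m • c 0 := by
    intro i
    induction i with
    | zero => rfl
    | succ i ih =>
      have e1 := hrel i
      rw [smul_sub, ih, sub_eq_zero] at e1
      exact e1.symm
  have e1 : ∑ i ∈ Finset.range n, m • c i = 0 := by
    rw [← Finset.smul_sum, hsum, smul_zero]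
  rw [Finset.sum_congr rfl fun i _ => hall i, Finset.sum_const, Finset.card_range,
    ← natCast_zsmul, smul_smul] at e1
  exact e1

/-- Torsion of the second difference implies torsion. -/
theorem tors_abs₂ (A : M →+ M) (c : ℕ → M) (hAc : ∀ i, A (c i) = c (i + 1)) (n : ℕ)
    (hsum : ∑ i ∈ Finset.range n, c i = 0) (hper : c n = c 0) (m : ℤ)
    (h : m • ((c 0 - c 1) - (c 1 - c 2)) = 0) : ((n : ℤ) * ((n : ℤ) * m)) • c 0 = 0 := by
  have h1 := tors_abs A (fun i => c i - c (i + 1)) (fun i => by
    show A (c i - c (i + 1)) = _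
    rw [map_sub, hAc, hAc]) n (by
      rw [Finset.sum_range_sub' c n, hper, sub_self]) m h
  exact tors_abs A c hAc n hsum _ h1

end Tors

section Series

variable {E : Type*} [Field E] {p : ℕ} [hp : Fact p.Prime] [CharZero E] (f : E[X])

omit [CharZero E] in
/-- Existence of the `p`-th root of `f` as a power series. -/
theorem exists_root_series [CharZero E] {β : E} (hβ : β ^ p = f.eval 0) (hβ0 : β ≠ 0) :
    ∃ F : PowerSeries E, F ^ p = (f : PowerSeries E) ∧ PowerSeries.constantCoeff F = β := by
  have hens : HenselianRing (PowerSeries E) (Ideal.span {PowerSeries.X}) := inferInstance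
  obtain ⟨F, hF, hF2⟩ := hens.is_henselian
    (X ^ p - C (f : PowerSeries E)) (monic_X_pow_sub_C _ hp.out.ne_zero) (PowerSeries.C β) (by
      rw [eval_sub, eval_pow, eval_X, eval_C, Ideal.mem_span_singleton, PowerSeries.X_dvd_iff,
        map_sub, map_pow, PowerSeries.constantCoeff_C, Polynomial.constantCoeff_coe, hβ,
        coeff_zero_eq_eval_zero, sub_self]) (by
      rw [derivative_sub, derivative_X_pow, derivative_C, sub_zero, eval_mul, eval_pow, eval_X,
        eval_C, ← map_pow]
      refine IsUnit.map _ ?_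
      rw [PowerSeries.isUnit_iff_constantCoeff, map_mul, map_natCast, PowerSeries.constantCoeff_C,
        isUnit_iff_ne_zero]
      exact mul_ne_zero (Nat.cast_ne_zero.mpr hp.out.ne_zero) (pow_ne_zero _ hβ0))
  refine ⟨F, ?_, ?_⟩
  · have h1 : eval F (X ^ p - C (f : PowerSeries E)) = 0 := hF
    rw [eval_sub, eval_pow, eval_X, eval_C] at h1
    exact sub_eq_zero.mp h1
  · rw [Ideal.mem_span_singleton, PowerSeries.X_dvd_iff, map_sub, PowerSeries.constantCoeff_C]
      at hF2
    exact sub_eq_zero.mp hF2

/-- Uniqueness. -/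
theorem root_series_unique {F G : PowerSeries E} (h : F ^ p = G ^ p)
    (h0 : PowerSeries.constantCoeff F = PowerSeries.constantCoeff G)
    (h1 : PowerSeries.constantCoeff F ≠ 0) : F = G := by
  have h2 := (Commute.all F G).geom_sum₂_mul p
  rw [h, sub_self] at h2
  rcases mul_eq_zero.mp h2 with h3 | h3
  · exfalso
    have h4 := congrArg PowerSeries.constantCoeff h3
    simp only [map_sum, map_mul, map_pow, ← h0, map_zero, ← pow_add] at h4
    have h5 : ∀ i ∈ Finset.range p, PowerSeries.constantCoeff F ^ (i + (p - 1 - i)) =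
        PowerSeries.constantCoeff F ^ (p - 1) := by
      intro i hi
      congr 1
      have := Finset.mem_range.mp hi
      omega
    rw [Finset.sum_congr rfl h5, Finset.sum_const, Finset.card_range, nsmul_eq_mul] at h4
    exact mul_ne_zero (Nat.cast_ne_zero.mpr hp.out.ne_zero) (pow_ne_zero _ h1) h4
  · exact sub_eq_zero.mp h3

variable {f}

/-- The embedding of the coordinate ring in the ring of power series. -/
noncomputable def psi {F : PowerSeries E} (hF : F ^ p = (f : PowerSeries E)) {ω : E}
    (hω : ω ^ p = 1) : AdjoinRoot (SF p f) →+* PowerSeries E :=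
  AdjoinRoot.lift Polynomial.coeToPowerSeries.ringHom (PowerSeries.C ω * F) (by
    rw [eval₂_SF, mul_pow, ← map_pow, hω, map_one, one_mul, hF]
    exact sub_self _)

omit hp [CharZero E] in
lemma psi_of {F : PowerSeries E} (hF : F ^ p = (f : PowerSeries E)) {ω : E}
    (hω : ω ^ p = 1) (a : E[X]) : psi hF hω (AdjoinRoot.of _ a) = (a : PowerSeries E) := by
  rw [psi, AdjoinRoot.lift_of]
  rfl

omit hp [CharZero E] in
lemma psi_root {F : PowerSeries E} (hF : F ^ p = (f : PowerSeries E)) {ω : E}
    (hω : ω ^ p = 1) : psi hF hω (AdjoinRoot.root _) = PowerSeries.C ω * F := by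
  rw [psi, AdjoinRoot.lift_root]

omit [CharZero E] in
lemma isIntegral_SF : Algebra.IsIntegral E[X] (AdjoinRoot (SF p f)) := by
  have h1 := (AdjoinRoot.powerBasis' (SF_monic hp.out.ne_zero f)).finite
  infer_instance

omit [CharZero E] in
lemma psi_ne_zero {F : PowerSeries E} (hF : F ^ p = (f : PowerSeries E)) {ω : E}
    (hω : ω ^ p = 1) [IsDomain (AdjoinRoot (SF p f))] {u : AdjoinRoot (SF p f)} (hu : u ≠ 0) :
    psi hF hω u ≠ 0 := by
  intro h0
  have hint := isIntegral_SF (p := p) (f := f)
  have h1 := Ideal.comap_ne_bot_of_integral_mem (R := E[X]) (I := RingHom.ker (psi hF hω)) hu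
    (RingHom.mem_ker.mpr h0) (Algebra.IsIntegral.isIntegral u)
  obtain ⟨q, hq, hq0⟩ := Submodule.exists_mem_ne_zero_of_ne_bot h1
  have h2 : psi hF hω (AdjoinRoot.of _ q) = 0 := hq
  rw [psi_of] at h2
  exact hq0 (Polynomial.coe_eq_zero_iff.mp h2)

omit [CharZero E] in
lemma psi_eq_sum {F : PowerSeries E} (hF : F ^ p = (f : PowerSeries E)) {ω : E}
    (hω : ω ^ p = 1) (u : AdjoinRoot (SF p f)) :
    psi hF hω u = ∑ k ∈ Finset.range p, ((red f u).coeff k : PowerSeries E) *
      (PowerSeries.C (ω ^ k) * F ^ k) := by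
  conv_lhs => rw [← mk_red f u]
  rw [psi, AdjoinRoot.lift_mk, eval₂_eq_sum_range' _ (natDegree_red_lt f u)]
  refine Finset.sum_congr rfl fun k _ => ?_
  rw [mul_pow, ← map_pow]
  rfl

omit [CharZero E] in
lemma sum_root_pow {ζ : E} (hζ : IsPrimitiveRoot ζ p) (j : ℕ) :
    ∑ i ∈ Finset.range p, (ζ ^ i) ^ j = if p ∣ j then (p : E) else 0 := by
  split_ifs with h
  · obtain ⟨c, rfl⟩ := h
    have e1 : ∀ i ∈ Finset.range p, (ζ ^ i) ^ (p * c) = 1 := by
      intro i _
      rw [← pow_mul, mul_left_comm, pow_mul, hζ.pow_eq_one, one_pow]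
    rw [Finset.sum_congr rfl e1, Finset.sum_const, Finset.card_range, nsmul_eq_mul, mul_one]
  · have hcop : Nat.Coprime j p := by
      rw [Nat.coprime_comm, Nat.Prime.coprime_iff_not_dvd hp.out]
      exact h
    have h1 := (hζ.pow_of_coprime j hcop).geom_sum_eq_zero hp.out.one_lt
    rw [← h1]
    refine Finset.sum_congr rfl fun i _ => ?_
    rw [← pow_mul, ← pow_mul, mul_comm]

/-- Divisibility by powers of `x` can be tested on the embeddings. -/
theorem exists_of_dvd_psi {F : PowerSeries E} (hF : F ^ p = (f : PowerSeries E))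
    (hF0 : PowerSeries.constantCoeff F ≠ 0) {ζ : E} (hζ : IsPrimitiveRoot ζ p) (B : ℕ)
    (u : AdjoinRoot (SF p f))
    (h : ∀ (i : ℕ) (hi : (ζ ^ i) ^ p = 1), PowerSeries.X ^ B ∣ psi hF hi u) :
    ∃ u₁, u = AdjoinRoot.of (SF p f) X ^ B * u₁ := by
  have hi : ∀ i : ℕ, (ζ ^ i) ^ p = 1 := by
    intro i
    rw [← pow_mul, mul_comm, pow_mul, hζ.pow_eq_one, one_pow]
  have hunit : IsUnit F := by
    rw [PowerSeries.isUnit_iff_constantCoeff, isUnit_iff_ne_zero]
    exact hF0
  have key : ∀ k < p, (X : E[X]) ^ B ∣ (red f u).coeff k := by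
    intro k hk
    have e1 : ∑ i ∈ Finset.range p, PowerSeries.C ((ζ ^ i) ^ (p - k)) * psi hF (hi i) u =
        PowerSeries.C (p : E) * (((red f u).coeff k : PowerSeries E) * F ^ k) := by
      have e2 : ∀ i ∈ Finset.range p, PowerSeries.C ((ζ ^ i) ^ (p - k)) * psi hF (hi i) u =
          ∑ l ∈ Finset.range p, PowerSeries.C ((ζ ^ i) ^ (p - k + l)) *
            (((red f u).coeff l : PowerSeries E) * F ^ l) := by
        intro i _
        rw [psi_eq_sum, Finset.mul_sum]
        refine Finset.sum_congr rfl fun l _ => ?_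
        rw [pow_add, map_mul]
        ring
      rw [Finset.sum_congr rfl e2, Finset.sum_comm]
      have e3 : ∀ l ∈ Finset.range p, ∑ i ∈ Finset.range p,
          PowerSeries.C ((ζ ^ i) ^ (p - k + l)) *
            (((red f u).coeff l : PowerSeries E) * F ^ l) =
          if l = k then PowerSeries.C (p : E) * (((red f u).coeff l : PowerSeries E) * F ^ l)
            else 0 := by
        intro l hl
        rw [← Finset.sum_mul, ← map_sum, sum_root_pow hζ]
        have hl' := Finset.mem_range.mp hl
        have e4 : p ∣ p - k + l ↔ l = k := by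
          constructor
          · rintro ⟨c, hc⟩
            have h1 : c < 2 := by
              by_contra h2
              push Not at h2
              have : p * 2 ≤ p * c := Nat.mul_le_mul_left _ h2
              omega
            have h3 : c ≠ 0 := by
              rintro rfl
              omega
            have h4 : c = 1 := by omega
            rw [h4] at hc
            omega
          · rintro rfl
            rw [Nat.sub_add_cancel hk.le]
        by_cases h5 : l = k
        · rw [if_pos (e4.mpr h5), if_pos h5]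
        · rw [if_neg (fun h6 => h5 (e4.mp h6)), if_neg h5, map_zero, zero_mul]
      rw [Finset.sum_congr rfl e3, Finset.sum_ite_eq' (Finset.range p) k,
        if_pos (Finset.mem_range.mpr hk)]
    have e5 : PowerSeries.X ^ B ∣
        PowerSeries.C (p : E) * (((red f u).coeff k : PowerSeries E) * F ^ k) := by
      rw [← e1]
      exact Finset.dvd_sum fun i _ => (h i (hi i)).mul_left _
    have hpu : IsUnit (PowerSeries.C (p : E)) :=
      (isUnit_iff_ne_zero.mpr (Nat.cast_ne_zero.mpr hp.out.ne_zero)).map _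
    rw [hpu.dvd_mul_left, (hunit.pow k).dvd_mul_right] at e5
    rw [Polynomial.X_pow_dvd_iff]
    rw [PowerSeries.X_pow_dvd_iff] at e5
    intro d hd
    have h6 := e5 d hd
    rwa [Polynomial.coeff_coe] at h6
  choose w hw using key
  set w' : ℕ → E[X] := fun k => if hk : k < p then w k hk else 0 with hw'
  set S : E[X][X] := ∑ k ∈ Finset.range p, C (w' k) * X ^ k with hS
  have e2 : red f u = C (X ^ B) * S := by
    conv_lhs => rw [(red f u).as_sum_range_C_mul_X_pow' (natDegree_red_lt f u)]
    rw [hS, Finset.mul_sum]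
    refine Finset.sum_congr rfl fun k hk => ?_
    have hk' := Finset.mem_range.mp hk
    have e3 : w' k = w k hk' := dif_pos hk'
    rw [e3, hw k hk', C_mul, mul_assoc]
  refine ⟨AdjoinRoot.mk _ S, ?_⟩
  have e1 : AdjoinRoot.of (SF p f) X ^ B = AdjoinRoot.mk (SF p f) (C (X ^ B)) :=
    (map_pow (AdjoinRoot.of (SF p f)) X B).symm
  rw [e1, ← map_mul, ← e2, mk_red]

end Series

end Pool.Agent.MPab1e31.Se
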