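import Pool.Agent.MPab1e31Se.Char
import Pool.Agent.MPab1e31Se.Flip
import Pool.Agent.MPab1e31Se.Index

/-!
# Independent traces, `p`-th roots

The version for `p`-th roots of `exists_step` and `exists_independent`.
-/

open scoped WithZero

namespace Pool.Agent.MPab1e31.Se

open Pool.Agent.MPab1e31

section Step

variable {F₀ K Ω : Type*} [Field F₀] [NumberField F₀] [Field K] [Field Ω]
    [Algebra F₀ K] [Algebra K Ω] [Algebra F₀ Ω] [IsScalarTower F₀ K Ω]
    [Algebra.IsAlgebraic F₀ K] [IsAlgClosed Ω] [Algebra.IsAlgebraic K Ω]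
    {A : Type*} [AddCommGroup A] (ρ : (Ω ≃ₐ[F₀] Ω) →* AddMonoid.End A)
    (L : IntermediateField F₀ Ω) [FiniteDimensional F₀ L] [Normal F₀ L]

/-- One step: a point with infinite order conjugates whose trace is moved by an automorphism
fixing given `p`-th roots. -/
theorem exists_step (p : ℕ) [hp : Fact p.Prime] (hμ : ∀ ω : Ω, ω ^ p = 1 → ω ∈ L)
    (hfg : IsTopFG (Ω ≃ₐ[K] Ω))
    (S : Multiset L) (hS : ¬ p ∣ Multiset.card S) (φ : Ω → Ω → A)
    (hequiv : ∀ g : Ω ≃ₐ[F₀] Ω, (∀ l ∈ L, g l = l) → ∀ (x : L) (s : Ω),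
      s ^ p = (S.map fun e : L => (x : Ω) - (e : Ω)).prod → ρ g (φ x s) = φ x (g s))
    (w : Valuation L ℤᵐ⁰) (ϖ : L) (hϖ : w ϖ = WithZero.exp (-1)) (C : ℤᵐ⁰)
    (hnt : ∀ x : L, C < w x → ∀ s : Ω,
      s ^ p = (S.map fun e : L => (x : Ω) - (e : Ω)).prod →
      ∀ g : Ω ≃ₐ[F₀] Ω, (∀ l ∈ L, g l = l) → g s ≠ s →
        ∀ n : ℤ, n ≠ 0 → n • (φ x s - φ x (g s)) ≠ 0)
    (Z : Finset Lˣ) :
    ∃ (T Q : A) (Z' : Finset Lˣ),
      (∀ n : ℤ, n ≠ 0 → n • Q ≠ 0) ∧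
      (∀ γ : Ω ≃ₐ[K] Ω, ρ (γ.restrictScalars F₀) T = T) ∧
      (∀ g : Ω ≃ₐ[F₀] Ω, (∀ l ∈ L, g l = l) →
        (∀ z ∈ Z', ∀ r : Ω, r ^ p = ((z : L) : Ω) → g r = r) → ρ g T = T) ∧
      ∃ g : Ω ≃ₐ[F₀] Ω, (∀ l ∈ L, g l = l) ∧ (∀ z ∈ Z, ∀ r : Ω, r ^ p = ((z : L) : Ω) → g r = r) ∧
        ρ g T = T - Q := by
  classical
  have : NumberField L := NumberField.of_module_finite F₀ L
  have : CharZero L := inferInstance
  have : Algebra.IsAlgebraic F₀ Ω := Algebra.IsAlgebraic.trans F₀ K Ω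
  have : Algebra.IsAlgebraic L Ω := Algebra.IsAlgebraic.tower_top (K := F₀) L
  obtain ⟨H, hHfin, hH⟩ := Se.exists_finiteIndex (K := K) L hfg p hp.out.pos
  obtain ⟨χ, g₀, hg₀, hχZ, hχg, hχσ⟩ := Se.exists_char_mem (F₀ := F₀) p H Z
  set H' : Subgroup Lˣ := H ⊓ ((⨅ σ : L ≃ₐ[F₀] L, (χ.comp (Units.map (σ : L →* L))).ker) ⊓
    (parity w).ker) with hH'
  have : (⨅ σ : L ≃ₐ[F₀] L, (χ.comp (Units.map (σ : L →* L))).ker).FiniteIndex :=
    Subgroup.finiteIndex_iInf fun σ => inferInstance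
  have : H'.FiniteIndex := inferInstance
  obtain ⟨a, ha, hCa, hap⟩ := exists_large w ϖ hϖ C (parity w g₀)
  obtain ⟨x, hx⟩ := exists_shift H' (insert 0 (insert (-a) (S.toFinset.image fun e => -e))) g₀
  have hx1 : ∀ e ∈ S, ∃ h ∈ H', x - e = ((g₀ * h : Lˣ) : L) := by
    intro e he
    have := hx (-e) (by
      refine Finset.mem_insert_of_mem (Finset.mem_insert_of_mem ?_)
      exact Finset.mem_image_of_mem _ (Multiset.mem_toFinset.mpr he))
    rwa [← sub_eq_add_neg] at this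
  have hpar : ∀ h ∈ H', parity w (g₀ * h) = parity w g₀ := by
    intro h hh
    rw [map_mul, (MonoidHom.mem_ker).mp hh.2.2, mul_one]
  -- largeness
  have hCx : C < w x := by
    obtain ⟨h1, hh1, e1⟩ := hx 0 (Finset.mem_insert_self _ _)
    obtain ⟨h2, hh2, e2⟩ := hx (-a) (Finset.mem_insert_of_mem (Finset.mem_insert_self _ _))
    rw [add_zero] at e1
    rw [← sub_eq_add_neg] at e2
    have hx0 : x ≠ 0 := by rw [e1]; exact Units.ne_zero _
    have hxa : x - a ≠ 0 := by rw [e2]; exact Units.ne_zero _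
    refine hCa.trans (lt_of_parity w ha (ε := parity w g₀) hx0 ?_ hxa ?_ hap)
    · have : Units.mk0 x hx0 = g₀ * h1 := Units.ext e1
      rw [this, hpar h1 hh1]
    · have : Units.mk0 (x - a) hxa = g₀ * h2 := Units.ext e2
      rw [this, hpar h2 hh2]
  -- the value
  obtain ⟨h, hh, hprod⟩ := prod_mem_coset H' g₀ x S hx1
  set u : Lˣ := g₀ ^ (Multiset.card S) * h with hu
  have hprodΩ : (S.map fun e : L => (x : Ω) - (e : Ω)).prod = ((u : L) : Ω) := by
    rw [← hprod]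
    have h1 := map_multiset_prod (algebraMap L Ω) (S.map fun e => x - e)
    rw [Multiset.map_map] at h1
    exact h1.symm
  have huH : u ∈ H := H.mul_mem (H.pow_mem hg₀ _) hh.1
  obtain ⟨s, hs, hsγ⟩ := hH u huH
  have hs' : s ^ p = (S.map fun e : L => (x : Ω) - (e : Ω)).prod := by rw [hs, hprodΩ]
  have hχh : ∀ σ : L ≃ₐ[F₀] L, χ (Units.map (σ : L →* L) h) = 1 := by
    intro σ
    have h1 := (Subgroup.mem_iInf.mp hh.2.1) σ
    exact (MonoidHom.mem_ker).mp h1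
  have hunit1 : ∀ y : Lˣ, Units.map ((1 : L ≃ₐ[F₀] L) : L →* L) y = y := by
    intro y
    ext
    rfl
  have hG : ∀ y : Multiplicative (ZMod p), y ^ p = 1 := by
    intro y
    have h1 : (p : ZMod p) * Multiplicative.toAdd y = 0 := by
      rw [CharP.cast_eq_zero, zero_mul]
    rw [← nsmul_eq_mul] at h1
    exact h1
  have hχu : χ u ≠ 1 := by
    have h1 := hχh 1
    rw [hunit1] at h1
    rw [hu, map_mul, h1, mul_one, map_pow]
    intro h2
    have h3 := orderOf_dvd_of_pow_eq_one h2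
    rw [orderOf_eq_prime (hG (χ g₀)) hχg] at h3
    exact hS h3
  have hχσu : ∀ σ : L ≃ₐ[F₀] L, σ ≠ 1 → χ (Units.map (σ : L →* L) u) = 1 := by
    intro σ hσ
    rw [hu, map_mul, map_mul, hχh, mul_one, map_pow, map_pow, hχσ σ hσ, one_pow]
  set P : A := φ x s with hP
  have hPfix : ∀ γ : Ω ≃ₐ[K] Ω, (∀ l ∈ L, γ l = l) → ρ (γ.restrictScalars F₀) P = P := by
    intro γ hγ
    have h1 := hequiv (γ.restrictScalars F₀) hγ x s hs'
    rw [hP, h1]
    congr 1
    exact hsγ γ hγ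
  have hfin := orbit_finite (K := K) ρ L hPfix
  set O : Finset A := hfin.toFinset with hO
  have hmemO : ∀ Q, Q ∈ O ↔ ∃ γ : Ω ≃ₐ[K] Ω, ρ (γ.restrictScalars F₀) P = Q := by
    intro Q
    rw [hO, Set.Finite.mem_toFinset]
    rfl
  have hPO : P ∈ O := by
    rw [hmemO]
    refine ⟨1, ?_⟩
    exact hPfix 1 fun l _ => rfl
  -- action of an automorphism over `L` on the conjugates
  have hconj : ∀ g : Ω ≃ₐ[F₀] Ω, (∀ l ∈ L, g l = l) → ∀ γ : Ω ≃ₐ[K] Ω, g (γ s) = γ s →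
      ρ g (ρ (γ.restrictScalars F₀) P) = ρ (γ.restrictScalars F₀) P := by
    intro g hg γ hgs
    set γ₀ : Ω ≃ₐ[F₀] Ω := γ.restrictScalars F₀ with hγ₀
    have hγL : ∀ l ∈ L, γ₀ l ∈ L := by
      intro l hl
      have h2 := AlgEquiv.restrictNormal_commutes γ₀ L ⟨l, hl⟩
      have h3 : γ₀ l = ((γ₀.restrictNormal L ⟨l, hl⟩ : L) : Ω) := h2.symm
      rw [h3]
      exact SetLike.coe_mem _
    have h4 : ρ (γ₀⁻¹ * g * γ₀) P = P := by
      have h5 := hequiv (γ₀⁻¹ * g * γ₀) (by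
        intro l hl
        show γ₀⁻¹ (g (γ₀ l)) = l
        rw [hg _ (hγL l hl)]
        exact AlgEquiv.symm_apply_apply γ₀ l) x s hs'
      have h6 : (γ₀⁻¹ * g * γ₀) s = s := by
        show γ₀⁻¹ (g (γ₀ s)) = s
        have h7 : g (γ₀ s) = γ₀ s := hgs
        rw [h7]
        exact AlgEquiv.symm_apply_apply γ₀ s
      rw [h6] at h5
      exact h5
    have h8 : g * γ₀ = γ₀ * (γ₀⁻¹ * g * γ₀) := by group
    rw [← rho_mul, h8, rho_mul, h4]
  -- squares of the conjugates of `s`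
  have hγs : ∀ γ : Ω ≃ₐ[K] Ω, (γ s) ^ p =
      (((Units.map (((γ.restrictScalars F₀).restrictNormal L : L ≃ₐ[F₀] L) : L →* L) u : Lˣ) : L) :
        Ω) := by
    intro γ
    rw [← map_pow, hs]
    exact (AlgEquiv.restrictNormal_commutes (γ.restrictScalars F₀) L (u : L)).symm
  set Zc : Finset Lˣ := (Finset.univ : Finset (L ≃ₐ[F₀] L)).image
    (fun σ : L ≃ₐ[F₀] L => Units.map (σ : L →* L) u) with hZc
  obtain ⟨g, hg1, hg2⟩ := Se.exists_flip p (fun ω hω => ⟨⟨ω, hμ ω hω⟩, rfl⟩) hG χ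
    (Z ∪ Zc.filter fun z => χ z = 1) (by
      intro z hz
      rcases Finset.mem_union.mp hz with hz | hz
      · exact hχZ z hz
      · exact (Finset.mem_filter.mp hz).2) u hχu s hs
  set g' : Ω ≃ₐ[F₀] Ω := g.restrictScalars F₀ with hg'
  have hgL : ∀ l ∈ L, g' l = l := fun l hl => g.commutes ⟨l, hl⟩
  refine ⟨∑ Q ∈ O, Q, P - φ x (g' s), Zc, hnt x hCx s hs' g' hgL hg1, ?_, ?_, ?_⟩
  · -- invariance
    intro γ
    rw [map_sum]
    refine Finset.sum_bij (fun Q _ => ρ (γ.restrictScalars F₀) Q) ?_ ?_ ?_ ?_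
    · intro Q hQ
      rw [hmemO] at hQ ⊢
      obtain ⟨γ', rfl⟩ := hQ
      refine ⟨γ * γ', ?_⟩
      rw [← rho_mul]
      rfl
    · intro Q _ Q' _ hQQ
      have h1 := congrArg (ρ ((γ⁻¹).restrictScalars F₀)) hQQ
      rw [← rho_mul, ← rho_mul] at h1
      have h2 : (γ⁻¹).restrictScalars F₀ * γ.restrictScalars F₀ = 1 := by
        ext y
        exact AlgEquiv.symm_apply_apply γ y
      rw [h2, map_one] at h1
      exact h1
    · intro Q hQ
      rw [hmemO] at hQ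
      obtain ⟨γ', rfl⟩ := hQ
      refine ⟨ρ ((γ⁻¹ * γ').restrictScalars F₀) P, (hmemO _).mpr ⟨_, rfl⟩, ?_⟩
      rw [← rho_mul]
      congr 2
      ext y
      exact AlgEquiv.apply_symm_apply γ (γ' y)
    · intro Q _
      rfl
  · -- fixed by automorphisms fixing the square roots
    intro g hgL hgZ
    rw [map_sum]
    refine Finset.sum_congr rfl fun Q hQ => ?_
    rw [hmemO] at hQ
    obtain ⟨γ, rfl⟩ := hQ
    refine hconj g hgL γ (hgZ _ ?_ _ (hγs γ))
    exact Finset.mem_image_of_mem _ (Finset.mem_univ _)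
  · -- the flip
    refine ⟨g', hgL, fun z hz r hr => hg2 z (Finset.mem_union_left _ hz) r hr, ?_⟩
    have hgP : ρ g' P = φ x (g' s) := hequiv g' hgL x s hs'
    have hgQ : ∀ Q ∈ O.erase P, ρ g' Q = Q := by
      intro Q hQ
      obtain ⟨hne, hQO⟩ := Finset.mem_erase.mp hQ
      rw [hmemO] at hQO
      obtain ⟨γ, rfl⟩ := hQO
      refine hconj g' hgL γ (hg2 _ ?_ _ (hγs γ))
      refine Finset.mem_union_right _ (Finset.mem_filter.mpr
        ⟨Finset.mem_image_of_mem _ (Finset.mem_univ _), ?_⟩)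
      apply hχσu
      intro h1
      apply hne
      have h2 : (γ.restrictScalars F₀).restrictNormal L =
          ((1 : Ω ≃ₐ[K] Ω).restrictScalars F₀).restrictNormal L := by
        rw [h1]
        ext y
        exact (AlgEquiv.restrictNormal_commutes ((1 : Ω ≃ₐ[K] Ω).restrictScalars F₀) L y).symm
      rw [rho_eq_of_restrict ρ L hPfix γ 1 h2]
      exact hPfix 1 fun l _ => rfl
    rw [← Finset.add_sum_erase O (fun Q => Q) hPO, map_add, hgP, map_sum,
      Finset.sum_congr rfl hgQ]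
    abel

/-- Module Main (abstract form). `φ x s` is the image in `A` of the point `(x, s)` of
the superelliptic curve `s ^ p = ∏ (x - e)`. -/
theorem exists_independent (p : ℕ) [hp : Fact p.Prime] (hμ : ∀ ω : Ω, ω ^ p = 1 → ω ∈ L)
    (hfg : IsTopFG (Ω ≃ₐ[K] Ω))
    (S : Multiset L) (hS : ¬ p ∣ Multiset.card S) (φ : Ω → Ω → A)
    (hequiv : ∀ g : Ω ≃ₐ[F₀] Ω, (∀ l ∈ L, g l = l) → ∀ (x : L) (s : Ω),
      s ^ p = (S.map fun e : L => (x : Ω) - (e : Ω)).prod → ρ g (φ x s) = φ x (g s))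
    (w : Valuation L ℤᵐ⁰) (ϖ : L) (hϖ : w ϖ = WithZero.exp (-1)) (C : ℤᵐ⁰)
    (hnt : ∀ x : L, C < w x → ∀ s : Ω,
      s ^ p = (S.map fun e : L => (x : Ω) - (e : Ω)).prod →
      ∀ g : Ω ≃ₐ[F₀] Ω, (∀ l ∈ L, g l = l) → g s ≠ s →
        ∀ n : ℤ, n ≠ 0 → n • (φ x s - φ x (g s)) ≠ 0) :
    ∀ m : ℕ, ∃ v : Fin m → A, LinearIndependent ℤ v ∧
      ∀ (k : Fin m) (γ : Ω ≃ₐ[K] Ω), ρ (γ.restrictScalars F₀) (v k) = v k := by
  classical
  have key : ∀ m : ℕ, ∃ (v : Fin m → A) (Z : Finset Lˣ), LinearIndependent ℤ v ∧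
      (∀ (k : Fin m) (γ : Ω ≃ₐ[K] Ω), ρ (γ.restrictScalars F₀) (v k) = v k) ∧
      ∀ g : Ω ≃ₐ[F₀] Ω, (∀ l ∈ L, g l = l) → (∀ z ∈ Z, ∀ r : Ω, r ^ p = ((z : L) : Ω) → g r = r) →
        ∀ k, ρ g (v k) = v k := by
    intro m
    induction m with
    | zero =>
      exact ⟨Fin.elim0, ∅, linearIndependent_empty_type, fun k => k.elim0, fun _ _ _ k => k.elim0⟩
    | succ m ih =>
      obtain ⟨v, Z, hv, hvγ, hvg⟩ := ih
      obtain ⟨T, Q, Z', hQ, hTγ, hTg, g, hgL, hgZ, hgT⟩ :=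
        exists_step ρ L p hμ hfg S hS φ hequiv w ϖ hϖ C hnt Z
      refine ⟨Fin.cons T v, Z ∪ Z', ?_, ?_, ?_⟩
      · refine hv.finCons' T v ?_
        intro c y hy hc
        have hgy : ρ g y = y := by
          refine Submodule.span_induction ?_ ?_ ?_ ?_ hy
          · rintro _ ⟨k, rfl⟩
            exact hvg g hgL hgZ k
          · exact map_zero _
          · intro a b _ _ ha hb
            rw [map_add, ha, hb]
          · intro n a _ ha
            rw [map_zsmul, ha]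
        have h1 : c • T + y = 0 := hc
        have h2 := congrArg (ρ g) h1
        rw [map_add, map_zsmul, hgT, hgy, map_zero, smul_sub] at h2
        have h3 : c • Q = 0 := by
          have h4 : c • T - c • Q + y = (c • T + y) - c • Q := by
            abel
          rw [h4, h1, zero_sub, neg_eq_zero] at h2
          exact h2
        by_contra hc0
        exact hQ c hc0 h3
      · intro k γ
        refine Fin.cases ?_ (fun j => ?_) k
        · exact hTγ γ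
        · exact hvγ j γ
      · intro g' hg'L hg'Z k
        refine Fin.cases ?_ (fun j => ?_) k
        · exact hTg g' hg'L fun z hz => hg'Z z (Finset.mem_union_right _ hz)
        · exact hvg g' hg'L (fun z hz => hg'Z z (Finset.mem_union_left _ hz)) j
  intro m
  obtain ⟨v, Z, h1, h2, -⟩ := key m
  exact ⟨v, h1, h2⟩

end Step

end Pool.Agent.MPab1e31.Se
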